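import Mathlib
import Pool.Agent.Helper10.Sub.AppDefs

/-!
# SUBAPP-JALG (for helper10, MP_26d9ad_nt)

The Jacobian condition at a point implies that its coordinates are algebraic, and gives a linear
identity with algebraic coefficients.
-/

set_option autoImplicit false

namespace Pool.Agent.Helper28.Sub

open Pool.Agent.Helper10.Sub MvPolynomial

/-- Chain rule for a derivation and a polynomial. -/
theorem deriv_aeval {k : Type} [Field k] {K : Type} [Field K] [Algebra k K]
    {M : Type} [AddCommGroup M] [Module k M] [Module K M] [IsScalarTower k K M]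
    {κ : Type} [Fintype κ] [DecidableEq κ] (D : Derivation k K M) (a : κ → K)
    (f : MvPolynomial κ k) :
    D (aeval a f) = ∑ l, (aeval a (pderiv l f)) • D (a l) := by
  induction f using MvPolynomial.induction_on with
  | C r => simp
  | add p q hp hq => simp [hp, hq, add_smul, Finset.sum_add_distrib]
  | mul_X p n hp =>
    rw [map_mul, Derivation.leibniz, hp, aeval_X]
    simp only [Derivation.leibniz, map_add, smul_eq_mul, map_mul, aeval_X, pderiv_X, add_smul,
      Finset.sum_add_distrib]
    congr 1
    · rw [Finset.sum_eq_single n]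
      · simp
      · intro b _ hb
        simp [hb.symm]
      · simp
    · rw [Finset.smul_sum]
      refine Finset.sum_congr rfl fun l _ => ?_
      rw [smul_smul]

/-- Over a field `K` containing all coordinates: the linear identity. -/
theorem jac_span {k : Type} [Field k] {K : Type} [Field K] [Algebra k K]
    {κ : Type} [Fintype κ] [DecidableEq κ]
    (J : Set (MvPolynomial κ k)) (A : κ → K) (j : κ) (hAj : A j = 1)
    (hJac : Jac J A) (i : κ) :
    ∃ (s : Finset (MvPolynomial κ k)) (c : MvPolynomial κ k → K), ↑s ⊆ J ∧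
      ∀ l : κ, (Pi.single i (1 : K) - A i • Pi.single j (1 : K) : κ → K) l =
        ∑ f ∈ s, c f * aeval A (pderiv l f) := by
  classical
  set g : MvPolynomial κ k → κ → K := fun f l => aeval A (pderiv l f) with hg
  set x : κ → K := Pi.single i (1 : K) - A i • Pi.single j (1 : K) with hx
  have hmem : x ∈ Submodule.span K (g '' J) := by
    by_contra hnot
    obtain ⟨φ, hφx, hφ⟩ := Submodule.exists_dual_map_eq_bot_of_notMem hnot inferInstance
    set v : κ → K := fun l => φ (Pi.single l 1) with hv
    have hφv : ∀ y : κ → K, φ y = ∑ l, y l * v l := by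
      intro y
      conv_lhs => rw [← Finset.univ_sum_single y]
      rw [map_sum]
      refine Finset.sum_congr rfl fun l _ => ?_
      have : (Pi.single l (y l) : κ → K) = y l • Pi.single l (1 : K) := by
        rw [← Pi.single_smul]; simp
      rw [this, map_smul, smul_eq_mul]
    have h0 : ∀ f ∈ J, dif f A v = 0 := by
      intro f hf
      have h1 : φ (g f) = 0 := by
        have : φ (g f) ∈ (Submodule.span K (g '' J)).map φ :=
          Submodule.mem_map_of_mem (Submodule.subset_span ⟨f, hf, rfl⟩)
        rw [hφ] at this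
        exact (Submodule.mem_bot K).1 this
      rw [hφv] at h1
      simpa [dif, hg] using h1
    obtain ⟨c, hc⟩ := hJac v h0
    have hvj : v j = c := by rw [hc]; simp [hAj]
    apply hφx
    rw [hφv]
    have : ∑ l, x l * v l = v i - A i * v j := by
      simp [hx, sub_mul, Finset.sum_sub_distrib, Pi.single_apply, Finset.sum_ite_eq']
    rw [this, hvj, hc]
    simp [mul_comm]
  rw [Finsupp.mem_span_image_iff_linearCombination] at hmem
  obtain ⟨c, hc, hcx⟩ := hmem
  refine ⟨c.support, c, ?_, ?_⟩
  · exact (Finsupp.mem_supported _ _).1 hc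
  · intro l
    rw [← hcx, Finsupp.linearCombination_apply, Finsupp.sum]
    simp [hg, Finset.sum_apply]

/-- JALG -/
theorem jac_alg {k : Type} [Field k] [CharZero k] {L : Type} [Field L] [Algebra k L]
    {κ : Type} [Fintype κ] [DecidableEq κ]
    (J : Set (MvPolynomial κ k)) (A : κ → L) (j : κ) (hAj : A j = 1) (hJ : OnV J A)
    (hJac : Jac J A) :
    (∀ i, IsAlgebraic k (A i)) ∧ ∀ i, ∃ (s : Finset (MvPolynomial κ k))
      (c : MvPolynomial κ k → L), ↑s ⊆ J ∧ (∀ f, IsAlgebraic k (c f)) ∧
      ∀ v : κ → L, v i - A i * v j = ∑ f ∈ s, c f * dif f A v := by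
  classical
  let K1 : IntermediateField k L := IntermediateField.adjoin k (Set.range A)
  let A' : κ → K1 := fun i => ⟨A i, IntermediateField.subset_adjoin _ _ ⟨i, rfl⟩⟩
  have hcoe : ∀ i, (algebraMap K1 L) (A' i) = A i := fun i => rfl
  have hA'j : A' j = 1 := by
    apply (algebraMap K1 L).injective
    rw [hcoe, hAj, map_one]
  have hae : ∀ f : MvPolynomial κ k, (algebraMap K1 L) (aeval A' f) = aeval A f := by
    intro f
    have : A = (algebraMap K1 L) ∘ A' := by ext i; rfl
    rw [this, aeval_algebraMap_apply]
  have hdif : ∀ (f : MvPolynomial κ k) (v : κ → K1),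
      (algebraMap K1 L) (dif f A' v) = dif f A (fun i => (algebraMap K1 L) (v i)) := by
    intro f v
    simp only [dif, map_sum, map_mul, hae]
  have hJ' : OnV J A' := by
    intro f hf
    apply (algebraMap K1 L).injective
    rw [hae, map_zero]
    exact hJ f hf
  have hJac' : Jac J A' := by
    intro v hv
    obtain ⟨c, hc⟩ := hJac (fun i => (algebraMap K1 L) (v i)) (fun f hf => by
      rw [← hdif, hv f hf, map_zero])
    have hcj : (algebraMap K1 L) (v j) = c := by
      have := congrFun hc j
      simpa [hAj] using this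
    refine ⟨v j, ?_⟩
    ext1 i
    apply (algebraMap K1 L).injective
    have := congrFun hc i
    simp only [Pi.smul_apply, smul_eq_mul, map_mul, hcoe] at this ⊢
    rw [this, hcj]
  have hspan := jac_span J A' j hA'j hJac'
  -- derivations vanish
  have hD : ∀ i, KaehlerDifferential.D k K1 (A' i) = 0 := by
    intro i
    obtain ⟨s, c, hs, hc⟩ := hspan i
    have h1 : ∑ l, ((Pi.single i (1 : K1) - A' i • Pi.single j (1 : K1) : κ → K1) l) •
        KaehlerDifferential.D k K1 (A' l) = 0 := by
      simp_rw [hc, Finset.sum_smul]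
      rw [Finset.sum_comm]
      refine Finset.sum_eq_zero fun f hf => ?_
      have h2 := deriv_aeval (KaehlerDifferential.D k K1) A' f
      rw [hJ' f (hs hf), map_zero] at h2
      simp_rw [mul_smul]
      rw [← Finset.smul_sum, ← h2, smul_zero]
    have h2 : ∑ l, ((Pi.single i (1 : K1) - A' i • Pi.single j (1 : K1) : κ → K1) l) •
        KaehlerDifferential.D k K1 (A' l) = KaehlerDifferential.D k K1 (A' i) -
          A' i • KaehlerDifferential.D k K1 (A' j) := by
      simp [sub_smul, Finset.sum_sub_distrib, Pi.single_apply, Finset.sum_ite_eq']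
    rw [h2, hA'j] at h1
    simpa using h1
  have hDall : ∀ x : K1, KaehlerDifferential.D k K1 x = 0 := by
    intro ⟨x, hx⟩
    induction hx using IntermediateField.adjoin_induction with
    | mem x hx =>
      obtain ⟨i, rfl⟩ := hx
      exact hD i
    | algebraMap x => exact (KaehlerDifferential.D k K1).map_algebraMap x
    | add x y hx hy h1 h2 =>
      have : (⟨x + y, add_mem hx hy⟩ : K1) = ⟨x, hx⟩ + ⟨y, hy⟩ := rfl
      rw [this, map_add, h1, h2, add_zero]
    | inv x hx h1 =>
      have : (⟨x⁻¹, inv_mem hx⟩ : K1) = (⟨x, hx⟩ : K1)⁻¹ := rfl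
      rw [this, Derivation.leibniz_inv, h1, smul_zero]
    | mul x y hx hy h1 h2 =>
      have : (⟨x * y, mul_mem hx hy⟩ : K1) = ⟨x, hx⟩ * ⟨y, hy⟩ := rfl
      rw [this, Derivation.leibniz, h1, h2, smul_zero, smul_zero, add_zero]
  have hsub : Subsingleton (Ω[K1⁄k]) := by
    have h := KaehlerDifferential.span_range_derivation k K1
    have h0 : Submodule.span K1 (Set.range (KaehlerDifferential.D k K1)) = ⊥ := by
      rw [Submodule.span_eq_bot]
      rintro _ ⟨x, rfl⟩
      exact hDall x
    rw [h0] at h
    exact (Submodule.subsingleton_iff K1).1 ⟨fun a b => by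
      have ha : a = ⊥ := le_bot_iff.1 (h ▸ le_top)
      have hb : b = ⊥ := le_bot_iff.1 (h ▸ le_top)
      rw [ha, hb]⟩
  have : Algebra.FormallyUnramified k K1 := ⟨hsub⟩
  have hess : Algebra.EssFiniteType k K1 := by
    rw [IntermediateField.essFiniteType_iff]
    exact ⟨(Set.finite_range A).toFinset, by simp [K1]⟩
  have hsep : Algebra.IsSeparable k K1 := Algebra.FormallyUnramified.isSeparable k K1
  have halg : ∀ x : K1, IsAlgebraic k ((algebraMap K1 L) x) := by
    intro x
    have : IsAlgebraic k x := (hsep.isSeparable' x).isIntegral.isAlgebraic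
    exact this.algebraMap
  refine ⟨fun i => hcoe i ▸ halg (A' i), fun i => ?_⟩
  obtain ⟨s, c, hs, hc⟩ := hspan i
  refine ⟨s, fun f => (algebraMap K1 L) (c f), hs, fun f => halg _, fun v => ?_⟩
  have hc' : ∀ l : κ, ((Pi.single i (1 : L) - A i • Pi.single j (1 : L) : κ → L) l) =
      ∑ f ∈ s, (algebraMap K1 L) (c f) * aeval A (pderiv l f) := by
    intro l
    have := congrArg (algebraMap K1 L) (hc l)
    rw [map_sum] at this
    simp only [map_mul, hae] at this
    rw [← this]
    simp only [Pi.sub_apply, Pi.smul_apply, smul_eq_mul, map_sub, map_mul, hcoe]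
    simp [Pi.single_apply, apply_ite (algebraMap K1 L)]
  have h2 : v i - A i * v j =
      ∑ l, ((Pi.single i (1 : L) - A i • Pi.single j (1 : L) : κ → L) l) * v l := by
    simp [sub_mul, Finset.sum_sub_distrib, Pi.single_apply, Finset.sum_ite_eq']
  rw [h2]
  simp_rw [hc', Finset.sum_mul]
  rw [Finset.sum_comm]
  refine Finset.sum_congr rfl fun f _ => ?_
  rw [dif, Finset.mul_sum]
  refine Finset.sum_congr rfl fun l _ => ?_
  ring

end Pool.Agent.Helper28.Sub
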