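import Pool.Agent.Helper27.BEL.Defs

/-!
# BEL6: graphs with a prescribed colour pattern, from star senders
-/

set_option autoImplicit false

namespace Pool.Agent.Helper28.BEL

open Pool.Agent.Helper27.BEL
open scoped Classical

/-- a host graph with a family of graphs to be glued on two edges at a vertex -/
structure Sys {V : Type} (P : SimpleGraph V) where
  J : Type
  W : J → Type
  G : ∀ j, SimpleGraph (W j)
  x : ∀ j, W j
  y : ∀ j, W j
  z : ∀ j, W j
  p : J → V
  a : J → V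
  b : J → V
  hxy : ∀ j, (G j).Adj (x j) (y j)
  hxz : ∀ j, (G j).Adj (x j) (z j)
  hyz : ∀ j, y j ≠ z j
  nyz : ∀ j, ¬ (G j).Adj (y j) (z j)
  hpa : ∀ j, P.Adj (p j) (a j)
  hpb : ∀ j, P.Adj (p j) (b j)
  hab : ∀ j, a j ≠ b j

namespace Sys

variable {V : Type} {P : SimpleGraph V} (S : Sys P)

/-- the vertices of the glued graph -/
abbrev VV : Type := V ⊕ (Σ j, S.W j)

/-- the embedding of a glued graph -/
noncomputable def emb (j : S.J) (s : S.W j) : S.VV :=
  if s = S.x j then Sum.inl (S.p j) else if s = S.y j then Sum.inl (S.a j) else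
    if s = S.z j then Sum.inl (S.b j) else Sum.inr ⟨j, s⟩

theorem emb_x (j : S.J) : S.emb j (S.x j) = Sum.inl (S.p j) := by simp [emb]

theorem emb_y (j : S.J) : S.emb j (S.y j) = Sum.inl (S.a j) := by
  simp [emb, (S.hxy j).ne']

theorem emb_z (j : S.J) : S.emb j (S.z j) = Sum.inl (S.b j) := by
  simp [emb, (S.hxz j).ne', (S.hyz j).symm]

theorem emb_cases (j : S.J) (s : S.W j) :
    s = S.x j ∨ s = S.y j ∨ s = S.z j ∨ (s ≠ S.x j ∧ s ≠ S.y j ∧ s ≠ S.z j ∧
      S.emb j s = Sum.inr ⟨j, s⟩) := by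
  by_cases h1 : s = S.x j
  · exact Or.inl h1
  by_cases h2 : s = S.y j
  · exact Or.inr (Or.inl h2)
  by_cases h3 : s = S.z j
  · exact Or.inr (Or.inr (Or.inl h3))
  exact Or.inr (Or.inr (Or.inr ⟨h1, h2, h3, by simp [emb, h1, h2, h3]⟩))

theorem emb_inj (j : S.J) : Function.Injective (S.emb j) := by
  intro s t hst
  rcases S.emb_cases j s with rfl | rfl | rfl | ⟨-, -, -, hs⟩ <;>
  rcases S.emb_cases j t with rfl | rfl | rfl | ⟨-, -, -, ht⟩
  · rfl
  · rw [emb_x, emb_y] at hst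
    exact absurd (Sum.inl_injective hst) (S.hpa j).ne
  · rw [emb_x, emb_z] at hst
    exact absurd (Sum.inl_injective hst) (S.hpb j).ne
  · rw [emb_x, ht] at hst; exact absurd hst (by simp)
  · rw [emb_x, emb_y] at hst
    exact absurd (Sum.inl_injective hst) (S.hpa j).ne'
  · rfl
  · rw [emb_y, emb_z] at hst
    exact absurd (Sum.inl_injective hst) (S.hab j)
  · rw [emb_y, ht] at hst; exact absurd hst (by simp)
  · rw [emb_x, emb_z] at hst
    exact absurd (Sum.inl_injective hst) (S.hpb j).ne'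
  · rw [emb_y, emb_z] at hst
    exact absurd (Sum.inl_injective hst) (S.hab j).symm
  · rfl
  · rw [emb_z, ht] at hst; exact absurd hst (by simp)
  · rw [emb_x, hs] at hst; exact absurd hst (by simp)
  · rw [emb_y, hs] at hst; exact absurd hst (by simp)
  · rw [emb_z, hs] at hst; exact absurd hst (by simp)
  · rw [hs, ht] at hst
    have := Sum.inr_injective hst
    simpa using this

theorem emb_inr {j : S.J} {s : S.W j} {q : Σ j, S.W j} (h : S.emb j s = Sum.inr q) :
    q = ⟨j, s⟩ := by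
  rcases S.emb_cases j s with rfl | rfl | rfl | ⟨-, -, -, hs⟩
  · rw [emb_x] at h; exact absurd h (by simp)
  · rw [emb_y] at h; exact absurd h (by simp)
  · rw [emb_z] at h; exact absurd h (by simp)
  · rw [hs] at h
    exact (Sum.inr_injective h).symm

/-- the glued graph -/
def GG : SimpleGraph S.VV where
  Adj p q := (∃ u v, P.Adj u v ∧ p = Sum.inl u ∧ q = Sum.inl v) ∨
    (∃ j s s', (S.G j).Adj s s' ∧ p = S.emb j s ∧ q = S.emb j s')
  symm := ⟨by
    rintro p q (⟨u, v, h, rfl, rfl⟩ | ⟨j, s, s', h, rfl, rfl⟩)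
    · exact Or.inl ⟨v, u, h.symm, rfl, rfl⟩
    · exact Or.inr ⟨j, s', s, h.symm, rfl, rfl⟩⟩
  loopless := ⟨by
    rintro p (⟨u, v, h, h1, h2⟩ | ⟨j, s, s', h, h1, h2⟩)
    · rw [h1] at h2
      exact h.ne (Sum.inl_injective h2)
    · rw [h1] at h2
      exact h.ne (S.emb_inj j h2)⟩

theorem adj_emb {j : S.J} {s s' : S.W j} (h : (S.G j).Adj s s') :
    S.GG.Adj (S.emb j s) (S.emb j s') := Or.inr ⟨j, s, s', h, rfl, rfl⟩

/-- an edge between two vertices of the host -/
theorem edge_cases {j : S.J} {s s' : S.W j} (h : (S.G j).Adj s s') :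
    (s = S.x j ∧ s' = S.y j) ∨ (s = S.x j ∧ s' = S.z j) ∨ (s = S.y j ∧ s' = S.x j) ∨
    (s = S.z j ∧ s' = S.x j) ∨ S.emb j s = Sum.inr ⟨j, s⟩ ∨ S.emb j s' = Sum.inr ⟨j, s'⟩ := by
  rcases S.emb_cases j s with rfl | rfl | rfl | ⟨-, -, -, hs⟩ <;>
  rcases S.emb_cases j s' with rfl | rfl | rfl | ⟨-, -, -, ht⟩
  · exact absurd rfl h.ne
  · exact Or.inl ⟨rfl, rfl⟩
  · exact Or.inr (Or.inl ⟨rfl, rfl⟩)
  · tauto
  · tauto
  · exact absurd rfl h.ne
  · exact absurd h (S.nyz j)
  · tauto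
  · tauto
  · exact absurd h.symm (S.nyz j)
  · exact absurd rfl h.ne
  · tauto
  · tauto
  · tauto
  · tauto
  · tauto

theorem adj_inl (u v : V) : S.GG.Adj (Sum.inl u) (Sum.inl v) ↔ P.Adj u v := by
  constructor
  · rintro (⟨u', v', h, h1, h2⟩ | ⟨j, s, s', h, h1, h2⟩)
    · rw [Sum.inl_injective h1, Sum.inl_injective h2]
      exact h
    · rcases S.edge_cases h with ⟨rfl, rfl⟩ | ⟨rfl, rfl⟩ | ⟨rfl, rfl⟩ | ⟨rfl, rfl⟩ | hs | hs
      · rw [emb_x] at h1; rw [emb_y] at h2
        rw [Sum.inl_injective h1, Sum.inl_injective h2]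
        exact S.hpa j
      · rw [emb_x] at h1; rw [emb_z] at h2
        rw [Sum.inl_injective h1, Sum.inl_injective h2]
        exact S.hpb j
      · rw [emb_y] at h1; rw [emb_x] at h2
        rw [Sum.inl_injective h1, Sum.inl_injective h2]
        exact (S.hpa j).symm
      · rw [emb_z] at h1; rw [emb_x] at h2
        rw [Sum.inl_injective h1, Sum.inl_injective h2]
        exact (S.hpb j).symm
      · rw [hs] at h1; exact absurd h1 (by simp)
      · rw [hs] at h2; exact absurd h2 (by simp)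
  · intro h
    exact Or.inl ⟨u, v, h, rfl, rfl⟩

/-- the neighbours of a new vertex -/
theorem adj_inr {j : S.J} {s : S.W j} {q : S.VV} (h : S.GG.Adj (Sum.inr ⟨j, s⟩) q) :
    S.emb j s = Sum.inr ⟨j, s⟩ ∧ ∃ s', (S.G j).Adj s s' ∧ q = S.emb j s' := by
  rcases h with ⟨u, v, h, h1, h2⟩ | ⟨i, t, t', h, h1, h2⟩
  · exact absurd h1 (by simp)
  · have h3 := S.emb_inr h1.symm
    cases h3
    exact ⟨h1.symm, t', h, h2⟩

variable (φ : V → V → Bool) (c : ∀ j, S.W j → S.W j → Bool)

/-- when the colour is true -/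
def QQ (p q : S.VV) : Prop :=
  (∃ u v, φ u v = true ∧ p = Sum.inl u ∧ q = Sum.inl v) ∨
    (∃ j s s', c j s s' = true ∧ p = S.emb j s ∧ q = S.emb j s' ∧
      (S.emb j s = Sum.inr ⟨j, s⟩ ∨ S.emb j s' = Sum.inr ⟨j, s'⟩))

/-- the glued colouring -/
noncomputable def CC (p q : S.VV) : Bool := decide (S.QQ φ c p q)

theorem CC_symm (hφ : ∀ u v, φ u v = φ v u) (hc : ∀ j s s', c j s s' = c j s' s) (p q : S.VV) :
    S.CC φ c p q = S.CC φ c q p := by
  have key : ∀ p q, S.QQ φ c p q → S.QQ φ c q p := by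
    rintro p q (⟨u, v, h, rfl, rfl⟩ | ⟨j, s, s', h, rfl, rfl, h'⟩)
    · exact Or.inl ⟨v, u, by rw [hφ, h], rfl, rfl⟩
    · exact Or.inr ⟨j, s', s, by rw [hc, h], rfl, rfl, h'.symm⟩
  unfold CC
  rw [decide_eq_decide]
  exact ⟨key p q, key q p⟩

theorem CC_inl (u v : V) : S.CC φ c (Sum.inl u) (Sum.inl v) = φ u v := by
  unfold CC
  rw [Bool.eq_iff_iff, decide_eq_true_iff]
  constructor
  · rintro (⟨u', v', h, h1, h2⟩ | ⟨j, s, s', h, h1, h2, h3 | h3⟩)
    · rw [Sum.inl_injective h1, Sum.inl_injective h2]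
      exact h
    · rw [h3] at h1; exact absurd h1 (by simp)
    · rw [h3] at h2; exact absurd h2 (by simp)
  · intro h
    exact Or.inl ⟨u, v, h, rfl, rfl⟩

theorem CC_emb (j : S.J) (s s' : S.W j)
    (h : S.emb j s = Sum.inr ⟨j, s⟩ ∨ S.emb j s' = Sum.inr ⟨j, s'⟩) :
    S.CC φ c (S.emb j s) (S.emb j s') = c j s s' := by
  unfold CC
  rw [Bool.eq_iff_iff, decide_eq_true_iff]
  constructor
  · rintro (⟨u', v', h', h1, h2⟩ | ⟨i, t, t', h', h1, h2, -⟩)
    · rcases h with h | h
      · rw [h] at h1; exact absurd h1 (by simp)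
      · rw [h] at h2; exact absurd h2 (by simp)
    · rcases h with h | h
      · rw [h] at h1
        have h3 := S.emb_inr h1.symm
        cases h3
        rw [S.emb_inj _ h2]
        exact h'
      · rw [h] at h2
        have h3 := S.emb_inr h2.symm
        cases h3
        rw [S.emb_inj _ h1]
        exact h'
  · intro h'
    exact Or.inr ⟨j, s, s', h', rfl, rfl, h⟩

theorem CC_edge (hφ : ∀ u v, φ u v = φ v u) (hc : ∀ j s s', c j s s' = c j s' s)
    (hy : ∀ j, c j (S.x j) (S.y j) = φ (S.p j) (S.a j))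
    (hz : ∀ j, c j (S.x j) (S.z j) = φ (S.p j) (S.b j))
    {j : S.J} {s s' : S.W j} (h : (S.G j).Adj s s') :
    S.CC φ c (S.emb j s) (S.emb j s') = c j s s' := by
  rcases S.edge_cases h with ⟨rfl, rfl⟩ | ⟨rfl, rfl⟩ | ⟨rfl, rfl⟩ | ⟨rfl, rfl⟩ | hs | hs
  · rw [emb_x, emb_y, CC_inl, hy]
  · rw [emb_x, emb_z, CC_inl, hz]
  · rw [emb_x, emb_y, CC_inl, hc, hy, hφ]
  · rw [emb_x, emb_z, CC_inl, hc, hz, hφ]
  · exact S.CC_emb φ c j s s' (Or.inl hs)
  · exact S.CC_emb φ c j s s' (Or.inr hs)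

end Sys

/-- pulling back a colouring along an injective homomorphism -/
theorem monoFree_comap {n : ℕ} {V W : Type*} {H : SimpleGraph (Fin n)} {G : SimpleGraph V}
    {G' : SimpleGraph W} {c : V → V → Bool} (h : MonoFree H G c) (e : W → V)
    (he : Function.Injective e) (hom : ∀ a b, G'.Adj a b → G.Adj (e a) (e b)) :
    MonoFree H G' (fun a b => c (e a) (e b)) := by
  refine ⟨fun a b => h.1 _ _, fun β f hf hm => h.2 β (e ∘ f) (he.comp hf) fun u v huv => ?_⟩
  exact ⟨hom _ _ (hm u v huv).1, (hm u v huv).2⟩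

theorem monoFree_not {n : ℕ} {V : Type*} {H : SimpleGraph (Fin n)} {G : SimpleGraph V}
    {c : V → V → Bool} (h : MonoFree H G c) : MonoFree H G (fun a b => !(c a b)) := by
  refine ⟨fun a b => congrArg (fun t => !t) (h.1 a b), fun β f hf hm =>
    h.2 (!β) f hf fun u v huv => ?_⟩
  refine ⟨(hm u v huv).1, ?_⟩
  rw [← (hm u v huv).2]
  simp

/-- every vertex has a neighbour -/
theorem exists_nbr {n : ℕ} {H : SimpleGraph (Fin n)} (hH : Sep H) (v : Fin n) :
    ∃ w, H.Adj v w := by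
  obtain ⟨hn, h⟩ := hH
  have h1 : ∃ w : Fin n, w ≠ v := by
    have : Nontrivial (Fin n) := Fin.nontrivial_iff_two_le.2 (by omega)
    exact exists_ne v
  obtain ⟨w, hw⟩ := h1
  obtain ⟨u, hu, w', -, -, hadj⟩ := h ∅ {v} (by simp) (by simp) (by simp) ⟨w, by simp [hw]⟩
  rw [Finset.mem_singleton] at hu
  subst hu
  exact ⟨w', hadj⟩

/-- the glued colouring has no monochromatic copy -/
theorem monoFree_CC {n : ℕ} (H : SimpleGraph (Fin n)) (hH : Sep H) {V : Type}
    {P : SimpleGraph V} (S : Sys P) [∀ j, Fintype (S.W j)] (φ : V → V → Bool)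
    (hφ : MonoFree H P φ) (c : ∀ j, S.W j → S.W j → Bool) (hc : ∀ j, MonoFree H (S.G j) (c j))
    (hy : ∀ j, c j (S.x j) (S.y j) = φ (S.p j) (S.a j))
    (hz : ∀ j, c j (S.x j) (S.z j) = φ (S.p j) (S.b j))
    (hsep : ∀ j (C : Finset (S.W j)), S.x j ∉ C → C.card ≤ n + 2 →
      ∃ g : S.W j → Bool, g (S.y j) ≠ g (S.z j) ∧
        ∀ s ∈ C, ∀ s' ∈ C, (S.G j).Adj s s' → g s = g s') :
    MonoFree H S.GG (S.CC φ c) := by
  refine ⟨S.CC_symm φ c hφ.1 (fun j => (hc j).1), fun β f hf hm => ?_⟩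
  by_cases hall : ∀ v, ∃ u, f v = Sum.inl u
  · choose f' hf' using hall
    refine hφ.2 β f' (fun u v huv => hf (by rw [hf', hf', huv])) fun u v huv => ?_
    have h1 := hm u v huv
    rw [hf' u, hf' v, S.adj_inl, S.CC_inl] at h1
    exact h1
  push Not at hall
  obtain ⟨v0, hv0⟩ := hall
  obtain ⟨j, s0, hs0⟩ : ∃ j s0, f v0 = Sum.inr ⟨j, s0⟩ := by
    rcases hfv : f v0 with u | ⟨j, s⟩
    · exact absurd hfv (hv0 u)
    · exact ⟨j, s, rfl⟩
  -- new vertices in the copy
  have hemb : ∀ v s, f v = Sum.inr ⟨j, s⟩ → S.emb j s = Sum.inr ⟨j, s⟩ := by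
    intro v s hv
    obtain ⟨w, hw⟩ := exists_nbr hH v
    have h1 := (hm v w hw).1
    rw [hv] at h1
    exact (S.adj_inr h1).1
  have hne : ∀ s, S.emb j s = Sum.inr ⟨j, s⟩ → s ≠ S.x j ∧ s ≠ S.y j ∧ s ≠ S.z j := by
    intro s hs
    refine ⟨?_, ?_, ?_⟩
    · rintro rfl
      rw [S.emb_x] at hs; exact absurd hs (by simp)
    · rintro rfl
      rw [S.emb_y] at hs; exact absurd hs (by simp)
    · rintro rfl
      rw [S.emb_z] at hs; exact absurd hs (by simp)
  set C1 : Finset (S.W j) := Finset.univ.filter (fun s => ∃ v, f v = Sum.inr ⟨j, s⟩) with hC1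
  have hC1card : C1.card ≤ n := by
    have h1 : Function.Injective (fun s : S.W j => (Sum.inr ⟨j, s⟩ : S.VV)) := by
      intro s t hst
      have := Sum.inr_injective hst
      simpa using this
    rw [← Finset.card_image_of_injective C1 h1]
    calc (C1.image fun s => (Sum.inr ⟨j, s⟩ : S.VV)).card ≤ (Finset.univ.image f).card := by
          apply Finset.card_le_card
          intro q hq
          rw [Finset.mem_image] at hq ⊢
          obtain ⟨s, hs, rfl⟩ := hq
          rw [hC1, Finset.mem_filter] at hs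
          obtain ⟨-, v, hv⟩ := hs
          exact ⟨v, Finset.mem_univ _, hv⟩
      _ ≤ (Finset.univ : Finset (Fin n)).card := Finset.card_image_le
      _ = n := by simp
  obtain ⟨g, hg, hgC⟩ := hsep j (C1 ∪ {S.y j, S.z j}) (by
      rw [Finset.mem_union, Finset.mem_insert, Finset.mem_singleton]
      rintro (h1 | h1 | h1)
      · rw [hC1, Finset.mem_filter] at h1
        obtain ⟨-, v, hv⟩ := h1
        exact (hne _ (hemb v _ hv)).1 rfl
      · exact (S.hxy j).ne h1
      · exact (S.hxz j).ne h1) (by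
      refine (Finset.card_union_le _ _).trans ?_
      have := Finset.card_le_two (a := S.y j) (b := S.z j)
      omega)
  -- the end on the side of `s0`
  obtain ⟨y0, a0, hy0, hadj0, hemb0, huniq⟩ : ∃ (y0 : S.W j) (a0 : V), g y0 = g s0 ∧
      (S.G j).Adj (S.x j) y0 ∧ S.emb j y0 = Sum.inl a0 ∧
      ∀ s, s = S.y j ∨ s = S.z j → g s = g s0 → s = y0 := by
    by_cases h1 : g (S.y j) = g s0
    · refine ⟨S.y j, S.a j, h1, S.hxy j, S.emb_y j, ?_⟩
      rintro s (rfl | rfl) hs
      · rfl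
      · exact absurd (h1.trans hs.symm) hg
    · refine ⟨S.z j, S.b j, ?_, S.hxz j, S.emb_z j, ?_⟩
      · revert hg h1
        cases g (S.y j) <;> cases g (S.z j) <;> cases g s0 <;> simp
      · rintro s (rfl | rfl) hs
        · exact absurd hs h1
        · rfl
  set XX : Finset (Fin n) := Finset.univ.filter
    (fun v => ∃ s, f v = Sum.inr ⟨j, s⟩ ∧ g s = g s0) with hXX
  set TT : Finset (Fin n) := Finset.univ.filter
    (fun v => f v = Sum.inl (S.p j) ∨ f v = Sum.inl a0) with hTT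
  have hcov : ∀ v, v ∈ XX ∨ v ∈ TT := by
    by_contra hcon
    push Not at hcon
    obtain ⟨w, hw1, hw2⟩ := hcon
    obtain ⟨u, hu, v, hv1, hv2, huv⟩ := hH.2 TT XX (by
        have h1 : (TT.image f).card ≤ 2 := by
          refine (Finset.card_le_card ?_).trans
            (Finset.card_le_two (a := (Sum.inl (S.p j) : S.VV)) (b := Sum.inl a0))
          intro q hq
          rw [Finset.mem_image] at hq
          obtain ⟨v, hv, rfl⟩ := hq
          rw [hTT, Finset.mem_filter] at hv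
          rw [Finset.mem_insert, Finset.mem_singleton]
          exact hv.2
        rwa [Finset.card_image_of_injective _ hf] at h1) (by
        refine ⟨v0, ?_⟩
        rw [hXX, Finset.mem_filter]
        exact ⟨Finset.mem_univ _, s0, hs0, rfl⟩) (by
        rw [Finset.disjoint_left]
        intro v hv hv'
        rw [hXX, Finset.mem_filter] at hv
        rw [hTT, Finset.mem_filter] at hv'
        obtain ⟨-, s, hs, -⟩ := hv
        rw [hs] at hv'
        rcases hv'.2 with h | h <;> exact absurd h (by simp)) ⟨w, hw1, hw2⟩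
    rw [hXX, Finset.mem_filter] at hu
    obtain ⟨-, s, hs, hgs⟩ := hu
    have h1 := (hm u v huv).1
    rw [hs] at h1
    obtain ⟨hes, s', hss', hv⟩ := S.adj_inr h1
    have hsC : s ∈ C1 ∪ {S.y j, S.z j} := by
      rw [Finset.mem_union]
      left
      rw [hC1, Finset.mem_filter]
      exact ⟨Finset.mem_univ _, u, hs⟩
    rcases S.emb_cases j s' with h2 | h2 | h2 | ⟨-, -, -, h2⟩
    · apply hv2
      rw [hTT, Finset.mem_filter]
      refine ⟨Finset.mem_univ _, Or.inl ?_⟩
      rw [hv, h2, S.emb_x]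
    · have h3 : g s = g s' := hgC s hsC s' (by
        rw [Finset.mem_union, Finset.mem_insert]; exact Or.inr (Or.inl h2)) hss'
      have h4 := huniq s' (Or.inl h2) (h3.symm.trans hgs)
      apply hv2
      rw [hTT, Finset.mem_filter]
      refine ⟨Finset.mem_univ _, Or.inr ?_⟩
      rw [hv, h4, hemb0]
    · have h3 : g s = g s' := hgC s hsC s' (by
        rw [Finset.mem_union, Finset.mem_insert, Finset.mem_singleton]
        exact Or.inr (Or.inr h2)) hss'
      have h4 := huniq s' (Or.inr h2) (h3.symm.trans hgs)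
      apply hv2
      rw [hTT, Finset.mem_filter]
      refine ⟨Finset.mem_univ _, Or.inr ?_⟩
      rw [hv, h4, hemb0]
    · have h5 : f v = Sum.inr ⟨j, s'⟩ := by rw [hv, h2]
      have h3 : g s = g s' := hgC s hsC s' (by
        rw [Finset.mem_union]
        left
        rw [hC1, Finset.mem_filter]
        exact ⟨Finset.mem_univ _, v, h5⟩) hss'
      apply hv1
      rw [hXX, Finset.mem_filter]
      exact ⟨Finset.mem_univ _, s', h5, h3.symm.trans hgs⟩
  -- pull back
  have hpull : ∀ v, ∃ s, f v = S.emb j s ∧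
      (s = S.x j ∨ s = y0 ∨ S.emb j s = Sum.inr ⟨j, s⟩) := by
    intro v
    rcases hcov v with hv | hv
    · rw [hXX, Finset.mem_filter] at hv
      obtain ⟨-, s, hs, -⟩ := hv
      have h1 := hemb v s hs
      exact ⟨s, by rw [hs, h1], Or.inr (Or.inr h1)⟩
    · rw [hTT, Finset.mem_filter] at hv
      rcases hv.2 with h1 | h1
      · exact ⟨S.x j, by rw [h1, S.emb_x], Or.inl rfl⟩
      · exact ⟨y0, by rw [h1, hemb0], Or.inr (Or.inl rfl)⟩
  choose h hh hh' using hpull
  refine (hc j).2 β h (fun u v huv => hf (by rw [hh, hh, huv])) fun u v huv => ?_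
  obtain ⟨h1, h2⟩ := hm u v huv
  have hAdj : (S.G j).Adj (h u) (h v) := by
    rw [hh u, hh v] at h1
    rcases hh' u with hu | hu | hu
    · rcases hh' v with hv | hv | hv
      · rw [hu, hv] at h1
        exact absurd rfl h1.ne
      · rw [hu, hv]
        exact hadj0
      · rw [hv] at h1
        obtain ⟨-, s', hs', h3⟩ := S.adj_inr h1.symm
        rw [S.emb_inj j h3]
        exact hs'.symm
    · rcases hh' v with hv | hv | hv
      · rw [hu, hv]
        exact hadj0.symm
      · rw [hu, hv] at h1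
        exact absurd rfl h1.ne
      · rw [hv] at h1
        obtain ⟨-, s', hs', h3⟩ := S.adj_inr h1.symm
        rw [S.emb_inj j h3]
        exact hs'.symm
    · rw [hu] at h1
      obtain ⟨-, s', hs', h3⟩ := S.adj_inr h1
      rw [S.emb_inj j h3]
      exact hs'
  refine ⟨hAdj, ?_⟩
  rw [hh u, hh v, S.CC_edge φ c hφ.1 (fun j => (hc j).1) hy hz hAdj] at h2
  exact h2

theorem bel {n : ℕ} (H : SimpleGraph (Fin n)) (hH : Sep H)
    (hsend : ∀ β : Bool, ∃ (V : Type) (_ : Fintype V) (G : SimpleGraph V) (x y y' : V),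
      IsSender H (n + 2) β G x y y')
    {V : Type} [Fintype V] (P : SimpleGraph V) (φ : V → V → Bool) (hφ : MonoFree H P φ) :
    ∃ (V' : Type) (_ : Fintype V') (G : SimpleGraph V') (ι : V → V'), Function.Injective ι ∧
      (∀ u v, G.Adj (ι u) (ι v) ↔ P.Adj u v) ∧ (∃ c, MonoFree H G c) ∧
      ∀ c, MonoFree H G c → ∀ x a b, P.Adj x a → P.Adj x b →
        (c (ι x) (ι a) = c (ι x) (ι b) ↔ φ x a = φ x b) := by
  choose W fW G x y z hS using hsend
  let J : Type := {j : V × V × V // P.Adj j.1 j.2.1 ∧ P.Adj j.1 j.2.2 ∧ j.2.1 ≠ j.2.2}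
  let bt : J → Bool := fun j => decide (φ j.1.1 j.1.2.1 = φ j.1.1 j.1.2.2)
  have hny : ∀ β, ¬ (G β).Adj (y β) (z β) := by
    intro β hadj
    have hs := hS β
    obtain ⟨g, hg, hgC⟩ := hs.2.2.2.2.2 {y β, z β} (by
      rw [Finset.mem_insert, Finset.mem_singleton]
      rintro (h1 | h1)
      · exact hs.2.1.ne h1
      · exact hs.2.2.1.ne h1) (by
      have := Finset.card_le_two (a := y β) (b := z β)
      omega)
    exact hg (hgC _ (by simp) _ (by simp) hadj)
  let S : Sys P :=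
    { J := J
      W := fun j => W (bt j)
      G := fun j => G (bt j)
      x := fun j => x (bt j)
      y := fun j => y (bt j)
      z := fun j => z (bt j)
      p := fun j => j.1.1
      a := fun j => j.1.2.1
      b := fun j => j.1.2.2
      hxy := fun j => (hS (bt j)).2.1
      hxz := fun j => (hS (bt j)).2.2.1
      hyz := fun j => (hS (bt j)).1
      nyz := fun j => hny (bt j)
      hpa := fun j => j.2.1
      hpb := fun j => j.2.2.1
      hab := fun j => j.2.2.2 }
  have fJ : Fintype S.J := by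
    change Fintype {j : V × V × V // P.Adj j.1 j.2.1 ∧ P.Adj j.1 j.2.2 ∧ j.2.1 ≠ j.2.2}
    infer_instance
  have fWW : ∀ j, Fintype (S.W j) := fun j => fW (bt j)
  refine ⟨S.VV, inferInstance, S.GG, Sum.inl, Sum.inl_injective, S.adj_inl, ?_, ?_⟩
  · have hex : ∀ j : S.J, ∃ c : S.W j → S.W j → Bool, MonoFree H (S.G j) c ∧
        c (S.x j) (S.y j) = φ (S.p j) (S.a j) ∧ c (S.x j) (S.z j) = φ (S.p j) (S.b j) := by
      intro j
      have hs := hS (bt j)
      have hbt : bt j = true ↔ φ (S.p j) (S.a j) = φ (S.p j) (S.b j) := decide_eq_true_iff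
      obtain ⟨c, hc⟩ := hs.2.2.2.1
      have key : ∀ c, MonoFree H (S.G j) c → c (S.x j) (S.y j) = φ (S.p j) (S.a j) →
          c (S.x j) (S.z j) = φ (S.p j) (S.b j) := by
        intro c hc h1
        have h2 : c (S.x j) (S.y j) = c (S.x j) (S.z j) ↔ bt j = true := hs.2.2.2.2.1 c hc
        rw [hbt, h1] at h2
        revert h2
        cases φ (S.p j) (S.a j) <;> cases φ (S.p j) (S.b j) <;> cases c (S.x j) (S.z j) <;> simp
      by_cases h1 : c (S.x j) (S.y j) = φ (S.p j) (S.a j)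
      · exact ⟨c, hc, h1, key c hc h1⟩
      · have h2 : (fun a b => !(c a b)) (S.x j) (S.y j) = φ (S.p j) (S.a j) := by
          revert h1
          change _ → (!(c (S.x j) (S.y j))) = _
          cases c (S.x j) (S.y j) <;> cases φ (S.p j) (S.a j) <;> simp
        exact ⟨fun a b => !(c a b), monoFree_not hc, h2, key _ (monoFree_not hc) h2⟩
    choose c hc hy hz using hex
    exact ⟨S.CC φ c, monoFree_CC H hH S φ hφ c hc hy hz
      (fun j C hx hC => (hS (bt j)).2.2.2.2.2 C hx hC)⟩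
  · intro c hc x' a b hxa hxb
    by_cases hab : a = b
    · subst hab
      simp
    let j : J := ⟨(x', a, b), hxa, hxb, hab⟩
    have h1 := monoFree_comap (G' := S.G j) hc (S.emb j) (S.emb_inj j) (fun _ _ h => S.adj_emb h)
    have h2 := (hS (bt j)).2.2.2.2.1 _ h1
    have e1 : S.emb j (x (bt j)) = Sum.inl x' := S.emb_x j
    have e2 : S.emb j (y (bt j)) = Sum.inl a := S.emb_y j
    have e3 : S.emb j (z (bt j)) = Sum.inl b := S.emb_z j
    have hbt : bt j = true ↔ φ x' a = φ x' b := decide_eq_true_iff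
    rw [hbt] at h2
    simp only [e1, e2, e3] at h2
    exact h2

end Pool.Agent.Helper28.BEL
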