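import Mathlib

set_option autoImplicit false

namespace Pool.Agent.Helper28.HPDefs

open UpperHalfPlane

/-- `p` is a list of `n` points of the hyperbolic plane `ℍ` (the upper half-plane with its
hyperbolic distance, curvature `-1`) whose pairwise distances are all at least `d`. -/
def IsPacking (d : ℝ) {n : ℕ} (p : Fin n → ℍ) : Prop :=
  ∀ i j, i ≠ j → d ≤ dist (p i) (p j)

/-- The number of (unordered) pairs of the points `p` at distance exactly `d`. -/
noncomputable def touching (d : ℝ) {n : ℕ} (p : Fin n → ℍ) : ℕ :=
  Nat.card {q : Fin n × Fin n // q.1 < q.2 ∧ dist (p q.1) (p q.2) = d}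

/-- `e_d(n)`: the largest number of touching pairs of `n` points with pairwise distances at
least `d` (the supremum of a set of natural numbers that are at most `n ^ 2`). -/
noncomputable def maxTouching (d : ℝ) (n : ℕ) : ℕ :=
  sSup {t | ∃ p : Fin n → ℍ, IsPacking d p ∧ touching d p = t}

/-- The bound `U_d(n)`, written in terms of the angle `α` of the equilateral triangle. -/
noncomputable def U (α : ℝ) (n : ℕ) : ℝ :=
  Real.pi / α * n - √((Real.pi / α - 1) * (Real.pi / α - 3) * (n : ℝ) ^ 2
    + 6 * (Real.pi / α - 1) * n - 2 * Real.pi / α + 3)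

end Pool.Agent.Helper28.HPDefs
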