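import Mathlib

set_option autoImplicit false

namespace Pool.Agent.Helper28.HP

/-- index of the last neighbour of the `c`-th vertex of the spiral. -/
noncomputable def FF (k : ℕ) (c : ℕ) : ℕ :=
  if c ≤ 1 then k + 1 else
    (k - 4) * c + 6 -
      ((Finset.univ : Finset (Fin c)).filter (fun i : Fin c => 1 ≤ i.1 ∧ FF k i.1 ≤ c)).card
termination_by c
decreasing_by all_goals exact Fin.isLt _

/-- number of completed vertices among the first `n`. -/
noncomputable def II (k n : ℕ) : ℕ :=
  ((Finset.range n).filter (fun c => 1 ≤ c ∧ FF k c ≤ n)).card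

theorem FF_one (k : ℕ) : FF k 1 = k + 1 := by
  rw [FF]; simp

theorem FF_eq (k c : ℕ) (hc : 2 ≤ c) : FF k c = (k - 4) * c + 6 - II k c := by
  rw [FF, if_neg (by omega), II]
  congr 1
  rw [← Finset.card_map ⟨Fin.val, Fin.val_injective⟩]
  congr 1
  ext i
  simp only [Finset.mem_map, Finset.mem_filter, Finset.mem_univ, true_and,
    Function.Embedding.coeFn_mk, Finset.mem_range]
  constructor
  · rintro ⟨j, hj, rfl⟩
    exact ⟨j.2, hj⟩
  · rintro ⟨h1, h2⟩
    exact ⟨⟨i, h1⟩, h2, rfl⟩

theorem II_le (k n : ℕ) : II k n ≤ n := by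
  unfold II
  refine (Finset.card_filter_le _ _).trans ?_
  simp

theorem II_two (k : ℕ) (hk : 7 ≤ k) : II k 2 = 0 := by
  unfold II
  rw [Finset.card_eq_zero, Finset.filter_eq_empty_iff]
  intro c hc
  rw [Finset.mem_range] at hc
  rintro ⟨h1, h2⟩
  have : c = 1 := by omega
  subst this
  rw [FF_one] at h2
  omega

theorem FF_two (k : ℕ) (hk : 7 ≤ k) : FF k 2 = 2 * k - 2 := by
  rw [FF_eq k 2 le_rfl, II_two k hk]
  omega

theorem FF_gap_aux (k : ℕ) (hk : 7 ≤ k) : ∀ n : ℕ, ∀ c, 1 ≤ c → c + 1 ≤ n →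
    FF k c + 2 ≤ FF k (c + 1) := by
  intro n
  induction n with
  | zero => intro c h1 h2; omega
  | succ n ih =>
    intro c h1 h2
    rcases Nat.lt_or_ge c n with hlt | hge
    · exact ih c h1 (by omega)
    have hcn : c = n := by omega
    subst hcn
    rcases Nat.eq_or_lt_of_le h1 with h3 | h3
    · subst h3
      rw [FF_one, FF_two k hk]
      omega
    · -- monotonicity up to c
      have hmono : ∀ i j, 1 ≤ i → i ≤ j → j ≤ c → FF k i + 2 * (j - i) ≤ FF k j := by
        intro i j hi hij
        induction j, hij using Nat.le_induction with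
        | base => intro _; simp
        | succ j hij ihj =>
          intro hj
          have e1 := ihj (by omega)
          have e2 := ih j (by omega) (by omega)
          omega
      have hge2 : ∀ i, 1 ≤ i → i ≤ c → i + 2 ≤ FF k i := by
        intro i hi hic
        have := hmono 1 i le_rfl hi hic
        rw [FF_one] at this
        omega
      have hstep : II k (c + 1) ≤ II k c + 1 := by
        unfold II
        by_cases hex : ∃ c0, 1 ≤ c0 ∧ c0 ≤ c ∧ FF k c0 = c + 1
        · obtain ⟨c0, hc0, hc0c, hF⟩ := hex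
          refine (Finset.card_le_card (t := insert c0
            ((Finset.range c).filter (fun i => 1 ≤ i ∧ FF k i ≤ c))) ?_).trans
            (Finset.card_insert_le _ _)
          intro i hi
          simp only [Finset.mem_filter, Finset.mem_range, Finset.mem_insert] at hi ⊢
          obtain ⟨hi1, hi2, hi3⟩ := hi
          rcases Nat.lt_trichotomy i c0 with h4 | h4 | h4
          · right
            have := hmono i c0 hi2 h4.le hc0c
            have := hge2 i hi2 (by omega)
            omega
          · left; exact h4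
          · exfalso
            have := hmono c0 i hc0 h4.le (by omega)
            omega
        · push Not at hex
          refine (Finset.card_le_card (t :=
            ((Finset.range c).filter (fun i => 1 ≤ i ∧ FF k i ≤ c))) ?_).trans (Nat.le_succ _)
          intro i hi
          simp only [Finset.mem_filter, Finset.mem_range] at hi ⊢
          obtain ⟨hi1, hi2, hi3⟩ := hi
          have h4 := hex i hi2 (by omega)
          have h5 := hge2 i hi2 (by omega)
          omega
      have hc2 : 2 ≤ c := h3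
      rw [FF_eq k c hc2, FF_eq k (c + 1) (by omega)]
      have h5 := II_le k c
      have h6 : (k - 4) * (c + 1) = (k - 4) * c + (k - 4) := by ring
      have h7 : 3 * c ≤ (k - 4) * c := Nat.mul_le_mul_right c (by omega)
      omega

theorem FF_gap (k : ℕ) (hk : 7 ≤ k) (c : ℕ) (hc : 1 ≤ c) : FF k c + 2 ≤ FF k (c + 1) :=
  FF_gap_aux k hk (c + 1) c hc le_rfl

theorem FF_mono (k : ℕ) (hk : 7 ≤ k) {i j : ℕ} (hi : 1 ≤ i) (hij : i ≤ j) :
    FF k i + 2 * (j - i) ≤ FF k j := by
  induction j, hij using Nat.le_induction with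
  | base => simp
  | succ j hij ihj =>
    have e2 := FF_gap k hk j (by omega)
    omega

theorem FF_ge (k : ℕ) (hk : 7 ≤ k) {c : ℕ} (hc : 1 ≤ c) : 2 * c + k ≤ FF k c + 1 := by
  have := FF_mono k hk le_rfl hc
  rw [FF_one] at this
  omega

/-- `II k m` is the number of `c ≥ 1` with `FF k c ≤ m`. -/
theorem FF_le_iff (k : ℕ) (hk : 7 ≤ k) {c m : ℕ} (hc : 1 ≤ c) : FF k c ≤ m ↔ c ≤ II k m := by
  set S := (Finset.range m).filter (fun c => 1 ≤ c ∧ FF k c ≤ m) with hS
  have hmem : ∀ i, i ∈ S ↔ 1 ≤ i ∧ FF k i ≤ m := by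
    intro i
    simp only [hS, Finset.mem_filter, Finset.mem_range]
    constructor
    · exact fun h => h.2
    · intro h
      have := FF_ge k hk h.1
      exact ⟨by omega, h⟩
  have hII : II k m = S.card := rfl
  constructor
  · intro h
    have hsub : Finset.Icc 1 c ⊆ S := by
      intro i hi
      rw [Finset.mem_Icc] at hi
      rw [hmem]
      have := FF_mono k hk hi.1 hi.2
      exact ⟨hi.1, by omega⟩
    have := Finset.card_le_card hsub
    rw [Nat.card_Icc] at this
    omega
  · intro h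
    by_contra hcon
    have hsub : S ⊆ Finset.Icc 1 (c - 1) := by
      intro i hi
      rw [hmem] at hi
      rw [Finset.mem_Icc]
      refine ⟨hi.1, ?_⟩
      by_contra h1
      have := FF_mono k hk hc (show c ≤ i by omega)
      omega
    have := Finset.card_le_card hsub
    rw [Nat.card_Icc] at this
    omega

theorem II_mono (k : ℕ) (hk : 7 ≤ k) {m n : ℕ} (h : m ≤ n) : II k m ≤ II k n := by
  rcases Nat.eq_zero_or_pos (II k m) with h0 | h0
  · omega
  · rw [← FF_le_iff k hk h0]
    have := (FF_le_iff k hk (m := m) h0).mpr le_rfl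
    omega

theorem II_succ_le (k : ℕ) (hk : 7 ≤ k) (m : ℕ) : II k (m + 1) ≤ II k m + 1 := by
  by_contra hcon
  push Not at hcon
  have h1 := (FF_le_iff k hk (m := m + 1) (c := II k m + 2) (by omega)).mpr hcon
  have h2 := FF_gap k hk (II k m + 1) (by omega)
  have h3 : ¬ FF k (II k m + 1) ≤ m := by
    rw [FF_le_iff k hk (by omega)]; omega
  have h4 : II k m + 1 + 1 = II k m + 2 := rfl
  rw [h4] at h2
  omega

theorem II_small (k : ℕ) (hk : 7 ≤ k) {m : ℕ} (hm : m ≤ k) : II k m = 0 := by
  by_contra h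
  have h1 := (FF_le_iff k hk (m := m) (c := 1) le_rfl).mpr (by omega)
  rw [FF_one] at h1
  omega

theorem II_bound (k : ℕ) (hk : 7 ≤ k) {m : ℕ} (hm : 3 ≤ m) : II k m + 3 ≤ m := by
  rcases Nat.eq_zero_or_pos (II k m) with h0 | h0
  · omega
  · have h1 := (FF_le_iff k hk (m := m) h0).mpr le_rfl
    have h2 := FF_ge k hk h0
    omega

theorem II_FF (k : ℕ) (hk : 7 ≤ k) {c : ℕ} (hc : 1 ≤ c) : II k (FF k c) = c := by
  apply le_antisymm
  · by_contra hcon
    push Not at hcon
    have h1 := (FF_le_iff k hk (m := FF k c) (c := c + 1) (by omega)).mpr hcon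
    have h2 := FF_gap k hk c hc
    omega
  · exact (FF_le_iff k hk hc).mp le_rfl

/-- number of triangles on the inner side at the `m`-th vertex. -/
noncomputable def aa (k m : ℕ) : ℕ := if m ≤ 2 then 1 else 2 + (II k m - II k (m - 1))

theorem aa_two (k : ℕ) : aa k 2 = 1 := by unfold aa; simp

theorem aa_of_eq (k : ℕ) {m : ℕ} (hm : 2 ≤ m) (h : II k (m + 1) = II k m) : aa k (m + 1) = 2 := by
  unfold aa
  rw [if_neg (by omega), Nat.add_sub_cancel, h]
  omega

theorem aa_of_succ (k : ℕ) {m : ℕ} (hm : 2 ≤ m) (h : II k (m + 1) = II k m + 1) :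
    aa k (m + 1) = 3 := by
  unfold aa
  rw [if_neg (by omega), Nat.add_sub_cancel, h]
  omega

theorem aa_cases (k : ℕ) (hk : 7 ≤ k) {m : ℕ} (hm : 3 ≤ m) :
    (aa k m = 2 ∧ II k m = II k (m - 1)) ∨ (aa k m = 3 ∧ II k m = II k (m - 1) + 1) := by
  obtain ⟨m, rfl⟩ : ∃ m', m = m' + 1 := ⟨m - 1, by omega⟩
  rw [Nat.add_sub_cancel]
  have h1 := II_mono k hk (Nat.le_succ m)
  have h2 := II_succ_le k hk m
  rcases Nat.eq_or_lt_of_le h1 with h3 | h3
  · left; exact ⟨aa_of_eq k (by omega) h3.symm, h3.symm⟩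
  · right
    have h4 : II k (m + 1) = II k m + 1 := le_antisymm h2 h3
    exact ⟨aa_of_succ k (by omega) h4, h4⟩

theorem FF_succ (k : ℕ) (hk : 7 ≤ k) {c : ℕ} (hc : 1 ≤ c) :
    FF k (c + 1) + aa k (c + 1) + 2 = FF k c + k := by
  rcases Nat.eq_or_lt_of_le hc with h1 | h1
  · subst h1
    rw [FF_one, FF_two k hk, aa_two]
    omega
  · rw [FF_eq k c h1, FF_eq k (c + 1) (by omega)]
    have h5 := II_le k c
    have h5' := II_le k (c + 1)
    have h6 : (k - 4) * (c + 1) = (k - 4) * c + (k - 4) := by ring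
    have h7 : 3 * c ≤ (k - 4) * c := Nat.mul_le_mul_right c (by omega)
    rcases aa_cases k hk (m := c + 1) (by omega) with ⟨h8, h9⟩ | ⟨h8, h9⟩
    · rw [Nat.add_sub_cancel] at h9
      omega
    · rw [Nat.add_sub_cancel] at h9
      omega

/-! ### the arithmetic inequality -/

theorem nt_core (k : ℕ) (hk : 7 ≤ k) : ∀ n : ℕ, 2 ≤ n → ∀ c : ℕ, 1 ≤ c →
    (0 : ℤ) ≤ (n : ℤ) ^ 2 - ((k : ℤ) - 4) * n * c + (c : ℤ) ^ 2 - 6 * (n + c) + k + 6 →
    2 * (c : ℤ) ≤ ((k : ℤ) - 4) * n + 6 → FF k c ≤ n := by
  intro n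
  induction n using Nat.strong_induction_on with
  | _ n ih =>
    intro hn c hc hQ hax
    have hkz : (7 : ℤ) ≤ k := by exact_mod_cast hk
    have hnz : (2 : ℤ) ≤ n := by exact_mod_cast hn
    rcases Nat.eq_or_lt_of_le hc with h1 | h1
    · subst h1
      rw [FF_one]
      by_contra hcon
      push Not at hcon
      have hcon' : (n : ℤ) < k + 1 := by exact_mod_cast hcon
      have : ((n : ℤ) - 1) * ((k : ℤ) + 1 - n) ≤ 0 := by
        push_cast at hQ
        nlinarith
      nlinarith
    · have hcz : (2 : ℤ) ≤ c := by exact_mod_cast h1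
      by_contra hcon
      push Not at hcon
      set K : ℤ := (k : ℤ) - 4 with hK
      have hK3 : 3 ≤ K := by omega
      have hkK : (k : ℤ) = K + 4 := by omega
      rw [hkK] at hQ
      -- `c < n`
      have hcn : c < n := by
        by_contra h2
        push Not at h2
        have h2' : (n : ℤ) ≤ c := by exact_mod_cast h2
        have e1 : (c : ℤ) * (c - K * n - 6) ≤ (c : ℤ) * (-(c : ℤ)) := by
          apply mul_le_mul_of_nonneg_left _ (by omega)
          linarith
        have e2 : 2 * ((c : ℤ) * (c - K * n - 6)) ≤ -(n * (K * n + 6)) := by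
          have e3 : 2 * ((c : ℤ) - K * n - 6) ≤ -(K * n + 6) := by linarith
          have e4 : (c : ℤ) * (2 * ((c : ℤ) - K * n - 6)) ≤ c * (-(K * n + 6)) :=
            mul_le_mul_of_nonneg_left e3 (by omega)
          have e5 : (n : ℤ) * (K * n + 6) ≤ c * (K * n + 6) :=
            mul_le_mul_of_nonneg_right h2' (by positivity)
          linarith
        nlinarith [mul_nonneg (show (0 : ℤ) ≤ K - 3 by omega) (show (0 : ℤ) ≤ n - 2 by omega),
          mul_nonneg (show (0 : ℤ) ≤ n - 2 by omega) (show (0 : ℤ) ≤ n - 2 by omega),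
          mul_nonneg (mul_nonneg (show (0 : ℤ) ≤ K - 3 by omega)
            (show (0 : ℤ) ≤ n - 2 by omega)) (show (0 : ℤ) ≤ n - 2 by omega)]
      have hcn' : (c : ℤ) < n := by exact_mod_cast hcn
      -- the reflected point
      have hFF := FF_eq k c h1
      have hII := II_le k c
      have hFFz : (FF k c : ℤ) = K * c + 6 - II k c := by
        rw [hFF]
        have h7 : 3 * c ≤ (k - 4) * c := Nat.mul_le_mul_right c (by omega)
        rw [Nat.cast_sub (by omega)]
        push_cast [Nat.cast_sub (show 4 ≤ k by omega)]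
        rw [hK]
      have hcon' : (n : ℤ) < K * c + 6 - II k c := by
        rw [← hFFz]; exact_mod_cast hcon
      obtain ⟨j, hj⟩ : ∃ j : ℕ, (j : ℤ) = K * c + 6 - n := by
        have : 0 ≤ K * c + 6 - (n : ℤ) := by
          have : (0 : ℤ) ≤ II k c := by positivity
          omega
        exact ⟨(K * c + 6 - (n : ℤ)).toNat, Int.toNat_of_nonneg this⟩
      have hjII : II k c < j := by
        have : (II k c : ℤ) < j := by rw [hj]; linarith
        exact_mod_cast this
      have hnj : (n : ℤ) = K * c + 6 - j := by linarith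
      by_cases h3 : 2 * (j : ℤ) ≤ K * c + 6
      · have hQ' : (0 : ℤ) ≤ (c : ℤ) ^ 2 - ((k : ℤ) - 4) * c * j + (j : ℤ) ^ 2 - 6 * (c + j) + k
            + 6 := by
          rw [← hK, hkK]
          rw [hnj] at hQ
          nlinarith
        have h4 := ih c hcn h1 j (by omega) hQ' h3
        rw [FF_le_iff k hk (by omega)] at h4
        omega
      · push Not at h3
        have h4 : 2 * (n : ℤ) < K * c + 6 := by linarith
        have h5 : ((n : ℤ) - c) * (n + c - K * c - 6) ≤ 0 := by
          apply mul_nonpos_of_nonneg_of_nonpos (by omega)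
          nlinarith
        nlinarith [mul_nonneg (show (0 : ℤ) ≤ K - 3 by omega) (show (0 : ℤ) ≤ c - 2 by omega),
          mul_nonneg (show (0 : ℤ) ≤ (c : ℤ) - 2 by omega) (show (0 : ℤ) ≤ (c : ℤ) - 2 by omega),
          mul_nonneg (mul_nonneg (show (0 : ℤ) ≤ K - 3 by omega)
            (show (0 : ℤ) ≤ (c : ℤ) - 2 by omega)) (show (0 : ℤ) ≤ (c : ℤ) - 2 by omega)]

end Pool.Agent.Helper28.HP
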