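import Pool.Agent.Helper28.HPPerm
import Pool.Agent.Helper28.HPSeq

set_option autoImplicit false

namespace Pool.Agent.Helper28.HP

open UpperHalfPlane

/-- The frames of the spiral. -/
noncomputable def gg (k : ℕ) (d : ℝ) : ℕ → Equiv.Perm ℍ
  | 0 => 1
  | 1 => 1
  | (m + 2) => gg k d (m + 1) * ss d * (rr k) ^ (-(aa k (m + 2) : ℤ))

theorem gg_one (k : ℕ) (d : ℝ) : gg k d 1 = 1 := rfl

theorem gg_succ (k : ℕ) (d : ℝ) {m : ℕ} (hm : 1 ≤ m) :
    gg k d (m + 1) = gg k d m * ss d * (rr k) ^ (-(aa k (m + 1) : ℤ)) := by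
  obtain ⟨m, rfl⟩ : ∃ m', m = m' + 1 := ⟨m - 1, by omega⟩
  rfl

theorem gg_two (k : ℕ) (d : ℝ) : gg k d 2 = ss d * (rr k)⁻¹ := by
  rw [gg_succ k d le_rfl, gg_one, aa_two, one_mul]
  congr 1

section rel
variable {k : ℕ} {d : ℝ}

theorem rel1 (h : Real.cos (al k) * (1 + Real.cosh d) = Real.cosh d) :
    ss d * (rr k)⁻¹ * ss d * (rr k)⁻¹ = rr k * ss d := by
  have h2 := rel2 k d h
  have hs := ss_mul_self d
  have hsi : (ss d)⁻¹ = ss d := inv_eq_of_mul_eq_one_left hs
  have h3 := congrArg (fun x => x⁻¹) h2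
  simp only [mul_inv_rev, inv_inv, hsi] at h3
  -- s * (r⁻¹ * s) = r * (s * r)
  have h4 : ss d * (rr k)⁻¹ * ss d = rr k * ss d * rr k := by
    rw [mul_assoc, mul_assoc]
    exact h3
  rw [h4]
  group

theorem shift_zpow (hk : k ≠ 0) (t u : ℤ) (h : (k : ℤ) ∣ t - u) : (rr k) ^ t = (rr k) ^ u := by
  obtain ⟨q, hq⟩ := h
  have : t = u + k * q := by linarith
  rw [this, zpow_add, zpow_mul, rr_pow_k k hk, one_zpow, mul_one]

end rel

/-- The adjacency relations of the spiral. -/
theorem adj_rel (k : ℕ) (hk : 7 ≤ k) (d : ℝ)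
    (h : Real.cos (al k) * (1 + Real.cosh d) = Real.cosh d) : ∀ m : ℕ, 2 ≤ m →
    (gg k d (II k m + 1) * (rr k) ^ ((m : ℤ) - 1 - FF k (II k m + 1)) * ss d =
      gg k d m * rr k) ∧
    (II k (m + 1) = II k m + 1 →
      gg k d (II k m + 1) * (rr k) ^ (-1 : ℤ) * ss d = gg k d (m + 1) * (rr k) ^ (2 : ℤ)) := by
  have hr1 := rel1 (k := k) h
  have hr2 := rel2 k d h
  intro m hm
  induction m, hm using Nat.le_induction with
  | base =>
    refine ⟨?_, ?_⟩
    · rw [II_small k hk (by omega), zero_add, gg_one, gg_two, FF_one]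
      rw [shift_zpow (k := k) (by omega) (((2 : ℕ) : ℤ) - 1 - ((k + 1 : ℕ) : ℤ)) 0
        ⟨-1, by push_cast; ring⟩]
      group
    · intro h3
      rw [II_small k hk (by omega), II_small k hk (by omega)] at h3
      omega
  | succ m hm ih =>
    obtain ⟨ihA, ihB⟩ := ih
    -- first part for m + 1
    have hfirst : gg k d (II k (m + 1) + 1) *
        (rr k) ^ (((m + 1 : ℕ) : ℤ) - 1 - FF k (II k (m + 1) + 1)) * ss d =
        gg k d (m + 1) * rr k := by
      have hcase : II k (m + 1) = II k m ∨ II k (m + 1) = II k m + 1 := by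
        have h1 := II_mono k hk (show m ≤ m + 1 by omega)
        have h2 := II_succ_le k hk m
        omega
      rcases hcase with hI | hI
      · rw [hI, gg_succ k d (show 1 ≤ m by omega), aa_of_eq k hm hI]
        set e : ℤ := (m : ℤ) - 1 - FF k (II k m + 1) with he
        have he' : (((m + 1 : ℕ) : ℤ) - 1 - FF k (II k m + 1)) = e + 1 := by
          rw [he]; push_cast; ring
        rw [he']
        calc gg k d (II k m + 1) * (rr k) ^ (e + 1) * ss d
            = gg k d (II k m + 1) * (rr k) ^ e * (rr k * ss d) := by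
              rw [zpow_add_one]; group
          _ = gg k d (II k m + 1) * (rr k) ^ e * (ss d * (rr k)⁻¹ * ss d * (rr k)⁻¹) := by
              rw [hr1]
          _ = (gg k d (II k m + 1) * (rr k) ^ e * ss d) * (rr k)⁻¹ * ss d * (rr k)⁻¹ := by group
          _ = (gg k d m * rr k) * (rr k)⁻¹ * ss d * (rr k)⁻¹ := by rw [ihA]
          _ = gg k d m * ss d * (rr k) ^ (-((2 : ℕ) : ℤ)) * rr k := by group
      · have hB := ihB hI
        rw [hI]
        have hgc := gg_succ k d (show 1 ≤ II k m + 1 by omega)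
        have hFs := FF_succ k hk (show 1 ≤ II k m + 1 by omega)
        have hFc : FF k (II k m + 1) = m + 1 := by
          have h1 := (FF_le_iff k hk (c := II k m + 1) (m := m + 1) (by omega)).mpr (by omega)
          have h2 : ¬ FF k (II k m + 1) ≤ m := by
            rw [FF_le_iff k hk (by omega)]; omega
          omega
        rw [hgc]
        set a' : ℕ := aa k (II k m + 1 + 1) with ha'
        rw [hFc] at hFs
        rw [shift_zpow (k := k) (by omega)
          (((m + 1 : ℕ) : ℤ) - 1 - FF k (II k m + 1 + 1)) ((a' : ℤ) + 1)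
          ⟨-1, by
            have : (FF k (II k m + 1 + 1) : ℤ) + a' + 2 = m + 1 + k := by exact_mod_cast hFs
            push_cast
            linarith⟩]
        have hgm : gg k d (m + 1) =
            gg k d (II k m + 1) * (rr k) ^ (-1 : ℤ) * ss d * (rr k) ^ (-2 : ℤ) := by
          rw [hB]; group
        rw [hgm]
        calc gg k d (II k m + 1) * ss d * (rr k) ^ (-(a' : ℤ)) * (rr k) ^ ((a' : ℤ) + 1) * ss d
            = gg k d (II k m + 1) * (ss d * rr k * ss d) := by group
          _ = gg k d (II k m + 1) * ((rr k)⁻¹ * ss d * (rr k)⁻¹) := by rw [hr2]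
          _ = _ := by group
    refine ⟨hfirst, ?_⟩
    intro hI
    have hFc : FF k (II k (m + 1) + 1) = m + 1 + 1 := by
      have h1 := (FF_le_iff k hk (c := II k (m + 1) + 1) (m := m + 1 + 1) (by omega)).mpr (by omega)
      have h2 : ¬ FF k (II k (m + 1) + 1) ≤ m + 1 := by
        rw [FF_le_iff k hk (by omega)]; omega
      omega
    rw [hFc] at hfirst
    have he : ((m + 1 : ℕ) : ℤ) - 1 - ((m + 1 + 1 : ℕ) : ℤ) = -2 := by push_cast; ring
    rw [he] at hfirst
    rw [gg_succ k d (show 1 ≤ m + 1 by omega), aa_of_succ k (by omega) hI]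
    calc gg k d (II k (m + 1) + 1) * (rr k) ^ (-1 : ℤ) * ss d
        = gg k d (II k (m + 1) + 1) * (rr k) ^ (-2 : ℤ) * (rr k * ss d) := by group
      _ = gg k d (II k (m + 1) + 1) * (rr k) ^ (-2 : ℤ) *
          (ss d * (rr k)⁻¹ * ss d * (rr k)⁻¹) := by rw [hr1]
      _ = (gg k d (II k (m + 1) + 1) * (rr k) ^ (-2 : ℤ) * ss d) * (rr k)⁻¹ * ss d *
          (rr k)⁻¹ := by group
      _ = (gg k d (m + 1) * rr k) * (rr k)⁻¹ * ss d * (rr k)⁻¹ := by rw [hfirst]
      _ = gg k d (m + 1) * ss d * (rr k) ^ (-((3 : ℕ) : ℤ)) * (rr k) ^ (2 : ℤ) := by group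

section
variable {k : ℕ} {d : ℝ}

theorem adjA (hk : 7 ≤ k) (h : Real.cos (al k) * (1 + Real.cosh d) = Real.cosh d) {m : ℕ}
    (hm : 2 ≤ m) {c : ℕ} (hc : II k m + 1 = c) :
    gg k d c * (rr k) ^ ((m : ℤ) - 1 - FF k c) * ss d = gg k d m * rr k := by
  subst hc
  exact (adj_rel k hk d h m hm).1

theorem adjB (hk : 7 ≤ k) (h : Real.cos (al k) * (1 + Real.cosh d) = Real.cosh d) {c : ℕ}
    (hc : 1 ≤ c) :
    gg k d c * (rr k) ^ (-1 : ℤ) * ss d = gg k d (FF k c) * (rr k) ^ (2 : ℤ) := by
  have hF := FF_ge k hk hc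
  obtain ⟨m, hm⟩ : ∃ m, FF k c = m + 1 := ⟨FF k c - 1, by omega⟩
  have hI1 : II k (m + 1) = c := by rw [← hm]; exact II_FF k hk hc
  have hI2 : II k m = c - 1 := by
    have h1 := II_succ_le k hk m
    have h2 : ¬ c ≤ II k m := by
      rw [← FF_le_iff k hk hc]; omega
    omega
  have := (adj_rel k hk d h m (by omega)).2 (by omega)
  rw [hI2, Nat.sub_add_cancel hc] at this
  rw [hm]
  exact this

theorem not_dvd_small (_hk : 7 ≤ k) {t : ℤ} (h1 : 0 < t) (h2 : t < k) : ¬ (k : ℤ) ∣ t := by
  intro h
  have := Int.le_of_dvd h1 h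
  omega

/-- Every dart is matched. -/
theorem total (hk : 7 ≤ k) (h : Real.cos (al k) * (1 + Real.cosh d) = Real.cosh d) {m : ℕ}
    (hm : 1 ≤ m) (t : ℤ) : ∃ m' : ℕ, 1 ≤ m' ∧ ∃ t' : ℤ,
      gg k d m * (rr k) ^ t * ss d = gg k d m' * (rr k) ^ t' ∧ ((k : ℤ) ∣ t' → m = m' + 1) := by
  have hs := ss_mul_self d
  -- reduce the exponent
  obtain ⟨t0, ht0, ht⟩ : ∃ t0 : ℕ, t0 < k ∧ (rr k) ^ t = (rr k) ^ (t0 : ℤ) := by
    refine ⟨(t % k).toNat, ?_, ?_⟩
    · have h1 := Int.emod_lt_of_pos t (show (0 : ℤ) < k by omega)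
      have h2 := Int.emod_nonneg t (show (k : ℤ) ≠ 0 by omega)
      omega
    · have h2 := Int.emod_nonneg t (show (k : ℤ) ≠ 0 by omega)
      refine shift_zpow (by omega) _ _ ?_
      rw [Int.toNat_of_nonneg h2]
      exact Int.dvd_self_sub_emod
  rw [ht]
  clear ht t
  rcases Nat.eq_zero_or_pos t0 with h0 | hpos
  · -- towards the next vertex
    subst h0
    have hg := gg_succ k d hm
    refine ⟨m + 1, by omega, (aa k (m + 1) : ℤ), ?_, ?_⟩
    · rw [hg]; group
    · intro hdvd
      exfalso
      have : 1 ≤ aa k (m + 1) ∧ aa k (m + 1) ≤ 3 := by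
        rcases Nat.lt_or_ge (m + 1) 3 with h3 | h3
        · unfold aa; rw [if_pos (by omega)]; omega
        · rcases aa_cases k hk h3 with h4 | h4 <;> omega
      exact not_dvd_small hk (by omega) (by omega) hdvd
  rcases Nat.eq_or_lt_of_le hm with hm1 | hm1
  · -- the centre
    subst hm1
    rcases Nat.lt_or_ge t0 (k - 1) with h1 | h1
    · refine ⟨2 + t0, by omega, 1, ?_, fun hd => absurd hd (not_dvd_small hk (by omega) (by omega))⟩
      have := adjA hk h (m := 2 + t0) (by omega) (c := 1) (by rw [II_small k hk (by omega)])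
      rw [zpow_one, ← this, FF_one]
      congr 2
      refine shift_zpow (by omega) _ _ ⟨1, ?_⟩
      push_cast
      ring
    · refine ⟨FF k 1, by rw [FF_one]; omega, 2, ?_,
        fun hd => absurd hd (not_dvd_small hk (by omega) (by omega))⟩
      rw [← adjB hk h le_rfl]
      congr 2
      refine shift_zpow (by omega) _ _ ⟨1, ?_⟩
      omega
  · have hm2 : 2 ≤ m := hm1
    have hsp : gg k d (m - 1) * ss d = gg k d m * (rr k) ^ (aa k m : ℤ) := by
      have := gg_succ k d (show 1 ≤ m - 1 by omega)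
      rw [Nat.sub_add_cancel hm] at this
      rw [this]; group
    have haa : 1 ≤ aa k m ∧ aa k m ≤ 3 := by
      rcases Nat.lt_or_ge m 3 with h3 | h3
      · unfold aa; rw [if_pos (by omega)]; omega
      · rcases aa_cases k hk h3 with h4 | h4 <;> omega
    rcases Nat.lt_trichotomy t0 (aa k m) with h1 | h1 | h1
    · have hm3 : 3 ≤ m := by
        by_contra hcon
        have : m = 2 := by omega
        subst this
        rw [aa_two] at h1
        omega
      rcases Nat.eq_or_lt_of_le (show 1 ≤ t0 from hpos) with h2 | h2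
      · -- towards the centre
        subst h2
        have hA := adjA hk h hm2 (c := II k m + 1) rfl
        refine ⟨II k m + 1, by omega, (m : ℤ) - 1 - FF k (II k m + 1), ?_, ?_⟩
        · rw [Nat.cast_one, zpow_one, ← hA, mul_assoc, hs, mul_one]
        · intro hd
          exfalso
          have hd' : (k : ℤ) ∣ 1 + FF k (II k m + 1) - m := by
            have := (dvd_neg (a := (k : ℤ))).mpr hd
            have e : -((m : ℤ) - 1 - FF k (II k m + 1)) = 1 + FF k (II k m + 1) - m := by ring
            rwa [e] at this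
          have hgt : m < FF k (II k m + 1) := by
            have : ¬ FF k (II k m + 1) ≤ m := by rw [FF_le_iff k hk (by omega)]; omega
            omega
          have hlt : FF k (II k m + 1) < m + k - 1 := by
            rcases Nat.eq_zero_or_pos (II k m) with h3 | h3
            · rw [h3, zero_add, FF_one]; omega
            · have h4 := FF_succ k hk h3
              have h5 := (FF_le_iff k hk (m := m) h3).mpr le_rfl
              have h6 : 1 ≤ aa k (II k m + 1) := by
                rcases Nat.lt_or_ge (II k m + 1) 3 with h7 | h7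
                · unfold aa; rw [if_pos (by omega)]
                · rcases aa_cases k hk h7 with h8 | h8 <;> omega
              omega
          exact not_dvd_small hk (by omega) (by omega) hd'
      · -- the second centre
        rcases aa_cases k hk hm3 with h3 | h3
        · omega
        have ht2 : t0 = 2 := by omega
        subst ht2
        have hFm : FF k (II k m) = m := by
          have h4 := (FF_le_iff k hk (m := m) (c := II k m) (by omega)).mpr le_rfl
          have h5 : ¬ FF k (II k m) ≤ m - 1 := by rw [FF_le_iff k hk (by omega)]; omega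
          omega
        have hB := adjB hk h (c := II k m) (by omega)
        rw [hFm] at hB
        refine ⟨II k m, by omega, -1, ?_, ?_⟩
        · have : gg k d m * (rr k) ^ ((2 : ℕ) : ℤ) = gg k d m * (rr k) ^ (2 : ℤ) := rfl
          rw [this, ← hB, mul_assoc, hs, mul_one]
        · intro hd
          exact absurd ((dvd_neg (a := (k : ℤ))).mpr hd)
            (not_dvd_small hk (by norm_num) (by omega))
    · -- towards the previous vertex
      refine ⟨m - 1, by omega, 0, ?_, fun _ => by omega⟩
      rw [h1, ← hsp, mul_assoc, hs]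
      group
    · -- outer neighbours
      have hFs := FF_succ k hk (c := m - 1) (by omega)
      rw [Nat.sub_add_cancel hm] at hFs
      rcases Nat.lt_or_ge t0 (k - 1) with h2 | h2
      · -- index m' = FF m + 1 - (k - t0)
        have hFge := FF_ge k hk hm
        have hFge' := FF_ge k hk (c := m - 1) (by omega)
        obtain ⟨m', hm'⟩ : ∃ m', m' + (k - t0) = FF k m + 1 :=
          ⟨FF k m + 1 - (k - t0), by omega⟩
        have hI : II k m' + 1 = m := by
          have h3 : ¬ m ≤ II k m' := by
            rw [← FF_le_iff k hk hm]; omega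
          have h4 : m - 1 ≤ II k m' := by
            rw [← FF_le_iff k hk (by omega)]; omega
          omega
        refine ⟨m', by omega, 1, ?_, fun hd => absurd hd (not_dvd_small hk (by omega) (by omega))⟩
        rw [zpow_one, ← adjA hk h (m := m') (by omega) hI]
        congr 2
        refine shift_zpow (by omega) _ _ ⟨1, ?_⟩
        omega
      · refine ⟨FF k m, by have := FF_ge k hk hm; omega, 2, ?_,
          fun hd => absurd hd (not_dvd_small hk (by omega) (by omega))⟩
        rw [← adjB hk h hm]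
        congr 2
        refine shift_zpow (by omega) _ _ ⟨1, ?_⟩
        omega

end

end Pool.Agent.Helper28.HP
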