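import Mathlib

set_option autoImplicit false

namespace Pool.Agent.Helper28.HP

open UpperHalfPlane Matrix

/-- Hyperboloid coordinates of a point of the upper half-plane (centred at `I`). -/
noncomputable def X0 (z : ℍ) : ℝ := (z.re ^ 2 + z.im ^ 2 + 1) / (2 * z.im)
noncomputable def X1 (z : ℍ) : ℝ := (z.re ^ 2 + z.im ^ 2 - 1) / (2 * z.im)
noncomputable def X2 (z : ℍ) : ℝ := -z.re / z.im

theorem X_quad (z : ℍ) : X0 z ^ 2 - X1 z ^ 2 - X2 z ^ 2 = 1 := by
  have h := z.im_pos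
  unfold X0 X1 X2
  field_simp
  ring

theorem X0_pos (z : ℍ) : 0 < X0 z := by
  have h := z.im_pos
  unfold X0
  positivity

theorem X_ext {z w : ℍ} (h0 : X0 z = X0 w) (h1 : X1 z = X1 w) (h2 : X2 z = X2 w) : z = w := by
  have hz := z.im_pos
  have hw := w.im_pos
  have e1 : X0 z - X1 z = 1 / z.im := by unfold X0 X1; field_simp; ring
  have e2 : X0 w - X1 w = 1 / w.im := by unfold X0 X1; field_simp; ring
  have him : z.im = w.im := by
    have : 1 / z.im = 1 / w.im := by rw [← e1, ← e2, h0, h1]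
    field_simp at this
    linarith
  have hre : z.re = w.re := by
    unfold X2 at h2
    rw [him] at h2
    have h3 := hw.ne'
    field_simp at h2
    linarith
  exact UpperHalfPlane.ext_re_im hre him

theorem cosh_dist_X (z w : ℍ) :
    Real.cosh (dist z w) = X0 z * X0 w - X1 z * X1 w - X2 z * X2 w := by
  have hz := z.im_pos
  have hw := w.im_pos
  rw [cosh_dist']
  unfold X0 X1 X2
  field_simp
  ring

theorem X0_I : X0 I = 1 := by unfold X0; simp
theorem X1_I : X1 I = 0 := by unfold X1; simp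
theorem X2_I : X2 I = 0 := by unfold X2; simp

theorem cosh_dist_I (z : ℍ) : Real.cosh (dist I z) = X0 z := by
  rw [cosh_dist_X, X0_I, X1_I, X2_I]; ring

theorem smul_re_im (g : Matrix.SpecialLinearGroup (Fin 2) ℝ) (z : ℍ) :
    (g • z).re = ((g 0 0 * z.re + g 0 1) * (g 1 0 * z.re + g 1 1) + g 0 0 * g 1 0 * z.im ^ 2) /
      ((g 1 0 * z.re + g 1 1) ^ 2 + (g 1 0 * z.im) ^ 2) ∧
    (g • z).im = z.im / ((g 1 0 * z.re + g 1 1) ^ 2 + (g 1 0 * z.im) ^ 2) := by
  have h := coe_specialLinearGroup_apply g z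
  have hdet : g 0 0 * g 1 1 - g 0 1 * g 1 0 = 1 := by
    have := g.det_coe
    rwa [Matrix.det_fin_two] at this
  have hre : (g • z).re = ((g • z : ℍ) : ℂ).re := rfl
  have him : (g • z).im = ((g • z : ℍ) : ℂ).im := rfl
  constructor
  · rw [hre, h, Complex.div_re]
    simp [Complex.normSq_apply]
    field_simp
  · rw [him, h, Complex.div_im]
    simp [Complex.normSq_apply]
    rw [← sub_div]
    congr 1
    · linear_combination (z.im) * hdet
    · ring

theorem X_smul (g : Matrix.SpecialLinearGroup (Fin 2) ℝ) (z : ℍ) :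
    X0 (g • z) + X1 (g • z) = (g 0 0) ^ 2 * (X0 z + X1 z) - 2 * g 0 0 * g 0 1 * X2 z +
      (g 0 1) ^ 2 * (X0 z - X1 z) ∧
    X0 (g • z) - X1 (g • z) = (g 1 0) ^ 2 * (X0 z + X1 z) - 2 * g 1 0 * g 1 1 * X2 z +
      (g 1 1) ^ 2 * (X0 z - X1 z) ∧
    X2 (g • z) = -(g 0 0 * g 1 0 * (X0 z + X1 z)) + (g 0 0 * g 1 1 + g 0 1 * g 1 0) * X2 z -
      g 0 1 * g 1 1 * (X0 z - X1 z) := by
  obtain ⟨hre, him⟩ := smul_re_im g z
  have hdet : g 0 0 * g 1 1 - g 0 1 * g 1 0 = 1 := by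
    have := g.det_coe
    rwa [Matrix.det_fin_two] at this
  have hz := z.im_pos
  have hgz := (g • z).im_pos
  set D := (g 1 0 * z.re + g 1 1) ^ 2 + (g 1 0 * z.im) ^ 2 with hD
  have hDpos : 0 < D := by
    rw [him] at hgz
    by_contra hcon
    push Not at hcon
    have := div_nonpos_of_nonneg_of_nonpos hz.le hcon
    linarith
  have hz' := hz.ne'
  have hD' := hDpos.ne'
  refine ⟨?_, ?_, ?_⟩
  · have h1 : X0 (g • z) + X1 (g • z) = ((g • z).re ^ 2 + (g • z).im ^ 2) / (g • z).im := by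
      unfold X0 X1; field_simp; ring
    rw [h1, hre, him]
    have key : ((g 0 0 * z.re + g 0 1) * (g 1 0 * z.re + g 1 1) + g 0 0 * g 1 0 * z.im ^ 2) ^ 2 +
        z.im ^ 2 = ((g 0 0 * z.re + g 0 1) ^ 2 + (g 0 0 * z.im) ^ 2) * D := by
      rw [hD]
      linear_combination (-(z.im ^ 2) * (g 0 0 * g 1 1 - g 0 1 * g 1 0 + 1)) * hdet
    have h2 : (((g 0 0 * z.re + g 0 1) * (g 1 0 * z.re + g 1 1) + g 0 0 * g 1 0 * z.im ^ 2) / D) ^ 2
        + (z.im / D) ^ 2 = ((g 0 0 * z.re + g 0 1) ^ 2 + (g 0 0 * z.im) ^ 2) / D := by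
      field_simp
      linear_combination key
    rw [h2]
    unfold X0 X1 X2
    field_simp
    ring
  · have h1 : X0 (g • z) - X1 (g • z) = 1 / (g • z).im := by
      unfold X0 X1; field_simp; ring
    rw [h1, him, hD]
    unfold X0 X1 X2
    field_simp
    ring
  · have h1 : X2 (g • z) = -(g • z).re / (g • z).im := rfl
    rw [h1, hre, him]
    unfold X0 X1 X2
    field_simp
    ring

/-- Rotation by the angle `2 * φ` about `I`. -/
noncomputable def Rot (φ : ℝ) : Matrix.SpecialLinearGroup (Fin 2) ℝ :=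
  ⟨!![Real.cos φ, Real.sin φ; -Real.sin φ, Real.cos φ], by
    rw [Matrix.det_fin_two_of]
    nlinarith [Real.cos_sq_add_sin_sq φ]⟩

theorem X_Rot (φ : ℝ) (z : ℍ) :
    X0 (Rot φ • z) = X0 z ∧
    X1 (Rot φ • z) = Real.cos (2 * φ) * X1 z - Real.sin (2 * φ) * X2 z ∧
    X2 (Rot φ • z) = Real.sin (2 * φ) * X1 z + Real.cos (2 * φ) * X2 z := by
  obtain ⟨h1, h2, h3⟩ := X_smul (Rot φ) z
  have e00 : (Rot φ) 0 0 = Real.cos φ := rfl
  have e01 : (Rot φ) 0 1 = Real.sin φ := rfl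
  have e10 : (Rot φ) 1 0 = -Real.sin φ := rfl
  have e11 : (Rot φ) 1 1 = Real.cos φ := rfl
  rw [e00, e01] at h1
  rw [e10, e11] at h2
  rw [e00, e01, e10, e11] at h3
  have hc : Real.cos (2 * φ) = Real.cos φ ^ 2 - Real.sin φ ^ 2 := by
    rw [Real.cos_two_mul, Real.sin_sq]; ring
  have hs : Real.sin (2 * φ) = 2 * Real.sin φ * Real.cos φ := Real.sin_two_mul φ
  have hcs := Real.cos_sq_add_sin_sq φ
  refine ⟨?_, ?_, ?_⟩
  · have : 2 * X0 (Rot φ • z) = 2 * X0 z := by
      linear_combination h1 + h2 + 2 * X0 z * hcs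
    linarith
  · rw [hc, hs]
    have : 2 * X1 (Rot φ • z) = 2 * ((Real.cos φ ^ 2 - Real.sin φ ^ 2) * X1 z -
        2 * Real.sin φ * Real.cos φ * X2 z) := by
      linear_combination h1 - h2
    linarith
  · rw [hc, hs, h3]
    ring

/-- Half turn exchanging `I` and `e^d I`. -/
noncomputable def Half (d : ℝ) : Matrix.SpecialLinearGroup (Fin 2) ℝ :=
  ⟨!![0, -Real.exp (d / 2); Real.exp (-(d / 2)), 0], by
    rw [Matrix.det_fin_two_of]
    have : Real.exp (d / 2) * Real.exp (-(d / 2)) = 1 := by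
      rw [← Real.exp_add]; simp
    linarith⟩

theorem X_Half (d : ℝ) (z : ℍ) :
    X0 (Half d • z) = Real.cosh d * X0 z - Real.sinh d * X1 z ∧
    X1 (Half d • z) = Real.sinh d * X0 z - Real.cosh d * X1 z ∧
    X2 (Half d • z) = -X2 z := by
  obtain ⟨h1, h2, h3⟩ := X_smul (Half d) z
  have e00 : (Half d) 0 0 = 0 := rfl
  have e01 : (Half d) 0 1 = -Real.exp (d / 2) := rfl
  have e10 : (Half d) 1 0 = Real.exp (-(d / 2)) := rfl
  have e11 : (Half d) 1 1 = 0 := rfl
  rw [e00, e01] at h1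
  rw [e10, e11] at h2
  rw [e00, e01, e10, e11] at h3
  have hE : Real.exp (d / 2) ^ 2 = Real.exp d := by
    rw [← Real.exp_nat_mul]; congr 1; push_cast; ring
  have hE' : Real.exp (-(d / 2)) ^ 2 = Real.exp (-d) := by
    rw [← Real.exp_nat_mul]; congr 1; push_cast; ring
  have hm : Real.exp (d / 2) * Real.exp (-(d / 2)) = 1 := by
    rw [← Real.exp_add]; simp
  have hc : Real.cosh d = (Real.exp d + Real.exp (-d)) / 2 := Real.cosh_eq d
  have hs : Real.sinh d = (Real.exp d - Real.exp (-d)) / 2 := Real.sinh_eq d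
  refine ⟨?_, ?_, ?_⟩
  · rw [hc, hs]
    have : 2 * X0 (Half d • z) = Real.exp d * (X0 z - X1 z) + Real.exp (-d) * (X0 z + X1 z) := by
      linear_combination h1 + h2 + (X0 z - X1 z) * hE + (X0 z + X1 z) * hE'
    linarith
  · rw [hc, hs]
    have : 2 * X1 (Half d • z) = Real.exp d * (X0 z - X1 z) - Real.exp (-d) * (X0 z + X1 z) := by
      linear_combination h1 - h2 + (X0 z - X1 z) * hE - (X0 z + X1 z) * hE'
    linarith
  · rw [h3]
    linear_combination (-X2 z) * hm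

end Pool.Agent.Helper28.HP
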