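import Pool.Agent.Helper28.HPFrame

set_option autoImplicit false

namespace Pool.Agent.Helper28.HP

open UpperHalfPlane

/-- Position of the base point seen from a frame. -/
noncomputable def Y0 (γ : Equiv.Perm ℍ) : ℝ := X0 (γ⁻¹ I)
noncomputable def Y1 (γ : Equiv.Perm ℍ) : ℝ := X1 (γ⁻¹ I)
noncomputable def Y2 (γ : Equiv.Perm ℍ) : ℝ := X2 (γ⁻¹ I)

theorem Y_quad (γ : Equiv.Perm ℍ) : Y0 γ ^ 2 - Y1 γ ^ 2 - Y2 γ ^ 2 = 1 := X_quad _

theorem Y_one : Y0 1 = 1 ∧ Y1 1 = 0 ∧ Y2 1 = 0 := by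
  unfold Y0 Y1 Y2
  rw [inv_one]
  exact ⟨X0_I, X1_I, X2_I⟩

theorem Y_mul_r (k : ℕ) (γ : Equiv.Perm ℍ) (t : ℤ) :
    Y0 (γ * (rr k) ^ t) = Y0 γ ∧
    Y1 (γ * (rr k) ^ t) = Real.cos (t * al k) * Y1 γ + Real.sin (t * al k) * Y2 γ ∧
    Y2 (γ * (rr k) ^ t) = -Real.sin (t * al k) * Y1 γ + Real.cos (t * al k) * Y2 γ := by
  have e : (γ * (rr k) ^ t)⁻¹ I = ((rr k) ^ (-t)) (γ⁻¹ I) := by
    rw [mul_inv_rev, ← zpow_neg]; rfl
  obtain ⟨h0, h1, h2⟩ := X_rr_zpow k (-t) (γ⁻¹ I)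
  have e2 : (((-t : ℤ)) : ℝ) * al k = -(t * al k) := by push_cast; ring
  rw [e2, Real.cos_neg, Real.sin_neg] at h1 h2
  unfold Y0 Y1 Y2
  rw [e, h0, h1, h2]
  exact ⟨rfl, by ring, by ring⟩

theorem Y_mul_s (d : ℝ) (γ : Equiv.Perm ℍ) :
    Y0 (γ * ss d) = Real.cosh d * Y0 γ - Real.sinh d * Y1 γ ∧
    Y1 (γ * ss d) = Real.sinh d * Y0 γ - Real.cosh d * Y1 γ ∧
    Y2 (γ * ss d) = -Y2 γ := by
  have hs : (ss d)⁻¹ = ss d := inv_eq_of_mul_eq_one_left (ss_mul_self d)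
  have e : (γ * ss d)⁻¹ I = ss d (γ⁻¹ I) := by
    rw [mul_inv_rev, hs]; rfl
  unfold Y0 Y1 Y2
  rw [e]
  exact X_ss d _

/-! ### facts on the angle -/

theorem al_pos {k : ℕ} (hk : 7 ≤ k) : 0 < al k := by
  have : (0 : ℝ) < k := by exact_mod_cast (by omega : 0 < k)
  unfold al
  have := Real.pi_pos
  positivity

theorem k_al {k : ℕ} (hk : 7 ≤ k) : (k : ℝ) * al k = 2 * Real.pi := by
  have : (k : ℝ) ≠ 0 := by exact_mod_cast (by omega : k ≠ 0)
  unfold al
  field_simp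

theorem al_le {k : ℕ} (hk : 7 ≤ k) : 7 * al k ≤ 2 * Real.pi := by
  rw [← k_al hk]
  have : (7 : ℝ) ≤ k := by exact_mod_cast hk
  exact mul_le_mul_of_nonneg_right this (al_pos hk).le

/-- `cos` decreases away from `0` on the circle. -/
theorem cos_le_of_mem {x y : ℝ} (hx0 : 0 ≤ x) (hxy : x ≤ y) (hy : y ≤ 2 * Real.pi - x) :
    Real.cos y ≤ Real.cos x := by
  rcases le_total y Real.pi with h | h
  · exact Real.cos_le_cos_of_nonneg_of_le_pi hx0 h hxy
  · have : Real.cos y = Real.cos (2 * Real.pi - y) := by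
      rw [Real.cos_two_pi_sub]
    rw [this]
    exact Real.cos_le_cos_of_nonneg_of_le_pi hx0 (by linarith) (by linarith)

/-- The basic trigonometric inequality. -/
theorem trig_ineq {k : ℕ} (hk : 7 ≤ k) {d : ℝ} (hd : 0 < d)
    (h : Real.cos (al k) * (1 + Real.cosh d) = Real.cosh d) :
    Real.cos (al k) * Real.cos (3 * (al k / 2)) ≤
      Real.sin (al k) * Real.sinh d * Real.sin (al k / 2) := by
  have ha := al_pos hk
  have hle := al_le hk
  have hpi := Real.pi_pos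
  set b := al k / 2 with hb
  have hab : al k = 2 * b := by rw [hb]; ring
  rw [hab] at h ⊢
  have hb0 : 0 < b := by rw [hb]; linarith
  have hb6 : b < Real.pi / 6 := by rw [hb]; linarith
  have hsb : 0 < Real.sin b := Real.sin_pos_of_pos_of_lt_pi hb0 (by linarith)
  have hcb : 0 < Real.cos b := Real.cos_pos_of_mem_Ioo ⟨by linarith, by linarith⟩
  have hsb2 : Real.sin b < 1 / 2 := by
    rw [← Real.sin_pi_div_six]
    exact Real.sin_lt_sin_of_lt_of_le_pi_div_two (by linarith) (by linarith) hb6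
  have hs2 : Real.sin (2 * b) = 2 * Real.sin b * Real.cos b := Real.sin_two_mul b
  have hc2 : Real.cos (2 * b) = 1 - 2 * Real.sin b ^ 2 := by
    rw [Real.cos_two_mul, Real.cos_sq']; ring
  have hc3 : Real.cos (3 * b) = Real.cos b * (1 - 4 * Real.sin b ^ 2) := by
    rw [Real.cos_three_mul]
    have := Real.cos_sq' b
    have e : Real.cos b ^ 3 = Real.cos b * Real.cos b ^ 2 := by ring
    rw [e, this]; ring
  have hH := Real.sinh_pos_iff.mpr hd
  have hHC := Real.cosh_sq d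
  set S := Real.sin b with hS
  set T := Real.cos b with hT
  set C := Real.cosh d with hC
  set H := Real.sinh d with hHdef
  rw [hc2] at h
  rw [hs2, hc2, hc3]
  have hSq : S ^ 2 < 1 / 4 := by nlinarith
  have hS2 : 0 < S ^ 2 := by positivity
  -- 2 S² C = 1 - 2 S²
  have hCS : 2 * S ^ 2 * C = 1 - 2 * S ^ 2 := by linarith
  have hL : 0 ≤ 2 * S * T * H * S := by positivity
  have hR : 0 ≤ (1 - 2 * S ^ 2) * (T * (1 - 4 * S ^ 2)) := by
    have : 0 < 1 - 2 * S ^ 2 := by linarith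
    have : 0 < 1 - 4 * S ^ 2 := by linarith
    positivity
  rw [← abs_of_nonneg hL, ← abs_of_nonneg hR, ← sq_le_sq]
  have hH2 : H ^ 2 = C ^ 2 - 1 := by linarith
  have e1 : (2 * S * T * H * S) ^ 2 = T ^ 2 * ((2 * S ^ 2 * C) ^ 2 - (2 * S ^ 2) ^ 2) := by
    have : (2 * S * T * H * S) ^ 2 = 4 * S ^ 4 * T ^ 2 * H ^ 2 := by ring
    rw [this, hH2]; ring
  rw [e1, hCS]
  set q := S ^ 2 with hq
  have e2 : T ^ 2 * ((1 - 2 * q) ^ 2 - (2 * q) ^ 2) - ((1 - 2 * q) * (T * (1 - 4 * q))) ^ 2 =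
      4 * q * T ^ 2 * (2 * (1 - 2 * q) ^ 3 - q) := by ring
  have hpoly : 0 ≤ 2 * (1 - 2 * q) ^ 3 - q := by
    have h1 : 1 / 2 < 1 - 2 * q := by linarith
    have h2 : (1 / 2 : ℝ) ^ 3 ≤ (1 - 2 * q) ^ 3 := by
      apply pow_le_pow_left₀ (by norm_num) h1.le
    linarith
  have : 0 ≤ 4 * q * T ^ 2 * (2 * (1 - 2 * q) ^ 3 - q) := by positivity
  linarith

/-- Polar coordinates of a point of the open upper half-plane. -/
theorem polar {x y : ℝ} (hy : 0 < y) : ∃ ρ θ : ℝ, 0 < ρ ∧ 0 < θ ∧ θ < Real.pi ∧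
    x = ρ * Real.cos θ ∧ y = ρ * Real.sin θ := by
  set z : ℂ := ⟨x, y⟩ with hz
  have hz0 : z ≠ 0 := by
    intro h
    have : z.im = 0 := by rw [h]; rfl
    exact hy.ne' this
  have h1 := Complex.norm_mul_cos_arg z
  have h2 := Complex.norm_mul_sin_arg z
  have hρ : 0 < ‖z‖ := norm_pos_iff.mpr hz0
  have h3 : 0 ≤ z.arg := Complex.arg_nonneg_iff.mpr hy.le
  have h4 : z.arg < Real.pi := Complex.arg_lt_pi_iff.mpr (Or.inr hy.ne')
  have h5 : z.arg ≠ 0 := by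
    intro h
    rw [h, Real.sin_zero, mul_zero] at h2
    exact hy.ne h2
  exact ⟨‖z‖, z.arg, hρ, lt_of_le_of_ne h3 (Ne.symm h5), h4, h1.symm, h2.symm⟩

theorem real_step0 {C H y ρ c x : ℝ} (hC1 : 1 < C) (hH : 0 < H) (hHC : C ^ 2 = H ^ 2 + 1)
    (hy : C ≤ y) (hρ : 0 < ρ) (hρy : ρ ^ 2 = y ^ 2 - 1) (hc : c * (1 + C) = C) (hx : x ≤ c) :
    C ≤ C * y - H * (ρ * x) := by
  have hC0 : 0 < 1 + C := by linarith
  have hc0 : 0 < c := by
    by_contra hcon
    push Not at hcon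
    have := mul_nonpos_of_nonpos_of_nonneg hcon hC0.le
    linarith
  have h1 : H * (ρ * x) ≤ H * (ρ * c) :=
    mul_le_mul_of_nonneg_left (mul_le_mul_of_nonneg_left hx hρ.le) hH.le
  have h2 : H * (ρ * c) ≤ C * (y - 1) := by
    have hL : 0 ≤ H * (ρ * c) := by positivity
    have hR : 0 ≤ C * (y - 1) := mul_nonneg (by linarith) (by linarith)
    rw [← abs_of_nonneg hL, ← abs_of_nonneg hR, ← sq_le_sq]
    have e3 : (H * (ρ * c)) ^ 2 = (C ^ 2 - 1) * (y ^ 2 - 1) * c ^ 2 := by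
      rw [← hρy, show C ^ 2 - 1 = H ^ 2 by linarith]; ring
    rw [e3]
    have e4 : c = C / (1 + C) := by
      rw [eq_div_iff hC0.ne']; exact hc
    have e5 : (C ^ 2 - 1) * (y ^ 2 - 1) * c ^ 2 =
        (C ^ 2 * (y - 1)) * ((C - 1) * (y + 1) / (1 + C)) := by
      rw [e4]
      field_simp
      ring
    rw [e5]
    have e6 : (C - 1) * (y + 1) / (1 + C) ≤ y - 1 := by
      rw [div_le_iff₀ hC0]
      have : (y - 1) * (1 + C) - (C - 1) * (y + 1) = 2 * (y - C) := by ring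
      linarith
    have e7 : 0 ≤ C ^ 2 * (y - 1) := mul_nonneg (by positivity) (by linarith)
    calc C ^ 2 * (y - 1) * ((C - 1) * (y + 1) / (1 + C)) ≤ C ^ 2 * (y - 1) * (y - 1) :=
          mul_le_mul_of_nonneg_left e6 e7
      _ = (C * (y - 1)) ^ 2 := by ring
  have e8 : C * (y - 1) = C * y - C := by ring
  linarith

theorem real_step2 {k : ℕ} (hk : 7 ≤ k) {d : ℝ} (hd : 0 < d)
    (h : Real.cos (al k) * (1 + Real.cosh d) = Real.cosh d) {y ρ φ : ℝ} (hρ : 0 < ρ)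
    (hρy : ρ < y) (hφlow : 2 * al k ≤ φ) (hφup : φ ≤ 2 * Real.pi - al k) :
    0 < Real.sin (al k) * (Real.sinh d * y) -
      ρ * (Real.cosh d * Real.sin (al k) * Real.cos φ + Real.cos (al k) * Real.sin φ) := by
  have hα := al_pos hk
  have hle := al_le hk
  have hpi := Real.pi_pos
  have hcosα_pos : 0 < Real.cos (al k) := Real.cos_pos_of_mem_Ioo ⟨by linarith, by linarith⟩
  have hsinα_pos : 0 < Real.sin (al k) := Real.sin_pos_of_pos_of_lt_pi hα (by linarith)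
  have hH := Real.sinh_pos_iff.mpr hd
  have htrig := trig_ineq hk hd h
  obtain ⟨b, hb⟩ : ∃ b, al k / 2 = b := ⟨_, rfl⟩
  rw [hb] at htrig
  have hab : al k = 2 * b := by rw [← hb]; ring
  have hb0 : 0 < b := by rw [← hb]; linarith
  have hsb : 0 < Real.sin b := Real.sin_pos_of_pos_of_lt_pi hb0 (by linarith)
  have hcos3 : Real.cos (φ - b) ≤ Real.cos (3 * b) := by
    apply cos_le_of_mem
    · linarith
    · linarith
    · linarith
  have hid : Real.sin b * (Real.cosh d * Real.sin (al k) * Real.cos φ +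
      Real.cos (al k) * Real.sin φ) = Real.cos (al k) * Real.cos (φ - b) := by
    rw [Real.cos_sub]
    have hs2 : Real.sin (al k) = 2 * Real.sin b * Real.cos b := by
      rw [hab]; exact Real.sin_two_mul b
    have hc2 : Real.cos (al k) = 1 - 2 * Real.sin b ^ 2 := by
      rw [hab, Real.cos_two_mul, Real.cos_sq']; ring
    rw [hs2]
    have hCS : 2 * Real.sin b ^ 2 * Real.cosh d = Real.cos (al k) := by
      rw [hc2] at h ⊢; linarith
    calc Real.sin b * (Real.cosh d * (2 * Real.sin b * Real.cos b) * Real.cos φ +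
          Real.cos (al k) * Real.sin φ)
        = (2 * Real.sin b ^ 2 * Real.cosh d) * Real.cos b * Real.cos φ +
          Real.cos (al k) * Real.sin b * Real.sin φ := by ring
      _ = _ := by rw [hCS]; ring
  have hgoal : 0 < Real.sin b * (Real.sin (al k) * (Real.sinh d * y) -
      ρ * (Real.cosh d * Real.sin (al k) * Real.cos φ + Real.cos (al k) * Real.sin φ)) := by
    have e3 : Real.sin b * (Real.sin (al k) * (Real.sinh d * y) -
      ρ * (Real.cosh d * Real.sin (al k) * Real.cos φ + Real.cos (al k) * Real.sin φ)) =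
      (Real.sin (al k) * Real.sinh d * Real.sin b) * y -
        ρ * (Real.sin b * (Real.cosh d * Real.sin (al k) * Real.cos φ +
          Real.cos (al k) * Real.sin φ)) := by ring
    rw [e3, hid]
    have e4 : ρ * (Real.cos (al k) * Real.cos (φ - b)) ≤
        ρ * (Real.cos (al k) * Real.cos (3 * b)) :=
      mul_le_mul_of_nonneg_left (mul_le_mul_of_nonneg_left hcos3 hcosα_pos.le) hρ.le
    have e5 : ρ * (Real.cos (al k) * Real.cos (3 * b)) ≤
        ρ * (Real.sin (al k) * Real.sinh d * Real.sin b) :=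
      mul_le_mul_of_nonneg_left htrig hρ.le
    have e6 : 0 < Real.sin (al k) * Real.sinh d * Real.sin b := by positivity
    have e7 : Real.sin (al k) * Real.sinh d * Real.sin b * ρ <
        Real.sin (al k) * Real.sinh d * Real.sin b * y := mul_lt_mul_of_pos_left hρy e6
    have e8 : ρ * (Real.sin (al k) * Real.sinh d * Real.sin b) =
        Real.sin (al k) * Real.sinh d * Real.sin b * ρ := by ring
    linarith
  exact (mul_pos_iff_of_pos_left hsb).mp hgoal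

/-- One step of the invariant. -/
theorem inv_step {k : ℕ} (hk : 7 ≤ k) {d : ℝ} (hd : 0 < d)
    (h : Real.cos (al k) * (1 + Real.cosh d) = Real.cosh d) (γ : Equiv.Perm ℍ) {a : ℕ}
    (ha1 : 1 ≤ a)
    (hY0 : Real.cosh d ≤ Y0 γ) (hY2 : 0 < Y2 γ) (hYa : 0 ≤ Y2 (γ * (rr k) ^ (a : ℤ) * ss d))
    {σ : ℕ} (hσ2 : 2 ≤ σ) (hσ : σ + 1 + a ≤ k) :
    Real.cosh d ≤ Y0 (γ * (rr k) ^ (-(σ : ℤ)) * ss d * (rr k) ^ (-1 : ℤ)) ∧
    0 < Y2 (γ * (rr k) ^ (-(σ : ℤ)) * ss d * (rr k) ^ (-1 : ℤ)) := by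
  have hα := al_pos hk
  have hle := al_le hk
  have hkal := k_al hk
  have hpi := Real.pi_pos
  obtain ⟨ρ, θ, hρpos, hθ0, hθπ, hy1, hy2⟩ := polar (x := Y1 γ) hY2
  have har : (1 : ℝ) ≤ a := by exact_mod_cast ha1
  have haα : 0 < (a : ℝ) * al k := mul_pos (by linarith) hα
  -- upper bound on θ
  have hθa : θ ≤ a * al k := by
    by_contra hcon
    push Not at hcon
    obtain ⟨-, -, r2⟩ := Y_mul_r k γ a
    obtain ⟨-, -, s2⟩ := Y_mul_s d (γ * (rr k) ^ (a : ℤ))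
    rw [s2, r2, hy1, hy2] at hYa
    push_cast at hYa
    have h1 : 0 < Real.sin (θ - a * al k) :=
      Real.sin_pos_of_pos_of_lt_pi (by linarith) (by linarith)
    have h2 := mul_pos hρpos h1
    rw [Real.sin_sub] at h2
    have h3 : -(-Real.sin (a * al k) * (ρ * Real.cos θ) + Real.cos (a * al k) *
      (ρ * Real.sin θ)) = -(ρ * (Real.sin θ * Real.cos (a * al k) -
        Real.cos θ * Real.sin (a * al k))) := by ring
    rw [h3] at hYa
    linarith
  -- the values after the step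
  obtain ⟨p0, p1, p2⟩ := Y_mul_r k γ (-(σ : ℤ))
  obtain ⟨q0, q1, q2⟩ := Y_mul_s d (γ * (rr k) ^ (-(σ : ℤ)))
  obtain ⟨r0, r1, r2⟩ := Y_mul_r k (γ * (rr k) ^ (-(σ : ℤ)) * ss d) (-1)
  have e1 : (((-(σ : ℤ)) : ℤ) : ℝ) * al k = -(σ * al k) := by push_cast; ring
  have e2 : (((-1 : ℤ)) : ℝ) * al k = -(al k) := by push_cast; ring
  rw [e1, Real.cos_neg, Real.sin_neg, hy1, hy2] at p1 p2
  rw [e2, Real.cos_neg, Real.sin_neg] at r1 r2
  obtain ⟨φ, hφ⟩ : ∃ φ, φ = θ + σ * al k := ⟨_, rfl⟩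
  have p1' : Y1 (γ * (rr k) ^ (-(σ : ℤ))) = ρ * Real.cos φ := by
    rw [p1, hφ, Real.cos_add]; ring
  have p2' : Y2 (γ * (rr k) ^ (-(σ : ℤ))) = ρ * Real.sin φ := by
    rw [p2, hφ, Real.sin_add]; ring
  have hσr : (2 : ℝ) ≤ σ := by exact_mod_cast hσ2
  have hσr2 : (σ : ℝ) + 1 + a ≤ k := by exact_mod_cast hσ
  have hφlow : 2 * al k ≤ φ := by
    have : 2 * al k ≤ σ * al k := mul_le_mul_of_nonneg_right hσr hα.le
    linarith
  have hφup : φ ≤ 2 * Real.pi - al k := by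
    have h3 : ((σ : ℝ) + 1 + a) * al k ≤ k * al k := mul_le_mul_of_nonneg_right hσr2 hα.le
    have h4 : ((σ : ℝ) + 1 + a) * al k = σ * al k + al k + a * al k := by ring
    linarith
  have hquad := Y_quad γ
  have hρsq : ρ ^ 2 = Y1 γ ^ 2 + Y2 γ ^ 2 := by
    have := Real.sin_sq_add_cos_sq θ
    rw [hy1, hy2]
    linear_combination (-ρ ^ 2) * this
  have hρy : ρ ^ 2 = Y0 γ ^ 2 - 1 := by linarith
  have hC1 : 1 < Real.cosh d := Real.one_lt_cosh.mpr hd.ne'
  have hH := Real.sinh_pos_iff.mpr hd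
  have hρlt : ρ < Y0 γ := by
    apply lt_of_pow_lt_pow_left₀ 2 (by linarith)
    linarith
  refine ⟨?_, ?_⟩
  · rw [r0, q0, p0, p1']
    exact real_step0 hC1 hH (Real.cosh_sq d) hY0 hρpos hρy h
      (cos_le_of_mem hα.le (by linarith) hφup)
  · rw [r2, q1, q2, p0, p1', p2']
    have hfin := real_step2 hk hd h (y := Y0 γ) hρpos hρlt hφlow hφup
    have e7 : -(-Real.sin (al k)) * (Real.sinh d * Y0 γ - Real.cosh d * (ρ * Real.cos φ)) +
        Real.cos (al k) * -(ρ * Real.sin φ) = Real.sin (al k) * (Real.sinh d * Y0 γ) -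
        ρ * (Real.cosh d * Real.sin (al k) * Real.cos φ + Real.cos (al k) * Real.sin φ) := by ring
    rw [e7]
    exact hfin

end Pool.Agent.Helper28.HP
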