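import Pool.Agent.Helper28.HPSpiral
import Pool.Agent.Helper28.HPDefs

set_option autoImplicit false

namespace Pool.Agent.Helper28.HP

open UpperHalfPlane Pool.Agent.Helper28.HPDefs

section
variable {k : ℕ} {d : ℝ}

open Classical in
/-- Touching pairs among the first `n` vertices, with indices shifted to start at `0`. -/
noncomputable def SS (k : ℕ) (d : ℝ) (n : ℕ) : Finset (ℕ × ℕ) :=
  (Finset.range n ×ˢ Finset.range n).filter
    (fun q => q.1 < q.2 ∧ dist (pp k d (q.1 + 1)) (pp k d (q.2 + 1)) = d)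

theorem mem_SS {n : ℕ} {q : ℕ × ℕ} : q ∈ SS k d n ↔
    q.1 < q.2 ∧ q.2 < n ∧ dist (pp k d (q.1 + 1)) (pp k d (q.2 + 1)) = d := by
  unfold SS
  rw [Finset.mem_filter, Finset.mem_product, Finset.mem_range, Finset.mem_range]
  constructor
  · rintro ⟨⟨h1, h2⟩, h3, h4⟩
    exact ⟨h3, h2, h4⟩
  · rintro ⟨h1, h2, h3⟩
    exact ⟨⟨h1.trans h2, h2⟩, h1, h3⟩

theorem SS_card (hk : 7 ≤ k) (hd : 0 < d)
    (h : Real.cos (al k) * (1 + Real.cosh d) = Real.cosh d) : ∀ n : ℕ, 2 ≤ n →
    2 * n + II k n ≤ (SS k d n).card + 3 := by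
  intro n hn
  induction n, hn using Nat.le_induction with
  | base =>
    have h1 : (0, 1) ∈ SS k d 2 := by
      rw [mem_SS]
      exact ⟨by norm_num, by norm_num, adj_prev hd le_rfl⟩
    have h2 := Finset.card_pos.mpr ⟨_, h1⟩
    rw [II_two k hk]
    omega
  | succ n hn ih =>
    have hII1 := II_succ_le k hk n
    have hII2 := II_mono k hk (show n ≤ n + 1 by omega)
    have hb := II_bound k hk (m := n + 1) (by omega)
    have hsub : SS k d n ⊆ SS k d (n + 1) := by
      intro q hq
      rw [mem_SS] at hq ⊢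
      exact ⟨hq.1, by omega, hq.2.2⟩
    have hq1 : (n - 1, n) ∈ SS k d (n + 1) := by
      rw [mem_SS]
      refine ⟨by show n - 1 < n; omega, by show n < n + 1; omega, ?_⟩
      show dist (pp k d (n - 1 + 1)) (pp k d (n + 1)) = d
      rw [Nat.sub_add_cancel (by omega)]
      exact adj_prev hd (by omega)
    have hq2 : (II k (n + 1), n) ∈ SS k d (n + 1) := by
      rw [mem_SS]
      exact ⟨by show II k (n + 1) < n; omega, by show n < n + 1; omega,
        adj_cent hk hd h (by omega)⟩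
    have hnot : ∀ i, (i, n) ∉ SS k d n := by
      intro i hi
      rw [mem_SS] at hi
      exact absurd hi.2.1 (lt_irrefl _)
    rcases Nat.eq_or_lt_of_le hII2 with h3 | h3
    · have hsub2 : insert (n - 1, n) (insert (II k (n + 1), n) (SS k d n)) ⊆ SS k d (n + 1) := by
        intro q hq
        rw [Finset.mem_insert, Finset.mem_insert] at hq
        rcases hq with rfl | rfl | hq
        · exact hq1
        · exact hq2
        · exact hsub hq
      have hc := Finset.card_le_card hsub2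
      rw [Finset.card_insert_of_notMem, Finset.card_insert_of_notMem (hnot _)] at hc
      · omega
      · rw [Finset.mem_insert]
        rintro (h4 | h4)
        · have := (Prod.ext_iff.mp h4).1
          simp only at this
          omega
        · exact hnot _ h4
    · have h4 : II k (n + 1) = II k n + 1 := by omega
      have hq3 : (II k n, n) ∈ SS k d (n + 1) := by
        rw [mem_SS]
        exact ⟨by show II k n < n; omega, by show n < n + 1; omega, adj_cent' hk hd h h4⟩
      have hsub2 : insert (n - 1, n) (insert (II k (n + 1), n)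
          (insert (II k n, n) (SS k d n))) ⊆ SS k d (n + 1) := by
        intro q hq
        rw [Finset.mem_insert, Finset.mem_insert, Finset.mem_insert] at hq
        rcases hq with rfl | rfl | rfl | hq
        · exact hq1
        · exact hq2
        · exact hq3
        · exact hsub hq
      have hc := Finset.card_le_card hsub2
      rw [Finset.card_insert_of_notMem, Finset.card_insert_of_notMem,
        Finset.card_insert_of_notMem (hnot _)] at hc
      · omega
      · rw [Finset.mem_insert]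
        rintro (h5 | h5)
        · have := (Prod.ext_iff.mp h5).1
          simp only at this
          omega
        · exact hnot _ h5
      · rw [Finset.mem_insert, Finset.mem_insert]
        rintro (h5 | h5 | h5)
        · have := (Prod.ext_iff.mp h5).1
          simp only at this
          omega
        · have := (Prod.ext_iff.mp h5).1
          simp only at this
          omega
        · exact hnot _ h5

theorem touching_eq (n : ℕ) :
    touching d (fun i : Fin n => pp k d (i.1 + 1)) = (SS k d n).card := by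
  unfold touching
  have e : {q : Fin n × Fin n // q.1 < q.2 ∧
      dist (pp k d (q.1.1 + 1)) (pp k d (q.2.1 + 1)) = d} ≃ {q // q ∈ SS k d n} :=
    { toFun := fun q => ⟨(q.1.1.1, q.1.2.1), mem_SS.mpr ⟨q.2.1, q.1.2.2, q.2.2⟩⟩
      invFun := fun q => ⟨(⟨q.1.1, (mem_SS.mp q.2).1.trans (mem_SS.mp q.2).2.1⟩,
        ⟨q.1.2, (mem_SS.mp q.2).2.1⟩), (mem_SS.mp q.2).1, (mem_SS.mp q.2).2.2⟩
      left_inv := fun q => rfl
      right_inv := fun q => rfl }
  rw [Nat.card_congr e, Nat.card_eq_fintype_card, Fintype.card_coe]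

theorem packing (hk : 7 ≤ k) (hd : 0 < d)
    (h : Real.cos (al k) * (1 + Real.cosh d) = Real.cosh d) (n : ℕ) :
    IsPacking d (fun i : Fin n => pp k d (i.1 + 1)) := by
  intro i j hij
  refine dist_ge hk hd h (by omega) (by omega) ?_
  intro h1
  apply hij
  exact Fin.ext (by omega)

theorem touching_le {n : ℕ} (p : Fin n → ℍ) : touching d p ≤ n * n := by
  unfold touching
  have h1 := Nat.card_le_card_of_injective (Subtype.val : {q : Fin n × Fin n // q.1 < q.2 ∧
    dist (p q.1) (p q.2) = d} → Fin n × Fin n) Subtype.val_injective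
  refine h1.trans (le_of_eq ?_)
  rw [Nat.card_eq_fintype_card, Fintype.card_prod, Fintype.card_fin]

theorem le_maxTouching {n : ℕ} (p : Fin n → ℍ) (hp : IsPacking d p) :
    touching d p ≤ maxTouching d n := by
  unfold maxTouching
  refine le_csSup ⟨n * n, ?_⟩ ⟨p, hp, rfl⟩
  rintro t ⟨p', -, rfl⟩
  exact touching_le p'

/-- The floor of the bound is at most the number of edges of the spiral. -/
theorem U_lt (hk : 7 ≤ k) {n : ℕ} (hn : 2 ≤ n) : U (2 * Real.pi / k) n < 2 * n - 2 + II k n := by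
  have hkr : (7 : ℝ) ≤ k := by exact_mod_cast hk
  have hpi := Real.pi_pos
  have hα : Real.pi / (2 * Real.pi / k) = (k : ℝ) / 2 := by
    field_simp
  have hα2 : 2 * Real.pi / (2 * Real.pi / k) = (k : ℝ) := by
    field_simp
  unfold U
  rw [hα, hα2]
  by_contra hcon
  push Not at hcon
  obtain ⟨c, hc⟩ : ∃ c, c = II k n + 1 := ⟨_, rfl⟩
  have hcr : (c : ℝ) = II k n + 1 := by rw [hc]; push_cast; ring
  set D : ℝ := ((k : ℝ) / 2 - 1) * ((k : ℝ) / 2 - 3) * (n : ℝ) ^ 2 + 6 * ((k : ℝ) / 2 - 1) * n -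
    k + 3 with hD
  have hnr : (2 : ℝ) ≤ n := by exact_mod_cast hn
  have hDnn : 0 ≤ D := by
    have h1 : 0 ≤ ((k : ℝ) / 2 - 1) * ((k : ℝ) / 2 - 3) * (n : ℝ) ^ 2 := by
      apply mul_nonneg (mul_nonneg (by linarith) (by linarith)) (by positivity)
    have h2 : 6 * ((k : ℝ) / 2 - 1) * 2 ≤ 6 * ((k : ℝ) / 2 - 1) * n :=
      mul_le_mul_of_nonneg_left hnr (by linarith)
    rw [hD]
    linarith
  have h1 : √D ≤ ((k : ℝ) / 2 - 2) * n + 3 - c := by
    rw [hcr]
    linarith
  have h2 := Real.sqrt_nonneg D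
  have h3 : D ≤ (((k : ℝ) / 2 - 2) * n + 3 - c) ^ 2 := by
    rw [← Real.sq_sqrt hDnn]
    exact pow_le_pow_left₀ h2 h1 2
  have hQr : (0 : ℝ) ≤ (n : ℝ) ^ 2 - ((k : ℝ) - 4) * n * c + (c : ℝ) ^ 2 - 6 * (n + c) + k + 6 := by
    have : (((k : ℝ) / 2 - 2) * n + 3 - c) ^ 2 - D =
        (n : ℝ) ^ 2 - ((k : ℝ) - 4) * n * c + (c : ℝ) ^ 2 - 6 * (n + c) + k + 6 := by
      rw [hD]; ring
    linarith
  have hQ : (0 : ℤ) ≤ (n : ℤ) ^ 2 - ((k : ℤ) - 4) * n * c + (c : ℤ) ^ 2 - 6 * (n + c) + k + 6 := by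
    exact_mod_cast hQr
  have hax : 2 * (c : ℤ) ≤ ((k : ℤ) - 4) * n + 6 := by
    have : 2 * (c : ℝ) ≤ ((k : ℝ) - 4) * n + 6 := by linarith
    exact_mod_cast this
  have h4 := nt_core k hk n hn c (by omega) hQ hax
  rw [FF_le_iff k hk (by omega)] at h4
  omega

theorem U_one (hk : 7 ≤ k) : U (2 * Real.pi / k) 1 = 0 := by
  have hkr : (7 : ℝ) ≤ k := by exact_mod_cast hk
  have hpi := Real.pi_pos
  have hα : Real.pi / (2 * Real.pi / k) = (k : ℝ) / 2 := by
    field_simp
  have hα2 : 2 * Real.pi / (2 * Real.pi / k) = (k : ℝ) := by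
    field_simp
  unfold U
  rw [hα, hα2]
  have e : ((k : ℝ) / 2 - 1) * ((k : ℝ) / 2 - 3) * ((1 : ℕ) : ℝ) ^ 2 +
    6 * ((k : ℝ) / 2 - 1) * ((1 : ℕ) : ℝ) - k + 3 = ((k : ℝ) / 2) ^ 2 := by
    push_cast; ring
  rw [e, Real.sqrt_sq (by linarith)]
  push_cast
  ring

theorem floor_U_le (hk : 7 ≤ k) (hd : 0 < d)
    (h : Real.cos (al k) * (1 + Real.cosh d) = Real.cosh d) {n : ℕ} (hn : 1 ≤ n) :
    ⌊U (2 * Real.pi / k) n⌋ ≤ (touching d (fun i : Fin n => pp k d (i.1 + 1)) : ℤ) := by
  rcases Nat.eq_or_lt_of_le hn with h1 | h1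
  · subst h1
    rw [U_one hk, Int.floor_zero]
    positivity
  · rw [touching_eq]
    have h2 := SS_card hk hd h n h1
    have h3 := U_lt hk h1
    have h4 : ⌊U (2 * Real.pi / k) n⌋ < 2 * (n : ℤ) - 2 + II k n := by
      rw [Int.floor_lt]
      push_cast
      exact h3
    have h5 : (2 * (n : ℤ) + II k n) ≤ (SS k d n).card + 3 := by exact_mod_cast h2
    omega

/-- The angle condition in terms of `cosh`. -/
theorem cond_iff (hd : 0 < d) (x : ℝ) :
    x = Real.tanh (d / 2) / Real.tanh d ↔ x * (1 + Real.cosh d) = Real.cosh d := by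
  have hs : 0 < Real.sinh (d / 2) := Real.sinh_pos_iff.mpr (by linarith)
  have hc : 0 < Real.cosh (d / 2) := Real.cosh_pos _
  have hsd : 0 < Real.sinh d := Real.sinh_pos_iff.mpr hd
  have hcd : 0 < Real.cosh d := Real.cosh_pos _
  have e1 : Real.sinh d = 2 * Real.sinh (d / 2) * Real.cosh (d / 2) := by
    rw [← Real.sinh_two_mul]; congr 1; ring
  have e2 : 1 + Real.cosh d = 2 * Real.cosh (d / 2) ^ 2 := by
    have : Real.cosh d = Real.cosh (d / 2) ^ 2 + Real.sinh (d / 2) ^ 2 := by
      rw [← Real.cosh_two_mul]; congr 1; ring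
    rw [this, Real.sinh_sq]; ring
  have e3 : Real.tanh (d / 2) / Real.tanh d = Real.cosh d / (1 + Real.cosh d) := by
    rw [Real.tanh_eq_sinh_div_cosh, Real.tanh_eq_sinh_div_cosh, e2, e1]
    field_simp
  rw [e3, eq_div_iff (by linarith)]

theorem exists_d (hk : 7 ≤ k) : ∃ d : ℝ, 0 < d ∧
    Real.cos (2 * Real.pi / k) = Real.tanh (d / 2) / Real.tanh d := by
  have hα := al_pos hk
  have hle := al_le hk
  have hpi := Real.pi_pos
  have h1 : 1 / 2 < Real.cos (al k) := by
    rw [← Real.cos_pi_div_three]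
    exact Real.cos_lt_cos_of_nonneg_of_le_pi hα.le (by linarith) (by linarith)
  have h2 : Real.cos (al k) < 1 := by
    rw [← Real.cos_zero]
    exact Real.cos_lt_cos_of_nonneg_of_le_pi le_rfl (by linarith) hα
  have h3 : 1 < Real.cos (al k) / (1 - Real.cos (al k)) := by
    rw [lt_div_iff₀ (by linarith)]; linarith
  refine ⟨Real.arcosh (Real.cos (al k) / (1 - Real.cos (al k))), Real.arcosh_pos h3, ?_⟩
  rw [cond_iff (Real.arcosh_pos h3), Real.cosh_arcosh h3.le]
  show Real.cos (al k) * _ = _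
  have : 1 - Real.cos (al k) ≠ 0 := by linarith
  field_simp
  ring

end

end Pool.Agent.Helper28.HP
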