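import Pool.Agent.Helper28.HPGeom

set_option autoImplicit false

namespace Pool.Agent.Helper28.HP

open UpperHalfPlane Matrix

theorem Rot_add (φ ψ : ℝ) : Rot (φ + ψ) = Rot φ * Rot ψ := by
  apply Subtype.ext
  show !![Real.cos (φ + ψ), Real.sin (φ + ψ); -Real.sin (φ + ψ), Real.cos (φ + ψ)] =
    !![Real.cos φ, Real.sin φ; -Real.sin φ, Real.cos φ] *
      !![Real.cos ψ, Real.sin ψ; -Real.sin ψ, Real.cos ψ]
  rw [Matrix.mul_fin_two, Real.cos_add, Real.sin_add]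
  congr 1
  have e1 : Real.cos φ * Real.cos ψ - Real.sin φ * Real.sin ψ =
    Real.cos φ * Real.cos ψ + Real.sin φ * -Real.sin ψ := by ring
  have e2 : Real.sin φ * Real.cos ψ + Real.cos φ * Real.sin ψ =
    Real.cos φ * Real.sin ψ + Real.sin φ * Real.cos ψ := by ring
  have e3 : -(Real.sin φ * Real.cos ψ + Real.cos φ * Real.sin ψ) =
    -Real.sin φ * Real.cos ψ + Real.cos φ * -Real.sin ψ := by ring
  have e4 : Real.cos φ * Real.cos ψ - Real.sin φ * Real.sin ψ =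
    -Real.sin φ * Real.sin ψ + Real.cos φ * Real.cos ψ := by ring
  rw [e3, ← e2, ← e4, ← e1]

theorem Rot_zero : Rot 0 = 1 := by
  ext i j
  fin_cases i <;> fin_cases j <;> simp [Rot]

/-- Rotations form a one-parameter group. -/
noncomputable def RotHom : Multiplicative ℝ →* Matrix.SpecialLinearGroup (Fin 2) ℝ where
  toFun x := Rot x.toAdd
  map_one' := Rot_zero
  map_mul' _ _ := Rot_add _ _

theorem Rot_zpow (φ : ℝ) (t : ℤ) : (Rot φ) ^ t = Rot (t * φ) := by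
  have h : RotHom (Multiplicative.ofAdd φ) = Rot φ := rfl
  rw [← h, ← map_zpow, ← ofAdd_zsmul]
  show Rot (t • φ) = _
  rw [zsmul_eq_mul]

/-- The permutation of the upper half-plane given by a matrix. -/
noncomputable def perm : Matrix.SpecialLinearGroup (Fin 2) ℝ →* Equiv.Perm ℍ :=
  MulAction.toPermHom _ _

theorem perm_apply (g : Matrix.SpecialLinearGroup (Fin 2) ℝ) (z : ℍ) : perm g z = g • z := rfl

/-- Rotation by `2π/k` about `I`. -/
noncomputable def rr (k : ℕ) : Equiv.Perm ℍ := perm (Rot (Real.pi / k))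

/-- Half turn exchanging `I` and `e^d I`. -/
noncomputable def ss (d : ℝ) : Equiv.Perm ℍ := perm (Half d)

/-- the angle `2π/k` -/
noncomputable def al (k : ℕ) : ℝ := 2 * Real.pi / k

theorem X_rr_zpow (k : ℕ) (t : ℤ) (z : ℍ) :
    X0 (((rr k) ^ t) z) = X0 z ∧
    X1 (((rr k) ^ t) z) = Real.cos (t * al k) * X1 z - Real.sin (t * al k) * X2 z ∧
    X2 (((rr k) ^ t) z) = Real.sin (t * al k) * X1 z + Real.cos (t * al k) * X2 z := by
  have h : ((rr k) ^ t) z = Rot (t * (Real.pi / k)) • z := by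
    rw [rr, ← map_zpow, Rot_zpow, perm_apply]
  rw [h]
  have := X_Rot (t * (Real.pi / k)) z
  have e : 2 * ((t : ℝ) * (Real.pi / k)) = t * al k := by unfold al; ring
  rw [e] at this
  exact this

theorem X_ss (d : ℝ) (z : ℍ) :
    X0 (ss d z) = Real.cosh d * X0 z - Real.sinh d * X1 z ∧
    X1 (ss d z) = Real.sinh d * X0 z - Real.cosh d * X1 z ∧
    X2 (ss d z) = -X2 z := X_Half d z

theorem rr_pow_k (k : ℕ) (hk : k ≠ 0) : (rr k) ^ (k : ℤ) = 1 := by
  ext1 z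
  obtain ⟨h0, h1, h2⟩ := X_rr_zpow k k z
  have e : ((k : ℤ) : ℝ) * al k = 2 * Real.pi := by
    unfold al
    have : (k : ℝ) ≠ 0 := by exact_mod_cast hk
    push_cast
    field_simp
  rw [e, Real.cos_two_pi, Real.sin_two_pi] at h1 h2
  refine X_ext ?_ ?_ ?_
  · rw [h0]; rfl
  · rw [h1]; show _ = X1 z; ring
  · rw [h2]; show _ = X2 z; ring

theorem dvd_of_rr_zpow (k : ℕ) (hk : k ≠ 0) (t : ℤ) (h : (rr k) ^ t = 1) : (k : ℤ) ∣ t := by
  let z : ℍ := ⟨2 * Complex.I, by simp⟩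
  have hz1 : X1 z = 3 / 4 := by
    show ((2 * Complex.I : ℂ).re ^ 2 + (2 * Complex.I : ℂ).im ^ 2 - 1) /
      (2 * (2 * Complex.I : ℂ).im) = 3 / 4
    simp
    norm_num
  have hz2 : X2 z = 0 := by
    show -(2 * Complex.I : ℂ).re / (2 * Complex.I : ℂ).im = 0
    simp
  obtain ⟨_, h1, _⟩ := X_rr_zpow k t z
  rw [h] at h1
  have h1' : X1 z = Real.cos (t * al k) * X1 z - Real.sin (t * al k) * X2 z := h1
  rw [hz1, hz2] at h1'
  have hcos : Real.cos (t * al k) = 1 := by linarith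
  rw [Real.cos_eq_one_iff] at hcos
  obtain ⟨n, hn⟩ := hcos
  refine ⟨n, ?_⟩
  have hk' : (k : ℝ) ≠ 0 := by exact_mod_cast hk
  have hpi := Real.pi_ne_zero
  unfold al at hn
  have h3 : (t : ℝ) = (k : ℝ) * n := by
    field_simp at hn
    nlinarith [hn, Real.pi_pos]
  exact_mod_cast h3

theorem ss_mul_self (d : ℝ) : ss d * ss d = 1 := by
  ext1 z
  show ss d (ss d z) = z
  obtain ⟨a0, a1, a2⟩ := X_ss d z
  obtain ⟨b0, b1, b2⟩ := X_ss d (ss d z)
  have hcs := Real.cosh_sq d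
  refine X_ext ?_ ?_ ?_
  · rw [b0, a0, a1]; linear_combination (X0 z) * hcs
  · rw [b1, a0, a1]; linear_combination (X1 z) * hcs
  · rw [b2, a2]; ring

/-- The relation coming from the triangles. -/
theorem rel2 (k : ℕ) (d : ℝ) (h : Real.cos (al k) * (1 + Real.cosh d) = Real.cosh d) :
    ss d * rr k * ss d = (rr k)⁻¹ * ss d * (rr k)⁻¹ := by
  ext1 z
  have e1 : rr k = (rr k) ^ (1 : ℤ) := (zpow_one _).symm
  have e2 : (rr k)⁻¹ = (rr k) ^ (-1 : ℤ) := (_root_.zpow_neg_one _).symm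
  rw [e2]
  show ss d (rr k (ss d z)) = ((rr k) ^ (-1 : ℤ)) (ss d (((rr k) ^ (-1 : ℤ)) z))
  obtain ⟨a0, a1, a2⟩ := X_ss d z
  obtain ⟨b0, b1, b2⟩ := X_rr_zpow k 1 (ss d z)
  rw [zpow_one] at b0 b1 b2
  obtain ⟨c0, c1, c2⟩ := X_ss d (rr k (ss d z))
  obtain ⟨p0, p1, p2⟩ := X_rr_zpow k (-1) z
  obtain ⟨q0, q1, q2⟩ := X_ss d (((rr k) ^ (-1 : ℤ)) z)
  obtain ⟨r0, r1, r2⟩ := X_rr_zpow k (-1) (ss d (((rr k) ^ (-1 : ℤ)) z))
  have n1 : (((-1 : ℤ) : ℤ) : ℝ) * al k = -(al k) := by push_cast; ring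
  have n2 : (((1 : ℤ) : ℤ) : ℝ) * al k = al k := by push_cast; ring
  rw [n2] at b1 b2
  rw [n1, Real.cos_neg, Real.sin_neg] at p1 p2 r1 r2
  have hcs := Real.cosh_sq d
  have hcc := Real.cos_sq_add_sin_sq (al k)
  set c := Real.cos (al k)
  set σ := Real.sin (al k)
  set C := Real.cosh d
  set H := Real.sinh d
  refine X_ext ?_ ?_ ?_
  · rw [c0, b0, b1, a0, a1, a2, r0, q0, p0, p1]
    linear_combination (X0 z * (c * 1) ) * hcs + (X0 z * (1 - C) + H * X1 z) * h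
  · rw [c1, b0, b1, a0, a1, a2, r1, q1, q2, p0, p1, p2]
    linear_combination (-H * X0 z + (c + C) * X1 z + σ * X2 z) * h + X1 z * hcs - X1 z * hcc
  · rw [c2, b2, a1, a2, r2, q1, q2, p0, p1, p2]
    linear_combination (-σ * X1 z + (1 + c) * X2 z) * h - C * X2 z * hcc

end Pool.Agent.Helper28.HP
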