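import Pool.Agent.Helper28.HPInv

set_option autoImplicit false

namespace Pool.Agent.Helper28.HP

open UpperHalfPlane

section
variable {k : ℕ} {d : ℝ}

theorem aa_bounds (hk : 7 ≤ k) {m : ℕ} : 1 ≤ aa k m ∧ aa k m ≤ 3 := by
  rcases Nat.lt_or_ge m 3 with h3 | h3
  · unfold aa; rw [if_pos (by omega)]; omega
  · rcases aa_cases k hk h3 with h4 | h4 <;> omega

/-- The invariant: every later frame sees the base point far away and on the left. -/
theorem inv_all (hk : 7 ≤ k) (hd : 0 < d)
    (h : Real.cos (al k) * (1 + Real.cosh d) = Real.cosh d) : ∀ m : ℕ, 2 ≤ m →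
    Real.cosh d ≤ Y0 (gg k d m) ∧ 0 < Y2 (gg k d m) := by
  intro m
  induction m using Nat.strong_induction_on with
  | _ m ih =>
    intro hm
    obtain ⟨c, hc⟩ : ∃ c, II k m + 1 = c := ⟨_, rfl⟩
    have hA := adjA hk h hm hc
    have hg : gg k d m = gg k d c * (rr k) ^ ((m : ℤ) - 1 - FF k c) * ss d *
        (rr k) ^ (-1 : ℤ) := by
      rw [hA]; group
    have hmF : m < FF k c := by
      have : ¬ FF k c ≤ m := by rw [FF_le_iff k hk (by omega)]; omega
      omega
    rcases Nat.eq_or_lt_of_le (show 1 ≤ c by omega) with h1 | h1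
    · subst h1
      rw [hg, gg_one]
      obtain ⟨y0, y1, y2⟩ := Y_one
      obtain ⟨p0, p1, p2⟩ := Y_mul_r k 1 ((m : ℤ) - 1 - FF k 1)
      obtain ⟨q0, q1, q2⟩ := Y_mul_s d (1 * (rr k) ^ ((m : ℤ) - 1 - FF k 1))
      obtain ⟨r0, r1, r2⟩ := Y_mul_r k (1 * (rr k) ^ ((m : ℤ) - 1 - FF k 1) * ss d) (-1)
      have e2 : (((-1 : ℤ)) : ℝ) * al k = -(al k) := by push_cast; ring
      rw [e2, Real.cos_neg, Real.sin_neg] at r1 r2
      rw [y1, y2] at p1 p2
      rw [y0] at p0
      have p1' : Y1 (1 * (rr k) ^ ((m : ℤ) - 1 - FF k 1)) = 0 := by rw [p1]; ring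
      have p2' : Y2 (1 * (rr k) ^ ((m : ℤ) - 1 - FF k 1)) = 0 := by rw [p2]; ring
      refine ⟨?_, ?_⟩
      · rw [r0, q0, p0, p1']
        apply le_of_eq
        ring
      · rw [r2, q1, q2, p0, p1', p2']
        have hα := al_pos hk
        have hle := al_le hk
        have hpi := Real.pi_pos
        have hsinα_pos : 0 < Real.sin (al k) :=
          Real.sin_pos_of_pos_of_lt_pi hα (by linarith)
        have hH := Real.sinh_pos_iff.mpr hd
        have e3 : - -Real.sin (al k) * (Real.sinh d * 1 - Real.cosh d * 0) +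
          Real.cos (al k) * -0 = Real.sin (al k) * Real.sinh d := by ring
        rw [e3]
        positivity
    · have hm3 : 3 ≤ m := by
        by_contra hcon
        have : II k m = 0 := II_small k hk (by omega)
        omega
      have hb := II_bound k hk hm3
      have hIH := ih c (by omega) h1
      have hFs := FF_succ k hk (c := c - 1) (by omega)
      rw [Nat.sub_add_cancel (show 1 ≤ c by omega)] at hFs
      have hFm : FF k (c - 1) ≤ m := by
        rw [FF_le_iff k hk (by omega)]; omega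
      obtain ⟨σ, hσ⟩ : ∃ σ : ℕ, σ + m = FF k c + 1 := ⟨FF k c + 1 - m, by omega⟩
      have hexp : (m : ℤ) - 1 - FF k c = -(σ : ℤ) := by omega
      rw [hg, hexp]
      have hprev : gg k d c * (rr k) ^ (aa k c : ℤ) * ss d = gg k d (c - 1) := by
        have := gg_succ k d (show 1 ≤ c - 1 by omega)
        rw [Nat.sub_add_cancel (show 1 ≤ c by omega)] at this
        rw [this]
        calc gg k d (c - 1) * ss d * (rr k) ^ (-(aa k c : ℤ)) * (rr k) ^ (aa k c : ℤ) * ss d
            = gg k d (c - 1) * (ss d * ss d) := by group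
          _ = _ := by rw [ss_mul_self, mul_one]
      refine inv_step hk hd h (gg k d c) (aa_bounds hk (m := c)).1 hIH.1 hIH.2 ?_
        (σ := σ) (by omega) (by omega)
      rw [hprev]
      rcases Nat.eq_or_lt_of_le (show 1 ≤ c - 1 by omega) with h2 | h2
      · rw [← h2, gg_one, Y_one.2.2]
      · exact (ih (c - 1) (by omega) h2).2.le

/-- Frames and their rotations exhaust the group. -/
theorem closure_form (hk : 7 ≤ k) (h : Real.cos (al k) * (1 + Real.cosh d) = Real.cosh d)
    {γ : Equiv.Perm ℍ} (hγ : γ ∈ Subgroup.closure ({rr k, ss d} : Set (Equiv.Perm ℍ))) :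
    ∃ m : ℕ, 1 ≤ m ∧ ∃ t : ℤ, γ = gg k d m * (rr k) ^ t := by
  induction hγ using Subgroup.closure_induction_right with
  | one => exact ⟨1, le_rfl, 0, by rw [gg_one]; group⟩
  | mul_right x hx y hy ih =>
    obtain ⟨m, hm, t, rfl⟩ := ih
    rcases hy with hy | hy
    · subst hy
      exact ⟨m, hm, t + 1, by rw [zpow_add_one]; group⟩
    · rw [Set.mem_singleton_iff] at hy
      subst hy
      obtain ⟨m', hm', t', he, -⟩ := total hk h hm t
      exact ⟨m', hm', t', he⟩
  | mul_inv_cancel x hx y hy ih =>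
    obtain ⟨m, hm, t, rfl⟩ := ih
    rcases hy with hy | hy
    · subst hy
      exact ⟨m, hm, t - 1, by rw [zpow_sub_one]; group⟩
    · rw [Set.mem_singleton_iff] at hy
      subst hy
      obtain ⟨m', hm', t', he, -⟩ := total hk h hm t
      have hsi : (ss d)⁻¹ = ss d := inv_eq_of_mul_eq_one_left (ss_mul_self d)
      rw [hsi]
      exact ⟨m', hm', t', he⟩

theorem gg_mem (m : ℕ) :
    gg k d m ∈ Subgroup.closure ({rr k, ss d} : Set (Equiv.Perm ℍ)) := by
  have hr : rr k ∈ Subgroup.closure ({rr k, ss d} : Set (Equiv.Perm ℍ)) :=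
    Subgroup.subset_closure (Or.inl rfl)
  have hs : ss d ∈ Subgroup.closure ({rr k, ss d} : Set (Equiv.Perm ℍ)) :=
    Subgroup.subset_closure (Or.inr rfl)
  rcases Nat.eq_zero_or_pos m with h0 | h0
  · subst h0; exact Subgroup.one_mem _
  · induction m, h0 using Nat.le_induction with
    | base => exact Subgroup.one_mem _
    | succ m hm ih =>
      rw [gg_succ k d hm]
      exact Subgroup.mul_mem _ (Subgroup.mul_mem _ ih hs) (Subgroup.zpow_mem _ hr _)

/-- Different indices give different vertices. -/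
theorem distinct (hk : 7 ≤ k) (hd : 0 < d)
    (h : Real.cos (al k) * (1 + Real.cosh d) = Real.cosh d) : ∀ i : ℕ, 1 ≤ i → ∀ j : ℕ, 1 ≤ j →
    ∀ t : ℤ, gg k d j = gg k d i * (rr k) ^ t → j = i := by
  intro i hi
  induction i, hi using Nat.le_induction with
  | base =>
    intro j hj t ht
    by_contra hcon
    have h1 := (inv_all hk hd h j (by omega)).1
    rw [ht, (Y_mul_r k (gg k d 1) t).1, gg_one, Y_one.1] at h1
    have hC1 : 1 < Real.cosh d := Real.one_lt_cosh.mpr hd.ne'
    linarith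
  | succ i hi ih =>
    intro j hj t ht
    obtain ⟨m', hm', t', he, hdv⟩ := total hk h hj ((aa k (i + 1) : ℤ) - t)
    have h1 : gg k d i = gg k d j * (rr k) ^ ((aa k (i + 1) : ℤ) - t) * ss d := by
      rw [ht, gg_succ k d hi]
      calc gg k d i = gg k d i * 1 := by rw [mul_one]
        _ = gg k d i * (ss d * ss d) := by rw [ss_mul_self]
        _ = _ := by group
    rw [he] at h1
    have h2 : gg k d m' = gg k d i * (rr k) ^ (-t') := by rw [h1]; group
    have h3 := ih m' hm' (-t') h2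
    subst h3
    have h4 : (rr k) ^ t' = 1 := by
      have : gg k d m' * 1 = gg k d m' * (rr k) ^ t' := by rw [mul_one]; exact h1
      exact (mul_left_cancel this).symm
    exact hdv (dvd_of_rr_zpow k (by omega) t' h4)

/-! ### distances -/

/-- Elements of the group are isometries. -/
theorem dist_closure {γ : Equiv.Perm ℍ}
    (hγ : γ ∈ Subgroup.closure ({rr k, ss d} : Set (Equiv.Perm ℍ))) (z w : ℍ) :
    dist (γ z) (γ w) = dist z w := by
  have hle : Subgroup.closure ({rr k, ss d} : Set (Equiv.Perm ℍ)) ≤ perm.range := by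
    rw [Subgroup.closure_le]
    intro x hx
    rcases hx with hx | hx
    · rw [hx]; exact ⟨_, rfl⟩
    · rw [Set.mem_singleton_iff] at hx
      rw [hx]; exact ⟨_, rfl⟩
  obtain ⟨g, rfl⟩ := hle hγ
  exact dist_smul g z w

theorem rr_I (t : ℤ) : ((rr k) ^ t) I = I := by
  obtain ⟨h0, h1, h2⟩ := X_rr_zpow k t I
  refine X_ext h0 ?_ ?_
  · rw [h1, X1_I, X2_I]; ring
  · rw [h2, X1_I, X2_I]; ring

/-- The vertices of the spiral. -/
noncomputable def pp (k : ℕ) (d : ℝ) (m : ℕ) : ℍ := gg k d m I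

theorem dist_ge (hk : 7 ≤ k) (hd : 0 < d)
    (h : Real.cos (al k) * (1 + Real.cosh d) = Real.cosh d) {i j : ℕ} (hi : 1 ≤ i) (hj : 1 ≤ j)
    (hij : i ≠ j) : d ≤ dist (pp k d i) (pp k d j) := by
  have hγ : (gg k d i)⁻¹ * gg k d j ∈ Subgroup.closure ({rr k, ss d} : Set (Equiv.Perm ℍ)) :=
    Subgroup.mul_mem _ (Subgroup.inv_mem _ (gg_mem i)) (gg_mem j)
  obtain ⟨m, hm, t, ht⟩ := closure_form hk h hγ
  have hm2 : 2 ≤ m := by
    by_contra hcon
    have hm1 : m = 1 := by omega
    subst hm1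
    rw [gg_one, one_mul] at ht
    apply hij
    have : gg k d j = gg k d i * (rr k) ^ t := by rw [← ht]; group
    exact (distinct hk hd h i hi j hj t this).symm
  have h1 : dist (pp k d i) (pp k d j) = dist ((gg k d m)⁻¹ I) I := by
    have e1 : pp k d j = gg k d i (((gg k d i)⁻¹ * gg k d j) I) := by
      show gg k d j I = gg k d i ((gg k d i).symm (gg k d j I))
      rw [Equiv.apply_symm_apply]
    rw [e1, ht]
    show dist (gg k d i I) (gg k d i (gg k d m (((rr k) ^ t) I))) = _
    rw [rr_I, dist_closure (gg_mem i)]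
    have e2 := dist_closure (gg_mem (k := k) (d := d) m) ((gg k d m)⁻¹ I) I
    have e3 : gg k d m ((gg k d m)⁻¹ I) = I := Equiv.apply_symm_apply (gg k d m) I
    rw [e3] at e2
    exact e2
  have h2 : Real.cosh (dist (pp k d i) (pp k d j)) = Y0 (gg k d m) := by
    rw [h1, dist_comm, cosh_dist_I]; rfl
  have h3 := (inv_all hk hd h m hm2).1
  rw [← h2, Real.cosh_le_cosh, abs_of_pos hd, abs_of_nonneg dist_nonneg] at h3
  exact h3

theorem dist_eq_of_rel (hd : 0 < d) {i j : ℕ} {t u : ℤ}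
    (he : gg k d i * (rr k) ^ t * ss d = gg k d j * (rr k) ^ u) :
    dist (pp k d i) (pp k d j) = d := by
  have e1 : pp k d i = (gg k d i * (rr k) ^ t) I := by
    show gg k d i I = gg k d i (((rr k) ^ t) I)
    rw [rr_I]
  have e2 : pp k d j = (gg k d i * (rr k) ^ t) (ss d I) := by
    have : pp k d j = (gg k d j * (rr k) ^ u) I := by
      show gg k d j I = gg k d j (((rr k) ^ u) I)
      rw [rr_I]
    rw [this, ← he]; rfl
  have hr : rr k ∈ Subgroup.closure ({rr k, ss d} : Set (Equiv.Perm ℍ)) :=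
    Subgroup.subset_closure (Or.inl rfl)
  have hmem : gg k d i * (rr k) ^ t ∈ Subgroup.closure ({rr k, ss d} : Set (Equiv.Perm ℍ)) :=
    Subgroup.mul_mem _ (gg_mem i) (Subgroup.zpow_mem _ hr _)
  rw [e1, e2, dist_closure hmem]
  have h1 : Real.cosh (dist I (ss d I)) = Real.cosh d := by
    rw [cosh_dist_I, (X_ss d I).1, X0_I, X1_I]; ring
  have h3 : |dist I (ss d I)| = |d| := by
    apply le_antisymm
    · rw [← Real.cosh_le_cosh, h1]
    · rw [← Real.cosh_le_cosh, h1]
  rwa [abs_of_pos hd, abs_of_nonneg dist_nonneg] at h3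

/-! ### adjacency in the spiral -/

theorem adj_prev (hd : 0 < d) {m : ℕ} (hm : 1 ≤ m) : dist (pp k d m) (pp k d (m + 1)) = d := by
  refine dist_eq_of_rel hd (t := 0) (u := (aa k (m + 1) : ℤ)) ?_
  rw [gg_succ k d hm]
  group

theorem adj_cent (hk : 7 ≤ k) (hd : 0 < d)
    (h : Real.cos (al k) * (1 + Real.cosh d) = Real.cosh d) {m : ℕ} (hm : 2 ≤ m) :
    dist (pp k d (II k m + 1)) (pp k d m) = d := by
  refine dist_eq_of_rel hd (t := (m : ℤ) - 1 - FF k (II k m + 1)) (u := 1) ?_
  rw [zpow_one]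
  exact adjA hk h hm rfl

theorem adj_cent' (hk : 7 ≤ k) (hd : 0 < d)
    (h : Real.cos (al k) * (1 + Real.cosh d) = Real.cosh d) {m : ℕ} 
    (hI : II k (m + 1) = II k m + 1) :
    dist (pp k d (II k m + 1)) (pp k d (m + 1)) = d := by
  have hF : FF k (II k m + 1) = m + 1 := by
    have h4 := (FF_le_iff k hk (m := m + 1) (c := II k m + 1) (by omega)).mpr (by omega)
    have h5 : ¬ FF k (II k m + 1) ≤ m := by rw [FF_le_iff k hk (by omega)]; omega
    omega
  have hB := adjB hk h (c := II k m + 1) (by omega)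
  rw [hF] at hB
  exact dist_eq_of_rel hd hB

/-- Number of touching pairs among the first `n` vertices. -/
noncomputable def cnt (k : ℕ) (d : ℝ) (n : ℕ) : ℕ :=
  Nat.card {q : ℕ × ℕ // 1 ≤ q.1 ∧ q.1 < q.2 ∧ q.2 ≤ n ∧ dist (pp k d q.1) (pp k d q.2) = d}

end

end Pool.Agent.Helper28.HP
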