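import Mathlib

/-!
Basic definitions for the proof that graphs of bounded sim-width are chi-bounded
(problem MP_778a07_co).
-/

set_option autoImplicit false

namespace Pool.Agent.Helper28.SW

variable {V : Type}

/-- `Col G S n`: the subgraph of `G` induced on `S` can be properly coloured with the colours
`0, ..., n-1`. -/
def Col (G : SimpleGraph V) (S : Set V) (n : ℕ) : Prop :=
  ∃ f : V → ℕ, (∀ v ∈ S, f v < n) ∧ ∀ u ∈ S, ∀ v ∈ S, G.Adj u v → f u ≠ f v

/-- `IM G Z A n`: there are `n` vertices `a i` in `Z` outside `A` and `n` vertices `b i` in `Z ∩ A`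
such that `a i` is adjacent to `b j` exactly when `i = j`. -/
def IM (G : SimpleGraph V) (Z A : Set V) (n : ℕ) : Prop :=
  ∃ a b : Fin n → V, (∀ i, a i ∈ Z ∧ a i ∉ A) ∧ (∀ i, b i ∈ Z ∧ b i ∈ A) ∧
    ∀ i j, G.Adj (a i) (b j) ↔ i = j

/-- `g` lists the vertices of a clique of size `n`. -/
def Clq (G : SimpleGraph V) {n : ℕ} (g : Fin n → V) : Prop :=
  ∀ i j, i ≠ j → G.Adj (g i) (g j)

/-- A binary laminar family of subsets of `V`. -/
structure Lam [Fintype V] [DecidableEq V] (F : Set (Finset V)) : Prop where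
  root : Finset.univ ∈ F
  laminar : ∀ A ∈ F, ∀ B ∈ F, A ⊆ B ∨ B ⊆ A ∨ Disjoint A B
  split : ∀ A ∈ F, A.card ≤ 1 ∨
    ∃ B ∈ F, ∃ C ∈ F, B ∪ C = A ∧ Disjoint B C ∧ B.Nonempty ∧ C.Nonempty

end Pool.Agent.Helper28.SW
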