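import Pool.Agent.Helper28.SWBase

set_option autoImplicit false

namespace Pool.Agent.Helper28.SW

variable {V : Type} {G : SimpleGraph V}

theorem Col.mono {S T : Set V} {n : ℕ} (h : Col G T n) (hST : S ⊆ T) : Col G S n := by
  obtain ⟨f, hf, hp⟩ := h
  exact ⟨f, fun v hv => hf v (hST hv), fun u hu v hv => hp u (hST hu) v (hST hv)⟩

theorem Col.mono_right {S : Set V} {n m : ℕ} (h : Col G S n) (hnm : n ≤ m) : Col G S m := by
  obtain ⟨f, hf, hp⟩ := h
  exact ⟨f, fun v hv => lt_of_lt_of_le (hf v hv) hnm, hp⟩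

theorem col_empty (n : ℕ) : Col G (∅ : Set V) n :=
  ⟨fun _ => 0, by simp, by simp⟩

theorem nonempty_of_not_col {S : Set V} {n : ℕ} (h : ¬ Col G S n) : S.Nonempty := by
  by_contra hS
  rw [Set.not_nonempty_iff_eq_empty] at hS
  subst hS
  exact h (col_empty n)

theorem col_one_of_indep {S : Set V} (h : ∀ u ∈ S, ∀ v ∈ S, ¬ G.Adj u v) : Col G S 1 :=
  ⟨fun _ => 0, by simp, fun u hu v hv huv => absurd huv (h u hu v hv)⟩

theorem col_singleton (v : V) : Col G ({v} : Set V) 1 :=
  col_one_of_indep (by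
    intro u hu w hw
    simp only [Set.mem_singleton_iff] at hu hw
    subst hu; subst hw
    exact G.loopless.irrefl _)

theorem Col.union {S T : Set V} {a b : ℕ} (hS : Col G S a) (hT : Col G T b) :
    Col G (S ∪ T) (a + b) := by
  classical
  obtain ⟨f, hf, hfp⟩ := hS
  obtain ⟨g, hg, hgp⟩ := hT
  refine ⟨fun v => if v ∈ S then f v else a + g v, ?_, ?_⟩
  · intro v hv
    by_cases h : v ∈ S
    · have := hf v h
      simp only [h, if_true]; omega
    · have := hg v (hv.resolve_left h)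
      simp only [h, if_false]; omega
  · intro u hu v hv huv
    by_cases h : u ∈ S <;> by_cases h' : v ∈ S
    · simp only [h, h', if_true]; exact hfp u h v h' huv
    · have := hf u h
      simp only [h, h', if_true, if_false]; omega
    · have := hf v h'
      simp only [h, h', if_true, if_false]; omega
    · have := hgp u (hu.resolve_left h) v (hv.resolve_left h') huv
      simp only [h, h', if_false]; omega

theorem Col.union_disj {S T : Set V} {b : ℕ} (hS : Col G S b) (hT : Col G T b)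
    (hno : ∀ u ∈ S, ∀ v ∈ T, ¬ G.Adj u v) : Col G (S ∪ T) b := by
  classical
  obtain ⟨f, hf, hfp⟩ := hS
  obtain ⟨g, hg, hgp⟩ := hT
  refine ⟨fun v => if v ∈ S then f v else g v, ?_, ?_⟩
  · intro v hv
    by_cases h : v ∈ S
    · simp only [h, if_true]; exact hf v h
    · simp only [h, if_false]; exact hg v (hv.resolve_left h)
  · intro u hu v hv huv
    by_cases h : u ∈ S <;> by_cases h' : v ∈ S
    · simp only [h, h', if_true]; exact hfp u h v h' huv
    · exact absurd huv (hno u h v (hv.resolve_left h'))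
    · exact absurd huv.symm (hno v h' u (hu.resolve_left h))
    · simp only [h, h', if_false]
      exact hgp u (hu.resolve_left h) v (hv.resolve_left h') huv

theorem col_biUnion {ι : Type} (s : Finset ι) (S : ι → Set V) (b : ℕ)
    (h : ∀ i ∈ s, Col G (S i) b) : Col G (⋃ i ∈ s, S i) (s.card * b) := by
  classical
  induction s using Finset.induction_on with
  | empty => simpa using col_empty 0
  | insert a s ha ih =>
    rw [Finset.set_biUnion_insert, Finset.card_insert_of_notMem ha, Nat.add_mul, one_mul,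
      Nat.add_comm]
    exact (h a (Finset.mem_insert_self a s)).union
      (ih fun i hi => h i (Finset.mem_insert_of_mem hi))

theorem col_of_classes {ι : Type} [Fintype ι] (S : Set V) (h : V → ι) (b : ℕ)
    (hS : ∀ i, Col G {v | v ∈ S ∧ h v = i} b) : Col G S (Fintype.card ι * b) := by
  classical
  have := col_biUnion (G := G) Finset.univ (fun i => {v | v ∈ S ∧ h v = i}) b (fun i _ => hS i)
  refine Col.mono this ?_
  intro v hv
  simp only [Set.mem_iUnion, Finset.mem_univ, exists_prop, true_and, Set.mem_setOf_eq]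
  exact ⟨h v, hv, rfl⟩

/-- Pigeonhole for chromatic number. -/
theorem exists_class {ι : Type} [Fintype ι] (S : Set V) (h : V → ι) (b : ℕ)
    (hS : ¬ Col G S (Fintype.card ι * b)) : ∃ i, ¬ Col G {v | v ∈ S ∧ h v = i} b := by
  by_contra hcon
  push Not at hcon
  exact hS (col_of_classes S h b hcon)

theorem col_fibers (S : Set V) (l : V → ℕ) (b : ℕ)
    (hl : ∀ u ∈ S, ∀ v ∈ S, G.Adj u v → l u = l v)
    (h : ∀ n, Col G {v | v ∈ S ∧ l v = n} b) : Col G S b := by
  choose F hF hFp using h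
  refine ⟨fun v => F (l v) v, fun v hv => hF _ v ⟨hv, rfl⟩, ?_⟩
  intro u hu v hv huv
  have h1 := hl u hu v hv huv
  have := hFp (l u) u ⟨hu, rfl⟩ v ⟨hv, h1.symm⟩ huv
  simpa only [h1] using this

/-- If adjacent vertices lie in equal or consecutive layers and each layer is `b`-colourable then
the whole set is `2b`-colourable. -/
theorem col_layers (S : Set V) (l : V → ℕ) (b : ℕ)
    (hl : ∀ u ∈ S, ∀ v ∈ S, G.Adj u v → l v ≤ l u + 1)
    (h : ∀ n, Col G {v | v ∈ S ∧ l v = n} b) : Col G S (2 * b) := by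
  choose F hF hFp using h
  refine ⟨fun v => F (l v) v + (l v % 2) * b, ?_, ?_⟩
  · intro v hv
    have h1 := hF (l v) v ⟨hv, rfl⟩
    have h2 : l v % 2 < 2 := Nat.mod_lt _ (by norm_num)
    have h3 : l v % 2 * b ≤ 1 * b := Nat.mul_le_mul_right _ (by omega)
    show F (l v) v + (l v % 2) * b < 2 * b
    omega
  · intro u hu v hv huv
    have h1 := hl u hu v hv huv
    have h2 := hl v hv u hu huv.symm
    have hu1 := hF (l u) u ⟨hu, rfl⟩
    have hv1 := hF (l v) v ⟨hv, rfl⟩
    show F (l u) u + (l u % 2) * b ≠ F (l v) v + (l v % 2) * b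
    by_cases heq : l u = l v
    · have := hFp (l u) u ⟨hu, rfl⟩ v ⟨hv, heq.symm⟩ huv
      rw [← heq]
      omega
    · rcases Nat.mod_two_eq_zero_or_one (l u) with h3 | h3 <;>
        rcases Nat.mod_two_eq_zero_or_one (l v) with h4 | h4
      · omega
      · rw [h3, h4]; omega
      · rw [h3, h4]; omega
      · omega

/-! ### induced matchings across a cut -/

theorem IM.mono {Z Z' A : Set V} {n : ℕ} (h : IM G Z A n) (hZ : Z ⊆ Z') : IM G Z' A n := by
  obtain ⟨a, b, ha, hb, hab⟩ := h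
  exact ⟨a, b, fun i => ⟨hZ (ha i).1, (ha i).2⟩, fun i => ⟨hZ (hb i).1, (hb i).2⟩, hab⟩

theorem IM.of_le {Z A : Set V} {n m : ℕ} (h : IM G Z A m) (hnm : n ≤ m) : IM G Z A n := by
  obtain ⟨a, b, ha, hb, hab⟩ := h
  refine ⟨fun i => a (Fin.castLE hnm i), fun i => b (Fin.castLE hnm i), fun i => ha _,
    fun i => hb _, ?_⟩
  intro i j
  rw [hab]
  constructor
  · intro h; exact Fin.castLE_injective hnm h
  · intro h; rw [h]

theorem IM.cons {Z Z' A : Set V} {n : ℕ} (h : IM G Z' A n) (hZ : Z' ⊆ Z) {x y : V}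
    (hx : x ∈ Z) (hxA : x ∉ A) (hy : y ∈ Z) (hyA : y ∈ A) (hxy : G.Adj x y)
    (hx' : ∀ v ∈ Z', v ∈ A → ¬ G.Adj x v) (hy' : ∀ v ∈ Z', v ∉ A → ¬ G.Adj v y) :
    IM G Z A (n + 1) := by
  obtain ⟨a, b, ha, hb, hab⟩ := h
  refine ⟨Fin.cons x a, Fin.cons y b, ?_, ?_, ?_⟩
  · intro i
    refine Fin.cases ?_ ?_ i
    · exact ⟨hx, hxA⟩
    · intro i; simp only [Fin.cons_succ]; exact ⟨hZ (ha i).1, (ha i).2⟩
  · intro i
    refine Fin.cases ?_ ?_ i
    · exact ⟨hy, hyA⟩
    · intro i; simp only [Fin.cons_succ]; exact ⟨hZ (hb i).1, (hb i).2⟩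
  · intro i j
    refine Fin.cases ?_ ?_ i
    · refine Fin.cases ?_ ?_ j
      · simp [hxy]
      · intro j
        simp only [Fin.cons_zero, Fin.cons_succ]
        constructor
        · intro h; exact absurd h (hx' _ (hb j).1 (hb j).2)
        · intro h; exact absurd h (Fin.succ_ne_zero j).symm
    · intro i
      refine Fin.cases ?_ ?_ j
      · simp only [Fin.cons_zero, Fin.cons_succ]
        constructor
        · intro h; exact absurd h (hy' _ (ha i).1 (ha i).2)
        · intro h; exact absurd h (Fin.succ_ne_zero i)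
      · intro j
        simp only [Fin.cons_succ, hab, Fin.succ_inj]

theorem not_IM_of_subset {Z A : Set V} {n : ℕ} (h : Z ⊆ A) : ¬ IM G Z A (n + 1) := by
  rintro ⟨a, b, ha, hb, hab⟩
  exact (ha 0).2 (h (ha 0).1)

theorem not_IM_of_disjoint {Z A : Set V} {n : ℕ} (h : ∀ v ∈ Z, v ∉ A) : ¬ IM G Z A (n + 1) := by
  rintro ⟨a, b, ha, hb, hab⟩
  exact h _ (hb 0).1 (hb 0).2

theorem IM_one {Z A : Set V} {x y : V} (hx : x ∈ Z) (hxA : x ∉ A) (hy : y ∈ Z) (hyA : y ∈ A)
    (hxy : G.Adj x y) : IM G Z A 1 := by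
  refine ⟨fun _ => x, fun _ => y, fun _ => ⟨hx, hxA⟩, fun _ => ⟨hy, hyA⟩, ?_⟩
  intro i j
  simp [hxy, Subsingleton.elim i j]

/-- A finite set of outer vertices has a subset of at most `m` elements dominating the same inner
vertices, if there is no crossing induced matching of size `m + 1`. -/
theorem dominate {Z A : Set V} {m : ℕ} (hm : ¬ IM G Z A (m + 1)) (S : Finset V) (T : Set V)
    (hS : ∀ s ∈ S, s ∈ Z ∧ s ∉ A) (hT : ∀ t ∈ T, t ∈ Z ∧ t ∈ A) :
    ∃ S' : Finset V, S' ⊆ S ∧ S'.card ≤ m ∧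
      ∀ t ∈ T, (∃ s ∈ S, G.Adj s t) → ∃ s ∈ S', G.Adj s t := by
  classical
  have hex : ∃ n : ℕ, ∃ S' : Finset V, S' ⊆ S ∧ S'.card = n ∧
      ∀ t ∈ T, (∃ s ∈ S, G.Adj s t) → ∃ s ∈ S', G.Adj s t :=
    ⟨S.card, S, Finset.Subset.refl S, rfl, fun t _ h => h⟩
  obtain ⟨S', hS'S, hcard, hdom⟩ := Nat.find_spec hex
  refine ⟨S', hS'S, ?_, hdom⟩
  by_contra hlt
  push Not at hlt
  -- every element of `S'` has a private neighbour
  have hpriv : ∀ s ∈ S', ∃ t ∈ T, G.Adj s t ∧ ∀ s' ∈ S', s' ≠ s → ¬ G.Adj s' t := by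
    intro s hs
    by_contra hcon
    push Not at hcon
    have hmin := Nat.find_min' hex (m := (S'.erase s).card) ⟨S'.erase s,
      (Finset.erase_subset s S').trans hS'S, rfl, ?_⟩
    · rw [Finset.card_erase_of_mem hs] at hmin
      have : 0 < S'.card := Finset.card_pos.mpr ⟨s, hs⟩
      omega
    · intro t ht hst
      obtain ⟨s1, hs1, hadj⟩ := hdom t ht hst
      by_cases h1 : s1 = s
      · subst h1
        obtain ⟨s2, hs2, hne, hadj2⟩ := hcon t ht hadj
        exact ⟨s2, Finset.mem_erase.mpr ⟨hne, hs2⟩, hadj2⟩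
      · exact ⟨s1, Finset.mem_erase.mpr ⟨h1, hs1⟩, hadj⟩
  choose! p hpT hpadj hppriv using hpriv
  -- embed `Fin (m+1)` into `S'`
  let e := S'.equivFin.symm
  have hm1 : m + 1 ≤ S'.card := hlt
  let a : Fin (m + 1) → V := fun i => (e (Fin.castLE hm1 i)).1
  have ha : ∀ i, a i ∈ S' := fun i => (e (Fin.castLE hm1 i)).2
  have hinj : ∀ i j, a i = a j → i = j := by
    intro i j hij
    have := e.injective (Subtype.ext hij)
    exact Fin.castLE_injective hm1 this
  refine hm ⟨a, fun i => p (a i), fun i => hS _ (hS'S (ha i)), fun i => hT _ (hpT _ (ha i)), ?_⟩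
  intro i j
  constructor
  · intro h
    by_contra hne
    exact hppriv (a j) (ha j) (a i) (ha i) (fun heq => hne (hinj i j heq)) h
  · intro h; subst h; exact hpadj _ (ha i)

/-- The boundary of a side of a cut is cheap to colour. -/
theorem boundary_col [Fintype V] {Z A : Set V} {m c : ℕ} (hm : ¬ IM G Z A (m + 1))
    (hc : ∀ v ∈ Z, Col G {u | u ∈ Z ∧ G.Adj v u} c) :
    Col G {u | u ∈ Z ∧ u ∈ A ∧ ∃ v ∈ Z, v ∉ A ∧ G.Adj v u} (m * c) := by
  classical
  obtain ⟨S', hS', hcard, hdom⟩ := dominate hm (Finset.univ.filter fun v => v ∈ Z ∧ v ∉ A)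
    {u | u ∈ Z ∧ u ∈ A} (by intro s hs; simpa using hs) (by intro t ht; exact ht)
  have h1 := col_biUnion (G := G) S' (fun v => {u | u ∈ Z ∧ G.Adj v u}) c (by
    intro v hv
    have := hS' hv
    simp only [Finset.mem_filter, Finset.mem_univ, true_and] at this
    exact hc v this.1)
  refine (h1.mono ?_).mono_right (Nat.mul_le_mul_right c hcard)
  rintro u ⟨huZ, huA, v, hvZ, hvA, hvu⟩
  obtain ⟨s, hs, hsu⟩ := hdom u ⟨huZ, huA⟩ ⟨v, by simp [hvZ, hvA], hvu⟩
  simp only [Set.mem_iUnion, Set.mem_setOf_eq, exists_prop]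
  exact ⟨s, hs, huZ, hsu⟩

end Pool.Agent.Helper28.SW
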