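import Pool.Agent.Helper28.SWSeq2
import Pool.Agent.Helper94.SWRamsey

set_option autoImplicit false

namespace Pool.Agent.Helper28.SW

/-- Cliques in `Z` are small because neighbourhoods are cheap. -/
theorem clq_le {m c : ℕ} {V : Type} [Fintype V] [DecidableEq V] {G : SimpleGraph V}
    {F : Set (Finset V)} {Z : Set V} (hH : Hyp m c G F Z) {n : ℕ} (g : Fin n → V) (hg : Clq G g)
    (hgZ : ∀ i, g i ∈ Z) : n ≤ c + 1 := by
  match n, g, hg, hgZ with
  | 0, _, _, _ => omega
  | k + 1, g, hg, hgZ =>
    obtain ⟨f, hf, hfp⟩ := hH.nb (g 0) (hgZ 0)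
    have hmem : ∀ i : Fin k, g i.succ ∈ {u | u ∈ Z ∧ G.Adj (g 0) u} := fun i =>
      ⟨hgZ _, hg 0 i.succ (Fin.succ_ne_zero i).symm⟩
    have hinj : Function.Injective
        (fun i : Fin k => (⟨f (g i.succ), hf _ (hmem i)⟩ : Fin c)) := by
      intro i j hij
      by_contra hne
      have h1 : f (g i.succ) = f (g j.succ) := by simpa using hij
      exact hfp _ (hmem i) _ (hmem j) (hg _ _ (fun h => hne (Fin.succ_injective _ h))) h1
    have := Fintype.card_le_of_injective _ hinj
    simp only [Fintype.card_fin] at this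
    omega

section
variable {m c : ℕ} {V : Type} [Fintype V] [DecidableEq V] {G : SimpleGraph V}
    {F : Set (Finset V)} {Z : Set V} {r K : ℕ} {x : ℕ → V} {A : ℕ → Finset V} {D : ℕ → Set V}
    {P : ℕ → V → Fin (r + 1) → V} {S : ℕ → ℕ → ℕ → Finset V}

theorem SeqOK.A_anti (hF : Lam F) (h : SeqOK G F Z r K x A D P S) (hne : (D K).Nonempty)
    {a b : ℕ} (hab : a ≤ b) (hb : b < K) : A b ⊆ A a := by
  rcases Nat.eq_or_lt_of_le hab with heq | hlt
  · rw [heq]
  obtain ⟨v, hv⟩ := hne
  have hva : v ∈ A a := (h.2 a (by omega)).DA v (h.D_anti (by omega) le_rfl hv)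
  have hvb : v ∈ A b := (h.2 b hb).DA v (h.D_anti (by omega) le_rfl hv)
  rcases hF.laminar _ (h.2 a (by omega)).AF _ (h.2 b hb).AF with h1 | h1 | h1
  · exfalso
    have hx : x b ∈ A a := (h.2 a (by omega)).DA _ (h.D_anti (by omega) (by omega) (h.2 b hb).xD)
    exact (h.2 b hb).xA (h1 hx)
  · exact h1
  · exact absurd hvb (Finset.disjoint_left.mp h1 hva)

/-- `x k` is outside later nodes. -/
theorem SeqOK.x_notMem (hF : Lam F) (h : SeqOK G F Z r K x A D P S) (hne : (D K).Nonempty)
    {a b : ℕ} (hab : a ≤ b) (hb : b < K) : x a ∉ A b :=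
  fun hx => (h.2 a (by omega)).xA (h.A_anti hF hne hab hb hx)

/-- parents of a vertex of `D b` lie in all nodes before `b`. -/
theorem SeqOK.P_mem_A (h : SeqOK G F Z r K x A D P S) {k l b : ℕ} (hk : k < b)
    (hl : l < b) (hb : b ≤ K) {v : V} (hv : v ∈ D b) (i : Fin (r + 1)) : P k v i ∈ A l :=
  (h.2 l (by omega)).bd v (h.D_anti hl hb hv) _ (h.D_sub (by omega) (h.mem_P hk hb hv i))
    (h.adj_P hk hb hv i)

/-- `x k` is anticomplete to later sets. -/
theorem SeqOK.x_not_adj (h : SeqOK G F Z r K x A D P S) {k b : ℕ} (hk : k < b)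
    (hb : b ≤ K) {v : V} (hv : v ∈ D b) : ¬ G.Adj (x k) v :=
  (h.2 k (by omega)).nx v (h.D_anti hk hb hv)

end

open Classical in
/-- The label of a vertex of the clique `P n (P i v 0)` not adjacent to `x k`. -/
noncomputable def lab {V : Type} {r : ℕ} (G : SimpleGraph V) (x : ℕ → V)
    (P : ℕ → V → Fin (r + 1) → V) (v : V) (n i k : ℕ) : Option (Fin (r + 1)) :=
  if h : ∃ a, ¬ G.Adj (x k) (P n (P i v 0) a) then some h.choose else none

theorem lab_none {V : Type} {r : ℕ} {G : SimpleGraph V} {x : ℕ → V}
    {P : ℕ → V → Fin (r + 1) → V} {v : V} {n i k : ℕ} (h : lab G x P v n i k = none)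
    (a : Fin (r + 1)) : G.Adj (x k) (P n (P i v 0) a) := by
  unfold lab at h
  split_ifs at h with h1
  push Not at h1
  exact h1 a

theorem lab_some {V : Type} {r : ℕ} {G : SimpleGraph V} {x : ℕ → V}
    {P : ℕ → V → Fin (r + 1) → V} {v : V} {n i k : ℕ} {a : Fin (r + 1)}
    (h : lab G x P v n i k = some a) : ¬ G.Adj (x k) (P n (P i v 0) a) := by
  unfold lab at h
  split_ifs at h with h1
  have := h1.choose_spec
  rw [Option.some_inj] at h
  rwa [h] at this

open Classical in
/-- An outer vertex adjacent to `P k v 0`. -/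
noncomputable def zz {V : Type} {r : ℕ} (G : SimpleGraph V)
    (P : ℕ → V → Fin (r + 1) → V) (S : ℕ → ℕ → ℕ → Finset V) (v : V) (i k l : ℕ) : V :=
  if h : ∃ z ∈ S l i k, G.Adj z (P k v 0) then h.choose else v

theorem zz_spec {V : Type} {r : ℕ} {G : SimpleGraph V}
    {P : ℕ → V → Fin (r + 1) → V} {S : ℕ → ℕ → ℕ → Finset V} {v : V} {i k l : ℕ}
    (h : ∃ z ∈ S l i k, G.Adj z (P k v 0)) :
    zz G P S v i k l ∈ S l i k ∧ G.Adj (zz G P S v i k l) (P k v 0) := by
  unfold zz
  rw [dif_pos h]
  exact h.choose_spec

/-- The number of stars that gives a contradiction. -/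
noncomputable def NN (m c r : ℕ) : ℕ :=
  (Helper94.SWRamsey.ramsey4 (Bool × Bool × Option (Fin (r + 1)) × Bool)
    (3 * m + 3 * c + 10)).choose

set_option maxHeartbeats 1000000 in
theorem seq_contra {m c : ℕ} {V : Type} [Fintype V] [DecidableEq V] {G : SimpleGraph V}
    {F : Set (Finset V)} {Z : Set V} {r : ℕ} {x : ℕ → V} {A : ℕ → Finset V} {D : ℕ → Set V}
    {P : ℕ → V → Fin (r + 1) → V} {S : ℕ → ℕ → ℕ → Finset V}
    (hF : Lam F) (hH : Hyp m c G F Z) (h : SeqOK G F Z r (NN m c r) x A D P S) :
    ¬ (D (NN m c r)).Nonempty := by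
  classical
  intro hne
  set K := NN m c r with hK
  obtain ⟨v, hv⟩ := id hne
  have hram := (Helper94.SWRamsey.ramsey4 (Bool × Bool × Option (Fin (r + 1)) × Bool)
    (3 * m + 3 * c + 10)).choose_spec
  obtain ⟨e, hemono, helt, ⟨cA, cO, cJ, cW⟩, hcol⟩ := hram (fun n i k l =>
    (decide (G.Adj (x i) (P n v 0)), decide (P n (P i v 0) 0 ∈ A k), lab G x P v n i k,
      decide (G.Adj (zz G P S v i k l) (P n v 0))))
  change ∀ a, a < 3 * m + 3 * c + 10 → e a < K at helt
  set M := 3 * m + 3 * c + 10 with hM
  simp only [Prod.mk.injEq] at hcol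
  -- last node
  cases cA with
  | false =>
    have hA : ∀ a b, a < b → b + 2 < M → ¬ G.Adj (x (e b)) (P (e a) v 0) := by
      intro a b hab hb
      have := (hcol a b (b + 1) (b + 2) hab (by omega) (by omega) hb).1
      simpa using this
    have hlast : e m < K := helt m (by omega)
    refine hH.im (A (e m)) (h.2 _ hlast).AF
      ⟨fun q => x (e q), fun q => P (e q) v 0, ?_, ?_, ?_⟩
    · intro q
      have hq := q.2
      have h1 : e q < K := helt q (by omega)
      have h2 : e q ≤ e m := by
        rcases Nat.eq_or_lt_of_le (Nat.lt_succ_iff.mp hq) with h3 | h3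
        · rw [h3]
        · exact (hemono _ _ h3 (by omega)).le
      exact ⟨h.D_sub h1.le (h.2 _ h1).xD, h.x_notMem hF hne h2 hlast⟩
    · intro q
      have hq := q.2
      have h1 : e q < K := helt q (by omega)
      exact ⟨h.D_sub h1.le (h.mem_P h1 le_rfl hv 0), h.P_mem_A h1 hlast le_rfl hv 0⟩
    · intro q q'
      have hq := q.2
      have hq' := q'.2
      have h1 : e q < K := helt q (by omega)
      have h1' : e q' < K := helt q' (by omega)
      constructor
      · intro hadj
        by_contra hne'
        rcases Nat.lt_or_gt_of_ne (fun h2 => hne' (Fin.ext h2)) with h2 | h2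
        · have h3 := hemono q q' h2 (by omega)
          exact h.x_not_adj h3 h1'.le (h.mem_P h1' le_rfl hv 0) hadj
        · exact hA q' q h2 (by omega) hadj
      · intro heq
        subst heq
        exact (h.2 _ h1).Px v (h.D_anti h1 le_rfl hv) 0
  | true =>
  have hA : ∀ a b, a < b → b + 2 < M → G.Adj (x (e b)) (P (e a) v 0) := by
    intro a b hab hb
    have := (hcol a b (b + 1) (b + 2) hab (by omega) (by omega) hb).1
    simpa using this
  cases cO with
  | true =>
    have hO : ∀ a b d, a < b → b < d → d + 1 < M →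
        P (e a) (P (e b) v 0) 0 ∈ A (e d) := by
      intro a b d hab hbd hd
      have := (hcol a b d (d + 1) hab hbd (by omega) hd).2.1
      simpa using this
    have hO' : ∀ a b d, a < b → b < d → d + 1 < M → ∀ t,
        P (e a) (P (e b) v 0) t ∈ A (e d) := by
      intro a b d hab hbd hd t
      have hb : e b < K := helt b (by omega)
      have hd' : e d < K := helt d (by omega)
      have ha : e a < K := helt a (by omega)
      have hab' := hemono a b hab (by omega)
      have h1 : P (e b) v 0 ∈ D (e b) := h.mem_P hb le_rfl hv 0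
      exact (h.2 _ ha).Pf _ (h.D_anti hab' hb.le h1) _ (h.2 _ hd').AF
        (h.P_mem_A hb hd' le_rfl hv 0) (hO a b d hab hbd hd) t
    cases cJ with
    | none =>
      have hJ : ∀ a b d, a < b → b < d → d + 1 < M → ∀ t,
          G.Adj (x (e d)) (P (e a) (P (e b) v 0) t) := by
        intro a b d hab hbd hd t
        exact lab_none (hcol a b d (d + 1) hab hbd (by omega) hd).2.2.1 t
      have h0 : e 0 < K := helt 0 (by omega)
      have h1 : e 1 < K := helt 1 (by omega)
      have h2 : e 2 < K := helt 2 (by omega)
      have h3 : e 3 < K := helt 3 (by omega)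
      have h01 := hemono 0 1 (by omega) (by omega)
      have h12 := hemono 1 2 (by omega) (by omega)
      have h23 := hemono 2 3 (by omega) (by omega)
      have hx3 : x (e 3) ∈ D (e 2 + 1) := h.D_anti (by omega) h3.le (h.2 _ h3).xD
      have hy : P (e 1) v 0 ∈ D (e 1) := h.mem_P h1 le_rfl hv 0
      refine (h.2 _ h2).nc (x (e 3)) hx3
        ⟨Fin.cons (P (e 1) v 0) (P (e 0) (P (e 1) v 0)), ?_, ?_⟩
      · intro i j
        refine Fin.cases ?_ ?_ i
        · refine Fin.cases ?_ ?_ j
          · intro hij; exact absurd rfl hij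
          · intro j _
            simp only [Fin.cons_zero, Fin.cons_succ]
            exact h.adj_P h01 h1.le hy j
        · intro i
          refine Fin.cases ?_ ?_ j
          · intro _
            simp only [Fin.cons_zero, Fin.cons_succ]
            exact (h.adj_P h01 h1.le hy i).symm
          · intro j hij
            simp only [Fin.cons_succ]
            exact (h.2 _ h0).Pc _ (h.D_anti h01 h1.le hy) i j
              (fun h4 => hij (by rw [h4]))
      · intro i
        refine Fin.cases ?_ ?_ i
        · simp only [Fin.cons_zero]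
          exact ⟨h.D_sub h1.le hy, h.P_mem_A h1 h2 le_rfl hv 0, hA 1 2 (by omega) (by omega),
            hA 1 3 (by omega) (by omega)⟩
        · intro i
          simp only [Fin.cons_succ]
          exact ⟨h.D_sub h0.le (h.mem_P h01 h1.le hy i), hO' 0 1 2 (by omega) (by omega)
            (by omega) i, hJ 0 1 2 (by omega) (by omega) (by omega) i,
            hJ 0 1 3 (by omega) (by omega) (by omega) i⟩
    | some t =>
      have hJ : ∀ a b d, a < b → b < d → d + 1 < M →
          ¬ G.Adj (x (e d)) (P (e a) (P (e b) v 0) t) := by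
        intro a b d hab hbd hd
        exact lab_some (hcol a b d (d + 1) hab hbd (by omega) hd).2.2.1
      have hlast : e (2 * m + 2) < K := helt _ (by omega)
      refine hH.im (A (e (2 * m + 2))) (h.2 _ hlast).AF
        ⟨fun q => x (e (2 * q)), fun q => P (e (2 * q)) (P (e (2 * q + 1)) v 0) t, ?_, ?_, ?_⟩
      · intro q
        have hq := q.2
        have h1 : e (2 * q) < K := helt _ (by omega)
        exact ⟨h.D_sub h1.le (h.2 _ h1).xD,
          h.x_notMem hF hne (hemono _ _ (by omega) (by omega)).le hlast⟩
      · intro q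
        have hq := q.2
        have h1 : e (2 * q) < K := helt _ (by omega)
        have h2 : e (2 * q + 1) < K := helt _ (by omega)
        have h12 := hemono (2 * q) (2 * q + 1) (by omega) (by omega)
        have hy : P (e (2 * q + 1)) v 0 ∈ D (e (2 * q + 1)) := h.mem_P h2 le_rfl hv 0
        exact ⟨h.D_sub h1.le (h.mem_P h12 h2.le hy t),
          hO' _ _ _ (by omega) (by omega) (by omega) t⟩
      · intro q q'
        have hq := q.2
        have hq' := q'.2
        have h1 : e (2 * q) < K := helt _ (by omega)
        have h1' : e (2 * q') < K := helt _ (by omega)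
        have h2 : e (2 * q + 1) < K := helt _ (by omega)
        have h2' : e (2 * q' + 1) < K := helt _ (by omega)
        have h12 := hemono (2 * q) (2 * q + 1) (by omega) (by omega)
        have h12' := hemono (2 * q') (2 * q' + 1) (by omega) (by omega)
        have hy : P (e (2 * q + 1)) v 0 ∈ D (e (2 * q + 1)) := h.mem_P h2 le_rfl hv 0
        have hy' : P (e (2 * q' + 1)) v 0 ∈ D (e (2 * q' + 1)) := h.mem_P h2' le_rfl hv 0
        constructor
        · intro hadj
          by_contra hne'
          rcases Nat.lt_or_gt_of_ne (fun h2 => hne' (Fin.ext h2)) with h3 | h3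
          · exact h.x_not_adj (hemono (2 * q) (2 * q') (by omega) (by omega)) h1'.le
              (h.mem_P h12' h2'.le hy' t) hadj
          · exact hJ (2 * q') (2 * q' + 1) (2 * q) (by omega) (by omega) (by omega) hadj
        · intro heq
          subst heq
          exact (h.2 _ h1).Px _ (h.D_anti h12 h2.le hy) t
  | false =>
    have hO : ∀ a b d, a < b → b < d → d + 1 < M →
        P (e a) (P (e b) v 0) 0 ∉ A (e d) := by
      intro a b d hab hbd hd
      have := (hcol a b d (d + 1) hab hbd (by omega) hd).2.1
      simpa using this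
    have hz : ∀ a b d, a < b → b < d → d + 1 < M →
        zz G P S v (e a) (e b) (e d) ∈ S (e d) (e a) (e b) ∧
        G.Adj (zz G P S v (e a) (e b) (e d)) (P (e b) v 0) := by
      intro a b d hab hbd hd
      have hd' : e d < K := helt d (by omega)
      exact zz_spec ((h.2 _ hd').Sdom (e b) (hemono _ _ hbd (by omega)) (e a)
        (hemono _ _ hab (by omega)) v (h.D_anti hd' le_rfl hv) (hO a b d hab hbd hd))
    have hzZ : ∀ a b d, a < b → b < d → d + 1 < M → zz G P S v (e a) (e b) (e d) ∈ Z := by
      intro a b d hab hbd hd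
      have hd' : e d < K := helt d (by omega)
      have hb' : e b < K := helt b (by omega)
      have ha' : e a < K := helt a (by omega)
      have hab' := hemono _ _ hab (by omega)
      have hbd' := hemono _ _ hbd (by omega)
      obtain ⟨_, w, hw, hzw⟩ := (h.2 _ hd').Sout (e b) hbd' (e a) hab' _ (hz a b d hab hbd hd).1
      rw [hzw]
      exact h.D_sub ha'.le (h.mem_P hab' hb'.le (h.mem_P hbd' hd'.le hw 0) 0)
    cases cW with
    | false =>
      have hW : ∀ a b d f, a < b → b < d → d < f → f < M →
          ¬ G.Adj (zz G P S v (e b) (e d) (e f)) (P (e a) v 0) := by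
        intro a b d f hab hbd hdf hf
        have := (hcol a b d f hab hbd hdf hf).2.2.2
        simpa using this
      have hlast : e (3 * m + 2) < K := helt _ (by omega)
      refine hH.im (A (e (3 * m + 2))) (h.2 _ hlast).AF
        ⟨fun q => zz G P S v (e (3 * q)) (e (3 * q + 1)) (e (3 * q + 2)),
          fun q => P (e (3 * q + 1)) v 0, ?_, ?_, ?_⟩
      · intro q
        have hq := q.2
        have h3 : e (3 * q + 2) < K := helt _ (by omega)
        refine ⟨hzZ _ _ _ (by omega) (by omega) (by omega), ?_⟩
        intro hmem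
        have hle : e (3 * q + 2) ≤ e (3 * m + 2) := by
          rcases Nat.eq_or_lt_of_le (Nat.lt_succ_iff.mp hq) with h4 | h4
          · rw [h4]
          · exact (hemono _ _ (by omega) (by omega)).le
        have hmem' := h.A_anti hF hne hle hlast hmem
        exact ((h.2 _ h3).Sout (e (3 * q + 1)) (hemono _ _ (by omega) (by omega)) (e (3 * q))
          (hemono _ _ (by omega) (by omega)) _
          (hz _ _ _ (by omega) (by omega) (by omega)).1).1 hmem'
      · intro q
        have hq := q.2
        have h2 : e (3 * q + 1) < K := helt _ (by omega)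
        exact ⟨h.D_sub h2.le (h.mem_P h2 le_rfl hv 0), h.P_mem_A h2 hlast le_rfl hv 0⟩
      · intro q q'
        have hq := q.2
        have hq' := q'.2
        have h3 : e (3 * q + 2) < K := helt _ (by omega)
        have h2' : e (3 * q' + 1) < K := helt _ (by omega)
        constructor
        · intro hadj
          by_contra hne'
          rcases Nat.lt_or_gt_of_ne (fun h2 => hne' (Fin.ext h2)) with h4 | h4
          · have h5 := hemono (3 * q + 2) (3 * q' + 1) (by omega) (by omega)
            exact (h.2 _ h3).SnA (e (3 * q + 1)) (hemono _ _ (by omega) (by omega)) (e (3 * q))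
              (hemono _ _ (by omega) (by omega)) _
              (hz _ _ _ (by omega) (by omega) (by omega)).1 _
              (h.D_anti h5 h2'.le (h.mem_P h2' le_rfl hv 0)) hadj
          · exact hW (3 * q' + 1) (3 * q) (3 * q + 1) (3 * q + 2) (by omega) (by omega)
              (by omega) (by omega) hadj
        · intro heq
          subst heq
          exact (hz _ _ _ (by omega) (by omega) (by omega)).2
    | true =>
      have hW : ∀ a b d f, a < b → b < d → d < f → f < M →
          G.Adj (zz G P S v (e b) (e d) (e f)) (P (e a) v 0) := by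
        intro a b d f hab hbd hdf hf
        have := (hcol a b d f hab hbd hdf hf).2.2.2
        simpa using this
      -- a large clique
      let z : Fin (c + 2) → V := fun q =>
        zz G P S v (e (c + 1 - q)) (e (c + 2 + 2 * q)) (e (c + 3 + 2 * q))
      have key : ∀ q q' : Fin (c + 2), (q : ℕ) < q' → G.Adj (z q) (z q') := by
        intro q q' hqq
        have hq := q.2
        have hq' := q'.2
        have hi'K : e (c + 1 - q') < K := helt _ (by omega)
        have hk'K : e (c + 2 + 2 * q') < K := helt _ (by omega)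
        have hl'K : e (c + 3 + 2 * q') < K := helt _ (by omega)
        have hlK : e (c + 3 + 2 * q) < K := helt _ (by omega)
        have hi'i := hemono (c + 1 - q') (c + 1 - q) (by omega) (by omega)
        have hik := hemono (c + 1 - q) (c + 2 + 2 * q) (by omega) (by omega)
        have hkl := hemono (c + 2 + 2 * q) (c + 3 + 2 * q) (by omega) (by omega)
        have hlk' := hemono (c + 3 + 2 * q) (c + 2 + 2 * q') (by omega) (by omega)
        have hk'l' := hemono (c + 2 + 2 * q') (c + 3 + 2 * q') (by omega) (by omega)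
        obtain ⟨_, w, hw, hzw⟩ := (h.2 _ hl'K).Sout (e (c + 2 + 2 * q')) hk'l' (e (c + 1 - q'))
          (by omega) _ (hz (c + 1 - q') (c + 2 + 2 * q') (c + 3 + 2 * q') (by omega) (by omega)
            (by omega)).1
        show G.Adj (z q) (zz G P S v (e (c + 1 - q')) (e (c + 2 + 2 * q')) (e (c + 3 + 2 * q')))
        rw [hzw]
        have hy : P (e (c + 2 + 2 * q')) w 0 ∈ D (e (c + 2 + 2 * q')) :=
          h.mem_P hk'l' hl'K.le hw 0
        exact (h.2 _ hlK).Shom (e (c + 2 + 2 * q)) hkl (e (c + 1 - q)) hik _
          (hz (c + 1 - q) (c + 2 + 2 * q) (c + 3 + 2 * q) (by omega) (by omega) (by omega)).1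
          (e (c + 1 - q')) (by omega) v (h.D_anti hlK le_rfl hv) _
          (h.D_anti hlk' hk'K.le hy)
          (hW (c + 1 - q') (c + 1 - q) (c + 2 + 2 * q) (c + 3 + 2 * q) (by omega) (by omega)
            (by omega) (by omega))
      have hclq : Clq G z := by
        intro q q' hne'
        rcases Nat.lt_or_gt_of_ne (fun h2 => hne' (Fin.ext h2)) with h4 | h4
        · exact key q q' h4
        · exact (key q' q h4).symm
      have := clq_le hH z hclq (fun q => hzZ _ _ _ (by have := q.2; omega) (by omega)
        (by have := q.2; omega))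
      omega

end Pool.Agent.Helper28.SW
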