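import Pool.Agent.Helper28.SWCol

set_option autoImplicit false

namespace Pool.Agent.Helper28.SW

open Classical in
/-- Greedy partition of the line into intervals: the pair `(start of current interval, its index)`. -/
noncomputable def st {V : Type} (G : SimpleGraph V) (Z : Set V) (pos : V → ℕ) (M : ℕ) : ℕ → ℕ × ℕ
  | 0 => (0, 0)
  | a + 1 =>
    if Col G {v | v ∈ Z ∧ (st G Z pos M a).1 ≤ pos v ∧ pos v ≤ a + 1} M then st G Z pos M a
    else (a + 1, (st G Z pos M a).2 + 1)

section
variable {V : Type} {G : SimpleGraph V} {Z : Set V} {pos : V → ℕ} {M D : ℕ}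

theorem st_succ_of_col {a : ℕ}
    (h : Col G {v | v ∈ Z ∧ (st G Z pos M a).1 ≤ pos v ∧ pos v ≤ a + 1} M) :
    st G Z pos M (a + 1) = st G Z pos M a := by
  rw [st, if_pos h]

theorem st_succ_of_not_col {a : ℕ}
    (h : ¬ Col G {v | v ∈ Z ∧ (st G Z pos M a).1 ≤ pos v ∧ pos v ≤ a + 1} M) :
    st G Z pos M (a + 1) = (a + 1, (st G Z pos M a).2 + 1) := by
  rw [st, if_neg h]

theorem st_fst_le (a : ℕ) : (st G Z pos M a).1 ≤ a := by
  induction a with
  | zero => simp [st]
  | succ a ih =>
    by_cases h : Col G {v | v ∈ Z ∧ (st G Z pos M a).1 ≤ pos v ∧ pos v ≤ a + 1} M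
    · rw [st_succ_of_col h]; omega
    · rw [st_succ_of_not_col h]

theorem st_col (hD : ∀ a, Col G {v | v ∈ Z ∧ pos v = a} D) (a : ℕ) :
    Col G {v | v ∈ Z ∧ (st G Z pos M a).1 ≤ pos v ∧ pos v ≤ a} (max M D) := by
  cases a with
  | zero =>
    refine ((hD 0).mono ?_).mono_right (le_max_right _ _)
    rintro v ⟨hv, _, h⟩
    exact ⟨hv, by omega⟩
  | succ a =>
    by_cases h : Col G {v | v ∈ Z ∧ (st G Z pos M a).1 ≤ pos v ∧ pos v ≤ a + 1} M
    · rw [st_succ_of_col h]; exact h.mono_right (le_max_left _ _)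
    · rw [st_succ_of_not_col h]
      refine ((hD (a + 1)).mono ?_).mono_right (le_max_right _ _)
      rintro v ⟨hv, h1, h2⟩
      exact ⟨hv, by simp only at h1; omega⟩

theorem st_mono {a b : ℕ} (hab : a ≤ b) : (st G Z pos M a).2 ≤ (st G Z pos M b).2 := by
  induction b, hab using Nat.le_induction with
  | base => exact le_rfl
  | succ b _ ih =>
    by_cases h : Col G {v | v ∈ Z ∧ (st G Z pos M b).1 ≤ pos v ∧ pos v ≤ b + 1} M
    · rw [st_succ_of_col h]; exact ih
    · rw [st_succ_of_not_col h]; simp only; omega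

theorem st_eq {a b : ℕ} (hab : a ≤ b) (h2 : (st G Z pos M a).2 = (st G Z pos M b).2) :
    (st G Z pos M a).1 = (st G Z pos M b).1 := by
  induction b, hab using Nat.le_induction with
  | base => rfl
  | succ b hb ih =>
    by_cases h : Col G {v | v ∈ Z ∧ (st G Z pos M b).1 ≤ pos v ∧ pos v ≤ b + 1} M
    · rw [st_succ_of_col h] at h2 ⊢; exact ih h2
    · rw [st_succ_of_not_col h] at h2
      have := st_mono (G := G) (Z := Z) (pos := pos) (M := M) hb
      simp only at h2; omega

theorem st_lt {a b : ℕ} (hab : a ≤ b) (h2 : (st G Z pos M a).2 < (st G Z pos M b).2) :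
    a < (st G Z pos M b).1 := by
  induction b, hab using Nat.le_induction with
  | base => omega
  | succ b hb ih =>
    by_cases h : Col G {v | v ∈ Z ∧ (st G Z pos M b).1 ≤ pos v ∧ pos v ≤ b + 1} M
    · rw [st_succ_of_col h] at h2 ⊢; exact ih h2
    · rw [st_succ_of_not_col h]; simp only; omega

theorem st_jump {a b : ℕ} (hab : a ≤ b) (h2 : (st G Z pos M a).2 + 2 ≤ (st G Z pos M b).2) :
    ∃ s e, a < s ∧ e ≤ b ∧ ¬ Col G {v | v ∈ Z ∧ s ≤ pos v ∧ pos v ≤ e} M := by
  induction b, hab using Nat.le_induction with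
  | base => omega
  | succ b hb ih =>
    by_cases h : Col G {v | v ∈ Z ∧ (st G Z pos M b).1 ≤ pos v ∧ pos v ≤ b + 1} M
    · rw [st_succ_of_col h] at h2
      obtain ⟨s, e, h3, h4, h5⟩ := ih h2
      exact ⟨s, e, h3, by omega, h5⟩
    · rw [st_succ_of_not_col h] at h2
      simp only at h2
      exact ⟨(st G Z pos M b).1, b + 1, st_lt hb (by omega), le_rfl, h⟩

end

/-- Bounded crossing matchings along a linear arrangement of cheap groups, together with cheap
neighbourhoods, bound the chromatic number. -/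
theorem linear_bound (c D : ℕ) : ∀ k : ℕ, ∃ F : ℕ, ∀ (V : Type) [Finite V] (G : SimpleGraph V)
    (Z : Set V) (pos : V → ℕ),
    (∀ v ∈ Z, Col G {u | u ∈ Z ∧ G.Adj v u} c) →
    (∀ a, Col G {v | v ∈ Z ∧ pos v = a} D) →
    (∀ a, ¬ IM G Z {v | pos v ≤ a} (k + 1)) → Col G Z F := by
  intro k
  induction k with
  | zero =>
    refine ⟨D, ?_⟩
    intro V _ G Z pos hc hD hIM
    refine col_fibers Z pos D ?_ hD
    have key : ∀ u ∈ Z, ∀ v ∈ Z, G.Adj u v → ¬ pos u < pos v := by
      intro u hu v hv huv hlt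
      refine hIM (pos u) (IM_one (x := v) (y := u) hv ?_ hu ?_ huv.symm)
      · show ¬ pos v ≤ pos u; omega
      · show pos u ≤ pos u; exact le_rfl
    intro u hu v hv huv
    have h1 := key u hu v hv huv
    have h2 := key v hv u hu huv.symm
    omega
  | succ k ih =>
    obtain ⟨F', hF'⟩ := ih
    refine ⟨2 * max (F' + 2 * c) D, ?_⟩
    intro V _ G Z pos hc hD hIM
    set M := F' + 2 * c with hM
    refine col_layers Z (fun v => (st G Z pos M (pos v)).2) _ ?_ ?_
    · intro u hu v hv huv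
      by_contra hcon
      have hcon2 : (st G Z pos M (pos u)).2 + 2 ≤ (st G Z pos M (pos v)).2 := by
        omega
      have huv' : pos u ≤ pos v := by
        by_contra h
        have := st_mono (G := G) (Z := Z) (pos := pos) (M := M) (a := pos v) (b := pos u)
          (by omega)
        omega
      obtain ⟨s, e, hs, he, hJ⟩ := st_jump huv' hcon2
      have hJ' : ¬ Col G {w | (w ∈ Z ∧ s ≤ pos w ∧ pos w ≤ e) ∧ ¬ G.Adj u w ∧ ¬ G.Adj v w} F' := by
        intro hcol
        apply hJ
        have h1 := (hcol.union (hc u hu)).union (hc v hv)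
        refine (h1.mono ?_).mono_right (by omega)
        intro w hw
        by_cases h2 : G.Adj u w
        · exact Or.inl (Or.inr ⟨hw.1, h2⟩)
        · by_cases h3 : G.Adj v w
          · exact Or.inr ⟨hw.1, h3⟩
          · exact Or.inl (Or.inl ⟨hw, h2, h3⟩)
      have hex : ∃ a, IM G {w | (w ∈ Z ∧ s ≤ pos w ∧ pos w ≤ e) ∧ ¬ G.Adj u w ∧ ¬ G.Adj v w}
          {w | pos w ≤ a} (k + 1) := by
        by_contra hno
        push Not at hno
        refine hJ' (hF' V G _ pos ?_ ?_ hno)
        · intro w hw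
          exact (hc w hw.1.1).mono (fun x hx => ⟨hx.1.1.1, hx.2⟩)
        · intro a
          exact (hD a).mono (fun x hx => ⟨hx.1.1.1, hx.2⟩)
      obtain ⟨a, hIMa⟩ := hex
      have ha1 : a < pos v := by
        obtain ⟨f, g, hf, hg, _⟩ := hIMa
        have h1 := (hf 0).2
        have h2 := (hf 0).1.1.2.2
        have h3 : ¬ pos (f 0) ≤ a := h1
        omega
      have ha2 : pos u ≤ a := by
        obtain ⟨f, g, hf, hg, _⟩ := hIMa
        have h1 : pos (g 0) ≤ a := (hg 0).2
        have h2 := (hg 0).1.1.2.1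
        omega
      refine hIM a (IM.cons hIMa (fun w hw => hw.1.1) (x := v) (y := u) hv ?_ hu ?_ huv.symm ?_ ?_)
      · show ¬ pos v ≤ a; omega
      · exact ha2
      · intro w hw _; exact hw.2.2
      · intro w hw _ h; exact hw.2.1 h.symm
    · intro n
      by_cases hne : ({v | v ∈ Z ∧ (st G Z pos M (pos v)).2 = n} : Set V).Nonempty
      · obtain ⟨v0, hv0, hmax⟩ := Set.exists_max_image _ pos (Set.toFinite _) hne
        refine (st_col (M := M) hD (pos v0)).mono ?_
        intro v hv
        have h1 := hmax v hv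
        have h2 := st_eq (G := G) (Z := Z) (pos := pos) (M := M) h1 (hv.2.trans hv0.2.symm)
        refine ⟨hv.1, ?_, h1⟩
        rw [← h2]
        exact st_fst_le _
      · rw [Set.not_nonempty_iff_eq_empty] at hne
        simp only [hne]
        exact col_empty _

end Pool.Agent.Helper28.SW
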