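import Pool.Agent.Helper28.SWFinal

set_option autoImplicit false

namespace Pool.Agent.Helper28.SW

theorem univ_succ {m c j r : ℕ} (hU : UJ m c j (r + 1)) : UJ m c j (r + 2) := by
  intro κ τ₀
  obtain ⟨Λ, hΛ⟩ := seq_exists (κ := κ) (τ₀ := τ₀) hU (NN m c r) 0
  refine ⟨Λ, ?_⟩
  intro V _ _ G F Z hF hH hJ hcol
  by_contra hstar
  obtain ⟨x, A, D, P, S, hseq, hne⟩ := hΛ V G F Z hF hH hJ hstar hcol
  exact seq_contra hF hH hseq (nonempty_of_not_col hne)

theorem univ_all {m c J : ℕ} (hSJ : SJ m c J) : ∀ r : ℕ, UJ m c (J + 1) (r + 1) := by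
  intro r
  induction r with
  | zero => exact star_base hSJ
  | succ r ih => exact univ_succ ih

theorem SJ_succ {m c J : ℕ} (hSJ : SJ m c J) : SJ m c (J + 1) := by
  intro κ
  obtain ⟨Λ, hΛ⟩ := univ_all hSJ (c + 1) κ 0
  refine ⟨Λ, ?_⟩
  intro V _ _ G F Z hF hH hJ
  by_contra hcol
  obtain ⟨x, hx, A, hA, hxA, C, hC, hCcol, hCg⟩ := hΛ V G F Z hF hH hJ hcol
  obtain ⟨v, hv⟩ := nonempty_of_not_col hCcol
  obtain ⟨g, hg, hgZ⟩ := hCg v hv
  have := clq_le hH g hg (fun i => (hgZ i).1)
  omega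

theorem SJ_all (m c : ℕ) : ∀ j : ℕ, SJ m c j := by
  intro j
  induction j with
  | zero => exact SJ_zero m c
  | succ j ih => exact SJ_succ ih

/-- Bounded maximum crossing induced matchings and bounded clique number bound the chromatic
number. -/
theorem mim_bound (m : ℕ) : ∀ w : ℕ, ∃ B : ℕ, ∀ (V : Type) [Fintype V] [DecidableEq V]
    (G : SimpleGraph V) (F : Set (Finset V)) (Z : Set V), Lam F →
    (∀ A ∈ F, ¬ IM G Z (A : Set V) (m + 1)) →
    (¬ ∃ g : Fin w → V, Clq G g ∧ ∀ i, g i ∈ Z) → Col G Z B := by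
  intro w
  induction w with
  | zero =>
    refine ⟨0, ?_⟩
    intro V _ _ G F Z _ _ hno
    exact absurd ⟨Fin.elim0, fun i => i.elim0, fun i => i.elim0⟩ hno
  | succ w ih =>
    obtain ⟨c, hc⟩ := ih
    obtain ⟨B, hB⟩ := SJ_all m c m 0
    refine ⟨B, ?_⟩
    intro V _ _ G F Z hF hIM hno
    refine hB V G F Z hF ⟨?_, hIM⟩ (fun A hA _ => hIM A hA)
    intro v hv
    refine hc V G F _ hF (fun A hA h => hIM A hA (h.mono fun u hu => hu.1)) ?_
    rintro ⟨g, hg, hgZ⟩
    refine hno ⟨Fin.cons v g, ?_, ?_⟩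
    · intro i j
      refine Fin.cases ?_ ?_ i
      · refine Fin.cases ?_ ?_ j
        · intro hij; exact absurd rfl hij
        · intro j _
          simp only [Fin.cons_zero, Fin.cons_succ]
          exact (hgZ j).2
      · intro i
        refine Fin.cases ?_ ?_ j
        · intro _
          simp only [Fin.cons_zero, Fin.cons_succ]
          exact (hgZ i).2.symm
        · intro j hij
          simp only [Fin.cons_succ]
          exact hg i j (fun h4 => hij (by rw [h4]))
    · intro i
      refine Fin.cases ?_ ?_ i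
      · simpa using hv
      · intro i
        simp only [Fin.cons_succ]
        exact (hgZ i).1

/-- Ramsey reduction from crossing matchings induced in the cut to crossing matchings induced in
the graph. -/
theorem ramsey_matching (k w : ℕ) : ∃ N : ℕ, ∀ (V : Type) (G : SimpleGraph V) (A : Set V),
    IM G Set.univ A N →
    (∃ g : Fin (w + 1) → V, Clq G g) ∨
    ∃ a b : Fin (k + 1) → V, (∀ i, a i ∉ A) ∧ (∀ i, b i ∈ A) ∧
      (∀ i j, G.Adj (a i) (b j) ↔ i = j) ∧
      (∀ i j, i ≠ j → ¬ G.Adj (a i) (a j)) ∧ (∀ i j, i ≠ j → ¬ G.Adj (b i) (b j)) := by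
  classical
  obtain ⟨N, hN⟩ := Helper94.SWRamsey.ramsey2 (Bool × Bool) (k + w + 1)
  refine ⟨N, ?_⟩
  intro V G A hIM
  obtain ⟨a, b, ha, hb, hab⟩ := hIM
  obtain ⟨h, hmono, hlt, ⟨c1, c2⟩, hcol⟩ := hN (fun i j =>
    (decide (∃ (hi : i < N) (hj : j < N), G.Adj (a ⟨i, hi⟩) (a ⟨j, hj⟩)),
      decide (∃ (hi : i < N) (hj : j < N), G.Adj (b ⟨i, hi⟩) (b ⟨j, hj⟩))))
  simp only [Prod.mk.injEq] at hcol
  have hinj : ∀ i j : ℕ, i < k + w + 1 → j < k + w + 1 → h i = h j → i = j := by
    intro i j hi hj hij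
    rcases Nat.lt_trichotomy i j with h1 | h1 | h1
    · have := hmono i j h1 hj; omega
    · exact h1
    · have := hmono j i h1 hi; omega
  cases c1 with
  | true =>
    left
    refine ⟨fun i => a ⟨h i, hlt i (by omega)⟩, ?_⟩
    have key : ∀ i j : Fin (w + 1), (i : ℕ) < j →
        G.Adj (a ⟨h i, hlt i (by omega)⟩) (a ⟨h j, hlt j (by omega)⟩) := by
      intro i j hij
      have := (hcol i j hij (by omega)).1
      rw [decide_eq_true_eq] at this
      obtain ⟨_, _, hadj⟩ := this
      exact hadj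
    intro i j hij
    rcases Nat.lt_or_gt_of_ne (fun h2 => hij (Fin.ext h2)) with h4 | h4
    · exact key i j h4
    · exact (key j i h4).symm
  | false =>
  cases c2 with
  | true =>
    left
    refine ⟨fun i => b ⟨h i, hlt i (by omega)⟩, ?_⟩
    have key : ∀ i j : Fin (w + 1), (i : ℕ) < j →
        G.Adj (b ⟨h i, hlt i (by omega)⟩) (b ⟨h j, hlt j (by omega)⟩) := by
      intro i j hij
      have := (hcol i j hij (by omega)).2
      rw [decide_eq_true_eq] at this
      obtain ⟨_, _, hadj⟩ := this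
      exact hadj
    intro i j hij
    rcases Nat.lt_or_gt_of_ne (fun h2 => hij (Fin.ext h2)) with h4 | h4
    · exact key i j h4
    · exact (key j i h4).symm
  | false =>
    right
    refine ⟨fun i => a ⟨h i, hlt i (by omega)⟩, fun i => b ⟨h i, hlt i (by omega)⟩,
      fun i => (ha _).2, fun i => (hb _).2, ?_, ?_, ?_⟩
    · intro i j
      rw [hab]
      constructor
      · intro h1
        exact Fin.ext (hinj i j (by omega) (by omega) (by simpa using h1))
      · intro h1; rw [h1]
    · have key : ∀ i j : Fin (k + 1), (i : ℕ) < j →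
          ¬ G.Adj (a ⟨h i, hlt i (by omega)⟩) (a ⟨h j, hlt j (by omega)⟩) := by
        intro i j hij hadj
        have := (hcol i j hij (by omega)).1
        rw [decide_eq_false_iff_not] at this
        exact this ⟨_, _, hadj⟩
      intro i j hij
      rcases Nat.lt_or_gt_of_ne (fun h2 => hij (Fin.ext h2)) with h4 | h4
      · exact key i j h4
      · exact fun hadj => key j i h4 hadj.symm
    · have key : ∀ i j : Fin (k + 1), (i : ℕ) < j →
          ¬ G.Adj (b ⟨h i, hlt i (by omega)⟩) (b ⟨h j, hlt j (by omega)⟩) := by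
        intro i j hij hadj
        have := (hcol i j hij (by omega)).2
        rw [decide_eq_false_iff_not] at this
        exact this ⟨_, _, hadj⟩
      intro i j hij
      rcases Nat.lt_or_gt_of_ne (fun h2 => hij (Fin.ext h2)) with h4 | h4
      · exact key i j h4
      · exact fun hadj => key j i h4 hadj.symm

end Pool.Agent.Helper28.SW
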