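import Pool.Agent.Helper28.SWStar2

set_option autoImplicit false

namespace Pool.Agent.Helper28.SW

/-- Any clique can be relabelled so that its label `0` is the first vertex separated from `v`. -/
theorem first_out {V : Type} [Fintype V] [DecidableEq V] {G : SimpleGraph V}
    {F : Set (Finset V)} (hF : Lam F) (v : V) {r : ℕ} (g : Fin (r + 1) → V) (hg : Clq G g)
    (Q : V → Prop) (hQ : ∀ i, Q (g i)) :
    ∃ g' : Fin (r + 1) → V, Clq G g' ∧ (∀ i, Q (g' i)) ∧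
      ∀ B ∈ F, v ∈ B → g' 0 ∈ B → ∀ i, g' i ∈ B := by
  obtain ⟨i0, _, hmax⟩ := Finset.exists_max_image (Finset.univ : Finset (Fin (r + 1)))
    (fun i => posn F v (g i)) ⟨0, Finset.mem_univ 0⟩
  refine ⟨fun i => g (Equiv.swap 0 i0 i), ?_, fun i => hQ _, ?_⟩
  · intro i j hij
    exact hg _ _ (fun h => hij ((Equiv.swap 0 i0).injective h))
  · intro B hB hvB h0 i
    have h0' : g i0 ∈ B := by simpa using h0
    have h1 := posn_le hB hvB h0'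
    have h2 := hmax (Equiv.swap 0 i0 i) (Finset.mem_univ _)
    obtain ⟨A, hA, hvA, hgA, hcard⟩ := posn_spec hF v (g (Equiv.swap 0 i0 i))
    refine hF.eq_of_card hB hA hvB hvA ?_ hgA
    omega

/-- The properties of the `k`-th star of the sequence. `D` is the current set, `D'` the next one,
`Pk` the new parent cliques, `P` the parent cliques of the earlier stars. -/
structure Step {V : Type} [Fintype V] [DecidableEq V] (G : SimpleGraph V) (F : Set (Finset V))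
    (Z : Set V) (r k : ℕ) (x : V) (A : Finset V) (D D' : Set V) (Pk : V → Fin (r + 1) → V)
    (P : ℕ → V → Fin (r + 1) → V) (S : ℕ → ℕ → Finset V) : Prop where
  xD : x ∈ D
  AF : A ∈ F
  xA : x ∉ A
  DD : D' ⊆ D
  DA : ∀ v ∈ D', v ∈ A
  nx : ∀ v ∈ D', ¬ G.Adj x v
  bd : ∀ v ∈ D', ∀ u ∈ Z, G.Adj v u → u ∈ A
  PD : ∀ v ∈ D', ∀ i, Pk v i ∈ D
  Px : ∀ v ∈ D', ∀ i, G.Adj x (Pk v i)
  Pv : ∀ v ∈ D', ∀ i, G.Adj v (Pk v i)
  Pc : ∀ v ∈ D', Clq G (Pk v)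
  Pf : ∀ v ∈ D', ∀ B ∈ F, v ∈ B → Pk v 0 ∈ B → ∀ i, Pk v i ∈ B
  nc : ∀ v ∈ D', ¬ ∃ g : Fin (r + 2) → V, Clq G g ∧
    ∀ i, g i ∈ Z ∧ g i ∈ A ∧ G.Adj x (g i) ∧ G.Adj v (g i)
  Sdom : ∀ k' < k, ∀ i < k', ∀ v ∈ D', P i (P k' v 0) 0 ∉ A → ∃ z ∈ S i k', G.Adj z (P k' v 0)
  Sout : ∀ k' < k, ∀ i < k', ∀ z ∈ S i k', z ∉ A ∧ ∃ v ∈ D, z = P i (P k' v 0) 0
  SnA : ∀ k' < k, ∀ i < k', ∀ z ∈ S i k', ∀ v ∈ D', ¬ G.Adj z v
  Shom : ∀ k' < k, ∀ i < k', ∀ z ∈ S i k', ∀ n < k, ∀ v ∈ D', ∀ w ∈ D',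
    G.Adj z (P n v 0) → G.Adj z (P n w 0)

theorem Step.congr {V : Type} [Fintype V] [DecidableEq V] {G : SimpleGraph V}
    {F : Set (Finset V)} {Z : Set V} {r k : ℕ} {x : V} {A : Finset V} {D D' : Set V}
    {Pk : V → Fin (r + 1) → V} {P P' : ℕ → V → Fin (r + 1) → V} {S : ℕ → ℕ → Finset V}
    (h : Step G F Z r k x A D D' Pk P S) (hP : ∀ i < k, P' i = P i) :
    Step G F Z r k x A D D' Pk P' S := by
  refine ⟨h.xD, h.AF, h.xA, h.DD, h.DA, h.nx, h.bd, h.PD, h.Px, h.Pv, h.Pc, h.Pf, h.nc,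
    ?_, ?_, h.SnA, ?_⟩
  · intro k' hk' i hi v hv
    rw [hP i (by omega), hP k' hk']
    exact h.Sdom k' hk' i hi v hv
  · intro k' hk' i hi z hz
    rw [hP i (by omega), hP k' hk']
    exact h.Sout k' hk' i hi z hz
  · intro k' hk' i hi z hz n hn
    rw [hP n hn]
    exact h.Shom k' hk' i hi z hz n hn

/-- A nested sequence of `K` stars. -/
def SeqOK {V : Type} [Fintype V] [DecidableEq V] (G : SimpleGraph V) (F : Set (Finset V))
    (Z : Set V) (r K : ℕ) (x : ℕ → V) (A : ℕ → Finset V) (D : ℕ → Set V)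
    (P : ℕ → V → Fin (r + 1) → V) (S : ℕ → ℕ → ℕ → Finset V) : Prop :=
  D 0 = Z ∧ ∀ k < K, Step G F Z r k (x k) (A k) (D k) (D (k + 1)) (P k) P (S k)

theorem SeqOK.D_anti {V : Type} [Fintype V] [DecidableEq V] {G : SimpleGraph V}
    {F : Set (Finset V)} {Z : Set V} {r K : ℕ} {x : ℕ → V} {A : ℕ → Finset V} {D : ℕ → Set V}
    {P : ℕ → V → Fin (r + 1) → V} {S : ℕ → ℕ → ℕ → Finset V}
    (h : SeqOK G F Z r K x A D P S) {a b : ℕ} (hab : a ≤ b) (hb : b ≤ K) : D b ⊆ D a := by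
  induction b, hab using Nat.le_induction with
  | base => exact Set.Subset.refl _
  | succ b _ ih => exact ((h.2 b (by omega)).DD).trans (ih (by omega))

theorem SeqOK.D_sub {V : Type} [Fintype V] [DecidableEq V] {G : SimpleGraph V}
    {F : Set (Finset V)} {Z : Set V} {r K : ℕ} {x : ℕ → V} {A : ℕ → Finset V} {D : ℕ → Set V}
    {P : ℕ → V → Fin (r + 1) → V} {S : ℕ → ℕ → ℕ → Finset V}
    (h : SeqOK G F Z r K x A D P S) {b : ℕ} (hb : b ≤ K) : D b ⊆ Z := by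
  have := h.D_anti (Nat.zero_le b) hb
  rwa [h.1] at this

end Pool.Agent.Helper28.SW
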