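import Pool.Agent.Helper28.SWSeq

set_option autoImplicit false

namespace Pool.Agent.Helper28.SW

section
variable {V : Type} [Fintype V] [DecidableEq V] {G : SimpleGraph V}
    {F : Set (Finset V)} {Z : Set V} {r K : ℕ} {x : ℕ → V} {A : ℕ → Finset V} {D : ℕ → Set V}
    {P : ℕ → V → Fin (r + 1) → V} {S : ℕ → ℕ → ℕ → Finset V}

theorem SeqOK.mem_P (h : SeqOK G F Z r K x A D P S) {k b : ℕ} (hk : k < b) (hb : b ≤ K) {v : V}
    (hv : v ∈ D b) (i : Fin (r + 1)) : P k v i ∈ D k :=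
  (h.2 k (by omega)).PD v (h.D_anti hk hb hv) i

theorem SeqOK.adj_P (h : SeqOK G F Z r K x A D P S) {k b : ℕ} (hk : k < b) (hb : b ≤ K) {v : V}
    (hv : v ∈ D b) (i : Fin (r + 1)) : G.Adj v (P k v i) :=
  (h.2 k (by omega)).Pv v (h.D_anti hk hb hv) i

end

/-- The heaviness needed in order to extend a sequence of length `K`. -/
def need (m c τ₀ K τ : ℕ) : ℕ :=
  (((2 ^ (K * (K * K * m)) * τ + K * K * m * c) + τ₀) + c) + m * c

theorem step_exists {m c r τ₀ τ : ℕ} {V : Type} [Fintype V] [DecidableEq V] {G : SimpleGraph V}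
    {F : Set (Finset V)} {Z : Set V} {K : ℕ} {x : ℕ → V} {A : ℕ → Finset V} {D : ℕ → Set V}
    {P : ℕ → V → Fin (r + 1) → V} {S : ℕ → ℕ → ℕ → Finset V}
    (hF : Lam F) (hH : Hyp m c G F Z) (hstar : ¬ Star G F Z (r + 2) τ₀)
    (h : SeqOK G F Z r K x A D P S) (hst : Star G F (D K) (r + 1) (need m c τ₀ K τ)) :
    ∃ (xn : V) (An : Finset V) (Dn : Set V) (Pn : V → Fin (r + 1) → V) (Sn : ℕ → ℕ → Finset V),
      Step G F Z r K xn An (D K) Dn Pn P Sn ∧ ¬ Col G Dn τ := by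
  classical
  obtain ⟨x', hx', A', hA', hxA', C, hC, hCcol, hCg⟩ := hst
  haveI : Nonempty V := ⟨x'⟩
  have hDZ : D K ⊆ Z := h.D_sub le_rfl
  -- first cleaning
  set C1 : Set V := {v | v ∈ C ∧ (∀ u ∈ Z, G.Adj v u → u ∈ A') ∧ ¬ G.Adj x' v ∧
    ¬ ∃ g : Fin (r + 2) → V, Clq G g ∧ ∀ i, g i ∈ Z ∧ g i ∈ A' ∧ G.Adj x' (g i) ∧ G.Adj v (g i)}
    with hC1def
  have hC1 : ¬ Col G C1 (2 ^ (K * (K * K * m)) * τ + K * K * m * c) := by
    intro hcol
    apply hCcol
    have h1 : Col G {v | v ∈ C ∧ ∃ g : Fin (r + 2) → V, Clq G g ∧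
        ∀ i, g i ∈ Z ∧ g i ∈ A' ∧ G.Adj x' (g i) ∧ G.Adj v (g i)} τ₀ := by
      by_contra hno
      exact hstar ⟨x', hDZ hx', A', hA', hxA', _,
        fun v hv => ⟨hDZ (hC v hv.1).1, (hC v hv.1).2⟩, hno, fun v hv => hv.2⟩
    have h2 := hH.nb x' (hDZ hx')
    have h3 := boundary_col (hH.im A' hA') hH.nb
    refine (((hcol.union h1).union h2).union h3).mono ?_
    intro v hv
    by_cases hb : ∀ u ∈ Z, G.Adj v u → u ∈ A'
    · by_cases hx : G.Adj x' v
      · exact Or.inl (Or.inr ⟨hDZ (hC v hv).1, hx⟩)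
      · by_cases hg : ∃ g : Fin (r + 2) → V, Clq G g ∧
            ∀ i, g i ∈ Z ∧ g i ∈ A' ∧ G.Adj x' (g i) ∧ G.Adj v (g i)
        · exact Or.inl (Or.inl (Or.inr ⟨hv, hg⟩))
        · exact Or.inl (Or.inl (Or.inl ⟨hv, hb, hx, hg⟩))
    · push Not at hb
      obtain ⟨u, hu, hvu, huA⟩ := hb
      exact Or.inr ⟨hDZ (hC v hv).1, (hC v hv).2, u, hu, huA, hvu.symm⟩
  have hC1D : ∀ v ∈ C1, v ∈ D K := fun v hv => (hC v hv.1).1
  -- the parent cliques
  have hg : ∀ v, v ∈ C1 → ∃ g : Fin (r + 1) → V, Clq G g ∧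
      (∀ i, g i ∈ D K ∧ g i ∈ A' ∧ G.Adj x' (g i) ∧ G.Adj v (g i)) ∧
      ∀ B ∈ F, v ∈ B → g 0 ∈ B → ∀ i, g i ∈ B := by
    intro v hv
    obtain ⟨g, hg1, hg2⟩ := hCg v hv.1
    obtain ⟨g', h1, h2, h3⟩ := first_out hF v g hg1
      (fun u => u ∈ D K ∧ u ∈ A' ∧ G.Adj x' u ∧ G.Adj v u) hg2
    exact ⟨g', h1, h2, h3⟩
  choose! Pn hPn1 hPn2 hPn3 using hg
  -- the dominating sets
  have hS : ∀ i k' : ℕ, ∃ S' : Finset V,
      S' ⊆ (Finset.univ.filter fun z => z ∈ Z ∧ z ∉ A' ∧ ∃ v ∈ C1, z = P i (P k' v 0) 0) ∧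
      S'.card ≤ m ∧ ∀ t ∈ {t : V | t ∈ Z ∧ t ∈ A'},
        (∃ s ∈ (Finset.univ.filter fun z => z ∈ Z ∧ z ∉ A' ∧ ∃ v ∈ C1, z = P i (P k' v 0) 0),
          G.Adj s t) → ∃ s ∈ S', G.Adj s t := by
    intro i k'
    refine dominate (hH.im A' hA') _ _ ?_ ?_
    · intro s hs
      simp only [Finset.mem_filter, Finset.mem_univ, true_and] at hs
      exact ⟨hs.1, hs.2.1⟩
    · intro t ht; exact ht
  choose Sn hSn1 hSn2 hSn3 using hS
  have hSn1' : ∀ i k' z, z ∈ Sn i k' → z ∈ Z ∧ z ∉ A' ∧ ∃ v ∈ C1, z = P i (P k' v 0) 0 := by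
    intro i k' z hz
    have := hSn1 i k' hz
    simpa only [Finset.mem_filter, Finset.mem_univ, true_and] using this
  set SS : Finset V := (Finset.range K ×ˢ Finset.range K).biUnion (fun p => Sn p.1 p.2) with hSS
  have hSScard : SS.card ≤ K * K * m := by
    refine Finset.card_biUnion_le.trans ?_
    refine (Finset.sum_le_card_nsmul _ _ m (fun p _ => hSn2 p.1 p.2)).trans ?_
    rw [Finset.card_product, Finset.card_range, smul_eq_mul]
  have hSSZ : ∀ z ∈ SS, z ∈ Z := by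
    intro z hz
    rw [hSS, Finset.mem_biUnion] at hz
    obtain ⟨p, _, hp⟩ := hz
    exact (hSn1' _ _ z hp).1
  set C2 : Set V := {v | v ∈ C1 ∧ ∀ z ∈ SS, ¬ G.Adj z v} with hC2def
  have hC2 : ¬ Col G C2 (2 ^ (K * (K * K * m)) * τ) := by
    intro hcol
    apply hC1
    have h1 := col_biUnion (G := G) SS (fun z => {u | u ∈ Z ∧ G.Adj z u}) c
      (fun z hz => hH.nb z (hSSZ z hz))
    refine ((hcol.union (h1.mono_right (Nat.mul_le_mul_right c hSScard)))).mono ?_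
    intro v hv
    by_cases hz : ∀ z ∈ SS, ¬ G.Adj z v
    · exact Or.inl ⟨hv, hz⟩
    · push Not at hz
      obtain ⟨z, hz1, hz2⟩ := hz
      right
      simp only [Set.mem_iUnion, exists_prop]
      exact ⟨z, hz1, hDZ (hC1D v hv), hz2⟩
  -- homogenise
  set TT : Finset (ℕ × V) := Finset.range K ×ˢ SS with hTT
  let hfun : V → ↥(TT.powerset) := fun v =>
    ⟨TT.filter (fun p => G.Adj p.2 (P p.1 v 0)), Finset.mem_powerset.mpr (Finset.filter_subset _ _)⟩
  have hcardT : Fintype.card ↥(TT.powerset) ≤ 2 ^ (K * (K * K * m)) := by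
    rw [Fintype.card_coe, Finset.card_powerset]
    refine Nat.pow_le_pow_right (by norm_num) ?_
    rw [hTT, Finset.card_product, Finset.card_range]
    exact Nat.mul_le_mul_left K hSScard
  obtain ⟨φ, hφ⟩ := exists_class (G := G) C2 hfun τ
    (fun hcol => hC2 (hcol.mono_right (Nat.mul_le_mul_right τ hcardT)))
  refine ⟨x', A', {v | v ∈ C2 ∧ hfun v = φ}, Pn, Sn, ?_, hφ⟩
  have hin : ∀ v, v ∈ {v | v ∈ C2 ∧ hfun v = φ} → v ∈ C1 := fun v hv => hv.1.1
  refine ⟨hx', hA', hxA', fun v hv => hC1D v (hin v hv), fun v hv => (hC v (hin v hv).1).2,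
    fun v hv => (hin v hv).2.2.1, fun v hv => (hin v hv).2.1,
    fun v hv i => (hPn2 v (hin v hv) i).1, fun v hv i => (hPn2 v (hin v hv) i).2.2.1,
    fun v hv i => (hPn2 v (hin v hv) i).2.2.2, fun v hv => hPn1 v (hin v hv),
    fun v hv => hPn3 v (hin v hv), fun v hv => (hin v hv).2.2.2, ?_, ?_, ?_, ?_⟩
  · -- Sdom
    intro k' hk' i hi v hv hout
    have hvD := hC1D v (hin v hv)
    have h1 : P k' v 0 ∈ D k' := h.mem_P hk' le_rfl hvD 0
    have h2 : P i (P k' v 0) 0 ∈ D i := h.mem_P hi (by omega) h1 0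
    have h3 : G.Adj v (P k' v 0) := h.adj_P hk' le_rfl hvD 0
    have h4 : G.Adj (P k' v 0) (P i (P k' v 0) 0) := h.adj_P hi (by omega) h1 0
    have h5 : P k' v 0 ∈ Z := h.D_sub (by omega) h1
    have h6 : P i (P k' v 0) 0 ∈ Z := h.D_sub (by omega) h2
    refine hSn3 i k' (P k' v 0) ⟨h5, (hin v hv).2.1 _ h5 h3⟩ ⟨P i (P k' v 0) 0, ?_, h4.symm⟩
    simp only [Finset.mem_filter, Finset.mem_univ, true_and]
    exact ⟨h6, hout, v, hin v hv, rfl⟩
  · -- Sout
    intro k' hk' i hi z hz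
    obtain ⟨_, h2, v, hv, hzv⟩ := hSn1' i k' z hz
    exact ⟨h2, v, hC1D v hv, hzv⟩
  · -- SnA
    intro k' hk' i hi z hz v hv
    refine hv.1.2 z ?_
    rw [hSS, Finset.mem_biUnion]
    exact ⟨(i, k'), by simp only [Finset.mem_product, Finset.mem_range]; omega, hz⟩
  · -- Shom
    intro k' hk' i hi z hz n hn v hv w hw hadj
    have hzSS : z ∈ SS := by
      rw [hSS, Finset.mem_biUnion]
      exact ⟨(i, k'), by simp only [Finset.mem_product, Finset.mem_range]; omega, hz⟩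
    have heq : (hfun v).1 = (hfun w).1 := by rw [hv.2, hw.2]
    have hmem : (n, z) ∈ (hfun v).1 := by
      show (n, z) ∈ TT.filter (fun p => G.Adj p.2 (P p.1 v 0))
      rw [Finset.mem_filter, hTT, Finset.mem_product]
      exact ⟨⟨Finset.mem_range.mpr hn, hzSS⟩, hadj⟩
    rw [heq] at hmem
    have hmem' : (n, z) ∈ TT.filter (fun p => G.Adj p.2 (P p.1 w 0)) := hmem
    exact (Finset.mem_filter.mp hmem').2

/-- Long sequences exist. -/
theorem seq_exists {m c j κ r τ₀ : ℕ} (hU : UJ m c j (r + 1)) : ∀ K τ : ℕ, ∃ Λ : ℕ,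
    ∀ (V : Type) [Fintype V] [DecidableEq V] (G : SimpleGraph V)
    (F : Set (Finset V)) (Z : Set V), Lam F → Hyp m c G F Z → HypJ j κ G F Z →
      ¬ Star G F Z (r + 2) τ₀ → ¬ Col G Z Λ →
      ∃ (x : ℕ → V) (A : ℕ → Finset V) (D : ℕ → Set V) (P : ℕ → V → Fin (r + 1) → V)
        (S : ℕ → ℕ → ℕ → Finset V), SeqOK G F Z r K x A D P S ∧ ¬ Col G (D K) τ := by
  intro K
  induction K with
  | zero =>
    intro τ
    refine ⟨τ, ?_⟩
    intro V _ _ G F Z hF hH hJ hstar hcol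
    obtain ⟨v, hv⟩ := nonempty_of_not_col hcol
    exact ⟨fun _ => v, fun _ => ∅, fun _ => Z, fun _ _ _ => v, fun _ _ _ => ∅,
      ⟨rfl, fun k hk => absurd hk (Nat.not_lt_zero k)⟩, hcol⟩
  | succ K ih =>
    intro τ
    obtain ⟨Λ1, hΛ1⟩ := hU κ (need m c τ₀ K τ)
    obtain ⟨Λ, hΛ⟩ := ih Λ1
    refine ⟨Λ, ?_⟩
    intro V _ _ G F Z hF hH hJ hstar hcol
    obtain ⟨x, A, D, P, S, hseq, hcolD⟩ := hΛ V G F Z hF hH hJ hstar hcol
    have hDZ : D K ⊆ Z := hseq.D_sub le_rfl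
    have hst := hΛ1 V G F (D K) hF (hH.mono hDZ) (hJ.mono hDZ) hcolD
    obtain ⟨xn, An, Dn, Pn, Sn, hstep, hcoln⟩ := step_exists hF hH hstar hseq hst
    refine ⟨Function.update x K xn, Function.update A K An, Function.update D (K + 1) Dn,
      Function.update P K Pn, Function.update S K Sn, ⟨?_, ?_⟩, ?_⟩
    · rw [Function.update_of_ne (by omega)]; exact hseq.1
    · intro k hk
      by_cases hkK : k = K
      · subst hkK
        rw [Function.update_self, Function.update_self, Function.update_self,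
          Function.update_self, Function.update_self, Function.update_of_ne (by omega)]
        exact hstep.congr (fun i hi => Function.update_of_ne (by omega) _ _)
      · rw [Function.update_of_ne hkK, Function.update_of_ne hkK, Function.update_of_ne (by omega),
          Function.update_of_ne (by omega), Function.update_of_ne hkK, Function.update_of_ne hkK]
        exact (hseq.2 k (by omega)).congr (fun i hi => Function.update_of_ne (by omega) _ _)
    · rw [Function.update_self]; exact hcoln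

end Pool.Agent.Helper28.SW
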