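import Pool.Agent.Helper28.SWLinear

set_option autoImplicit false

namespace Pool.Agent.Helper28.SW

/-- Standing hypotheses: cheap neighbourhoods and no crossing induced matching of size `m+1`. -/
structure Hyp {V : Type} [Fintype V] [DecidableEq V] (m c : ℕ) (G : SimpleGraph V)
    (F : Set (Finset V)) (Z : Set V) : Prop where
  nb : ∀ v ∈ Z, Col G {u | u ∈ Z ∧ G.Adj v u} c
  im : ∀ A ∈ F, ¬ IM G Z (A : Set V) (m + 1)

/-- At heavy cuts there is no crossing induced matching of size `j+1`. -/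
def HypJ {V : Type} [Fintype V] [DecidableEq V] (j κ : ℕ) (G : SimpleGraph V)
    (F : Set (Finset V)) (Z : Set V) : Prop :=
  ∀ A ∈ F, ¬ Col G {v | v ∈ Z ∧ v ∈ A} κ → ¬ IM G Z (A : Set V) (j + 1)

theorem Hyp.mono {V : Type} [Fintype V] [DecidableEq V] {m c : ℕ} {G : SimpleGraph V}
    {F : Set (Finset V)} {Z Z' : Set V} (h : Hyp m c G F Z) (hZ : Z' ⊆ Z) : Hyp m c G F Z' :=
  ⟨fun v hv => (h.nb v (hZ hv)).mono (fun _ hu => ⟨hZ hu.1, hu.2⟩),
    fun A hA hIM => h.im A hA (hIM.mono hZ)⟩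

theorem HypJ.mono {V : Type} [Fintype V] [DecidableEq V] {j κ : ℕ} {G : SimpleGraph V}
    {F : Set (Finset V)} {Z Z' : Set V} (h : HypJ j κ G F Z) (hZ : Z' ⊆ Z) : HypJ j κ G F Z' :=
  fun A hA hcol hIM => h A hA (fun h1 => hcol (h1.mono fun _ hv => ⟨hZ hv.1, hv.2⟩)) (hIM.mono hZ)

/-- `S(j)`: bounded chromatic number when heavy cuts have no crossing matching of size `j+1`. -/
def SJ (m c j : ℕ) : Prop :=
  ∀ κ : ℕ, ∃ M : ℕ, ∀ (V : Type) [Fintype V] [DecidableEq V] (G : SimpleGraph V)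
    (F : Set (Finset V)) (Z : Set V), Lam F → Hyp m c G F Z → HypJ j κ G F Z → Col G Z M

/-- A downward star whose inner part is covered by `R`-cliques. -/
def Star {V : Type} [Fintype V] [DecidableEq V] (G : SimpleGraph V) (F : Set (Finset V))
    (Z : Set V) (R τ : ℕ) : Prop :=
  ∃ x ∈ Z, ∃ A ∈ F, x ∉ A ∧ ∃ C : Set V, (∀ v ∈ C, v ∈ Z ∧ v ∈ A) ∧ ¬ Col G C τ ∧
    ∀ v ∈ C, ∃ g : Fin R → V, Clq G g ∧ ∀ i, g i ∈ Z ∧ g i ∈ A ∧ G.Adj x (g i) ∧ G.Adj v (g i)

theorem Star.mono {V : Type} [Fintype V] [DecidableEq V] {G : SimpleGraph V}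
    {F : Set (Finset V)} {Z Z' : Set V} {R τ : ℕ} (h : Star G F Z R τ) (hZ : Z ⊆ Z') :
    Star G F Z' R τ := by
  obtain ⟨x, hx, A, hA, hxA, C, hC, hcol, hg⟩ := h
  refine ⟨x, hZ hx, A, hA, hxA, C, fun v hv => ⟨hZ (hC v hv).1, (hC v hv).2⟩, hcol, ?_⟩
  intro v hv
  obtain ⟨g, h1, h2⟩ := hg v hv
  exact ⟨g, h1, fun i => ⟨hZ (h2 i).1, (h2 i).2⟩⟩

/-- Existence of heavy stars. -/
def UJ (m c j R : ℕ) : Prop :=
  ∀ κ τ : ℕ, ∃ Λ : ℕ, ∀ (V : Type) [Fintype V] [DecidableEq V] (G : SimpleGraph V)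
    (F : Set (Finset V)) (Z : Set V), Lam F → Hyp m c G F Z → HypJ j κ G F Z → ¬ Col G Z Λ →
      Star G F Z R τ

theorem SJ_zero (m c : ℕ) : SJ m c 0 := by
  intro κ
  refine ⟨2 * κ + 1, ?_⟩
  intro V _ _ G F Z hF hH hJ
  have key : ∀ n : ℕ, ∀ A ∈ F, A.card = n → Col G {v | v ∈ Z ∧ v ∈ A} (2 * κ + 1) := by
    intro n
    induction n using Nat.strong_induction_on with
    | _ n ih =>
      intro A hA hn
      rcases hF.split A hA with h1 | ⟨B, hB, C, hC, hBC, hdisj, hBne, hCne⟩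
      · refine (col_one_of_indep ?_).mono_right (by omega)
        rintro u ⟨_, hu⟩ v ⟨_, hv⟩ huv
        have := Finset.card_le_one.mp h1 u hu v hv
        subst this
        exact G.loopless.irrefl _ huv
      · have hcard : B.card + C.card = A.card := by
          rw [← hBC, Finset.card_union_of_disjoint hdisj]
        have hBpos := hBne.card_pos
        have hCpos := hCne.card_pos
        have ihB := ih B.card (by omega) B hB rfl
        have ihC := ih C.card (by omega) C hC rfl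
        have hset : {v | v ∈ Z ∧ v ∈ A} = {v | v ∈ Z ∧ v ∈ B} ∪ {v | v ∈ Z ∧ v ∈ C} := by
          ext v
          simp only [Set.mem_union, ← hBC, Finset.mem_union]
          constructor
          · rintro ⟨h1, h2 | h2⟩
            · exact Or.inl ⟨h1, h2⟩
            · exact Or.inr ⟨h1, h2⟩
          · rintro (⟨h1, h2⟩ | ⟨h1, h2⟩)
            · exact ⟨h1, Or.inl h2⟩
            · exact ⟨h1, Or.inr h2⟩
        rw [hset]
        by_cases hBh : Col G {v | v ∈ Z ∧ v ∈ B} κ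
        · by_cases hCh : Col G {v | v ∈ Z ∧ v ∈ C} κ
          · exact (hBh.union hCh).mono_right (by omega)
          · refine ihB.union_disj ihC ?_
            rintro u ⟨huZ, huB⟩ v ⟨hvZ, hvC⟩ huv
            refine hJ C hC hCh (IM_one huZ ?_ hvZ ?_ huv)
            · intro h; exact Finset.disjoint_left.mp hdisj huB h
            · exact hvC
        · refine ihB.union_disj ihC ?_
          rintro u ⟨huZ, huB⟩ v ⟨hvZ, hvC⟩ huv
          refine hJ B hB hBh (IM_one hvZ ?_ huZ ?_ huv.symm)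
          · intro h; exact Finset.disjoint_left.mp hdisj h hvC
          · exact huB
  have := key _ Finset.univ hF.root rfl
  refine this.mono ?_
  intro v hv
  exact ⟨hv, Finset.mem_univ v⟩

/-! ### breadth first search -/

/-- Balls of radius `n` around `v0` inside `Z`. -/
def ball {V : Type} (G : SimpleGraph V) (Z : Set V) (v0 : V) : ℕ → Set V
  | 0 => {v0}
  | n + 1 => {v | v ∈ ball G Z v0 n ∨ (v ∈ Z ∧ ∃ u ∈ ball G Z v0 n, G.Adj u v)}

/-- The component of `v0`. -/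
def comp {V : Type} (G : SimpleGraph V) (Z : Set V) (v0 : V) : Set V :=
  {v | ∃ n, v ∈ ball G Z v0 n}

/-- The level of a vertex. -/
noncomputable def lev {V : Type} (G : SimpleGraph V) (Z : Set V) (v0 : V) (v : V) : ℕ :=
  sInf {n | v ∈ ball G Z v0 n}

section bfs
variable {V : Type} {G : SimpleGraph V} {Z : Set V} {v0 : V}

theorem mem_ball_lev {v : V} (hv : v ∈ comp G Z v0) : v ∈ ball G Z v0 (lev G Z v0 v) :=
  Nat.sInf_mem (s := {n | v ∈ ball G Z v0 n}) hv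

theorem lev_le {v : V} {n : ℕ} (hv : v ∈ ball G Z v0 n) : lev G Z v0 v ≤ n :=
  Nat.sInf_le (s := {n | v ∈ ball G Z v0 n}) hv

theorem ball_subset (hv0 : v0 ∈ Z) (n : ℕ) : ball G Z v0 n ⊆ Z := by
  induction n with
  | zero => intro v hv; rw [ball, Set.mem_singleton_iff] at hv; rw [hv]; exact hv0
  | succ n ih =>
    intro v hv
    rcases hv with hv | hv
    · exact ih hv
    · exact hv.1

theorem comp_subset (hv0 : v0 ∈ Z) : comp G Z v0 ⊆ Z := by
  rintro v ⟨n, hn⟩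
  exact ball_subset hv0 n hn

theorem mem_comp_self : v0 ∈ comp G Z v0 := ⟨0, rfl⟩

theorem comp_closed {u v : V} (hu : u ∈ comp G Z v0) (hv : v ∈ Z) (huv : G.Adj u v) :
    v ∈ comp G Z v0 := by
  obtain ⟨n, hn⟩ := hu
  exact ⟨n + 1, Or.inr ⟨hv, u, hn, huv⟩⟩

theorem lev_adj {u v : V} (hu : u ∈ comp G Z v0) (hv : v ∈ Z) (huv : G.Adj u v) :
    lev G Z v0 v ≤ lev G Z v0 u + 1 :=
  lev_le (Or.inr ⟨hv, u, mem_ball_lev hu, huv⟩)

theorem lev_zero {v : V} (hv : v ∈ comp G Z v0) (h : lev G Z v0 v = 0) : v = v0 := by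
  have := mem_ball_lev hv
  rw [h] at this
  exact this

theorem lev_succ {v : V} {n : ℕ} (hv : v ∈ comp G Z v0) (h : lev G Z v0 v = n + 1) :
    ∃ u ∈ comp G Z v0, lev G Z v0 u = n ∧ G.Adj u v := by
  have h1 := mem_ball_lev hv
  rw [h] at h1
  rcases h1 with h1 | ⟨hvZ, u, hu, huv⟩
  · have := lev_le h1; omega
  · refine ⟨u, ⟨n, hu⟩, ?_, huv⟩
    have h2 := lev_le hu
    have h3 := lev_adj (G := G) (Z := Z) (v0 := v0) ⟨n, hu⟩ hvZ huv
    omega

/-- If the ball of radius `n` meets a set `A` not containing `v0` then some edge of the ball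
crosses the boundary of `A`. -/
theorem crossing_edge {A : Set V} (hv0 : v0 ∉ A) : ∀ n : ℕ, ∀ w ∈ comp G Z v0,
    w ∈ A → lev G Z v0 w = n → ∃ a ∈ comp G Z v0, ∃ b ∈ comp G Z v0, a ∉ A ∧ b ∈ A ∧ G.Adj a b ∧
      lev G Z v0 a ≤ n ∧ lev G Z v0 b ≤ n := by
  intro n
  induction n with
  | zero =>
    intro w hw hwA hl
    exact absurd (lev_zero hw hl ▸ hwA) hv0
  | succ n ih =>
    intro w hw hwA hl
    obtain ⟨u, hu, hlu, huw⟩ := lev_succ hw hl
    by_cases huA : u ∈ A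
    · obtain ⟨a, ha, b, hb, h1, h2, h3, h4, h5⟩ := ih u hu huA hlu
      exact ⟨a, ha, b, hb, h1, h2, h3, by omega, by omega⟩
    · exact ⟨u, hu, w, hw, huA, hwA, huw, by omega, by omega⟩

end bfs

end Pool.Agent.Helper28.SW
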