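import Pool.Agent.Helper28.SWStar

set_option autoImplicit false

namespace Pool.Agent.Helper28.SW

section pos
variable {V : Type} [Fintype V] [DecidableEq V]

/-- size of the smallest node containing both `v0` and `v`. -/
noncomputable def posn (F : Set (Finset V)) (v0 : V) (v : V) : ℕ :=
  sInf {n | ∃ A ∈ F, v0 ∈ A ∧ v ∈ A ∧ A.card = n}

theorem posn_spec {F : Set (Finset V)} (hF : Lam F) (v0 v : V) :
    ∃ A ∈ F, v0 ∈ A ∧ v ∈ A ∧ A.card = posn F v0 v :=
  Nat.sInf_mem (s := {n | ∃ A ∈ F, v0 ∈ A ∧ v ∈ A ∧ A.card = n})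
    ⟨_, Finset.univ, hF.root, Finset.mem_univ _, Finset.mem_univ _, rfl⟩

theorem posn_le {F : Set (Finset V)} {v0 v : V} {A : Finset V} (hA : A ∈ F) (h0 : v0 ∈ A)
    (hv : v ∈ A) : posn F v0 v ≤ A.card :=
  Nat.sInf_le (s := {n | ∃ A ∈ F, v0 ∈ A ∧ v ∈ A ∧ A.card = n}) ⟨A, hA, h0, hv, rfl⟩

theorem Lam.eq_of_card {F : Set (Finset V)} (hF : Lam F) {A B : Finset V} (hA : A ∈ F)
    (hB : B ∈ F) {v : V} (hvA : v ∈ A) (hvB : v ∈ B) (hle : B.card ≤ A.card) : B ⊆ A := by
  rcases hF.laminar A hA B hB with h | h | h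
  · have := Finset.eq_of_subset_of_card_le h hle
    rw [this]
  · exact h
  · exact absurd hvB (Finset.disjoint_left.mp h hvA)

end pos

/-- Chromatic bound for one breadth-first level, given bounds on all sets hanging off the path of
`v0`. -/
theorem level_col {m c D Fl : ℕ}
    (hFl : ∀ (V : Type) [Finite V] (G : SimpleGraph V) (Z : Set V) (pos : V → ℕ),
      (∀ v ∈ Z, Col G {u | u ∈ Z ∧ G.Adj v u} c) →
      (∀ a, Col G {v | v ∈ Z ∧ pos v = a} (max 1 D)) →
      (∀ a, ¬ IM G Z {v | pos v ≤ a} (m + 1)) → Col G Z Fl)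
    {V : Type} [Fintype V] [DecidableEq V] {G : SimpleGraph V}
    {F : Set (Finset V)} {L : Set V} (hF : Lam F) (hH : Hyp m c G F L) (v0 : V)
    (hD : ∀ B ∈ F, v0 ∉ B → Col G {v | v ∈ L ∧ v ∈ B} D) : Col G L Fl := by
  refine hFl V G L (posn F v0) hH.nb ?_ ?_
  · intro a
    by_cases hne : ({v | v ∈ L ∧ posn F v0 v = a} : Set V).Nonempty
    · obtain ⟨v1, hv1L, hv1⟩ := hne
      obtain ⟨A, hA, hv0A, hv1A, hcard⟩ := posn_spec hF v0 v1
      have hall : ∀ v, v ∈ L ∧ posn F v0 v = a → v ∈ A := by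
        rintro v ⟨_, hv⟩
        obtain ⟨A', hA', hv0A', hvA', hcard'⟩ := posn_spec hF v0 v
        exact hF.eq_of_card hA hA' hv0A hv0A' (by omega) hvA'
      rcases hF.split A hA with h1 | ⟨B, hB, C, hC, hBC, hdisj, hBne, hCne⟩
      · refine ((col_singleton v0).mono ?_).mono_right (le_max_left _ _)
        intro v hv
        exact Finset.card_le_one.mp h1 v (hall v hv) v0 hv0A
      · have hcard2 : B.card + C.card = A.card := by
          rw [← hBC, Finset.card_union_of_disjoint hdisj]
        have hBpos := hBne.card_pos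
        have hCpos := hCne.card_pos
        have hv0 : v0 ∈ B ∨ v0 ∈ C := by
          rw [← hBC] at hv0A; exact Finset.mem_union.mp hv0A
        rcases hv0 with hv0 | hv0
        · refine ((hD C hC (Finset.disjoint_left.mp hdisj hv0)).mono ?_).mono_right
            (le_max_right _ _)
          intro v hv
          have h2 := hall v hv
          rw [← hBC, Finset.mem_union] at h2
          refine ⟨hv.1, h2.resolve_left ?_⟩
          intro h3
          have := posn_le hB hv0 h3
          have := hv.2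
          omega
        · refine ((hD B hB (Finset.disjoint_right.mp hdisj hv0)).mono ?_).mono_right
            (le_max_right _ _)
          intro v hv
          have h2 := hall v hv
          rw [← hBC, Finset.mem_union] at h2
          refine ⟨hv.1, h2.resolve_right ?_⟩
          intro h3
          have := posn_le hC hv0 h3
          have := hv.2
          omega
    · rw [Set.not_nonempty_iff_eq_empty] at hne
      rw [hne]
      exact col_empty _
  · intro a hIM
    -- the set of nodes containing `v0` of size at most `a`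
    have hne : ({B | B ∈ F ∧ v0 ∈ B ∧ B.card ≤ a} : Set (Finset V)).Nonempty := by
      obtain ⟨f, g, hf, hg, hfg⟩ := hIM
      have h1 : posn F v0 (g 0) ≤ a := (hg 0).2
      obtain ⟨B, hB, h2, h3, h4⟩ := posn_spec hF v0 (g 0)
      exact ⟨B, hB, h2, by omega⟩
    obtain ⟨B, ⟨hB, hv0B, hBa⟩, hmax⟩ := Set.exists_max_image _ Finset.card (Set.toFinite _) hne
    have hset : {v | posn F v0 v ≤ a} = (B : Set V) := by
      ext v
      constructor
      · intro hv
        obtain ⟨B', hB', h2, h3, h4⟩ := posn_spec hF v0 v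
        have hv' : posn F v0 v ≤ a := hv
        have h5 := hmax B' ⟨hB', h2, by omega⟩
        exact hF.eq_of_card hB hB' hv0B h2 h5 h3
      · intro hv
        have := posn_le hB hv0B hv
        show posn F v0 v ≤ a
        omega
    rw [hset] at hIM
    exact hH.im B hB hIM

/-- Bounded chromatic number of the component of `v0` if there is no heavy star. -/
theorem comp_col {m c J κ τ D Fl : ℕ}
    (hSJ : ∀ (V : Type) [Fintype V] [DecidableEq V] (G : SimpleGraph V)
      (F : Set (Finset V)) (Z : Set V), Lam F → Hyp m c G F Z →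
      HypJ J (max κ (m * c + m * τ)) G F Z → Col G Z D)
    (hFl : ∀ (V : Type) [Finite V] (G : SimpleGraph V) (Z : Set V) (pos : V → ℕ),
      (∀ v ∈ Z, Col G {u | u ∈ Z ∧ G.Adj v u} c) →
      (∀ a, Col G {v | v ∈ Z ∧ pos v = a} (max 1 D)) →
      (∀ a, ¬ IM G Z {v | pos v ≤ a} (m + 1)) → Col G Z Fl)
    {V : Type} [Fintype V] [DecidableEq V] {G : SimpleGraph V}
    {F : Set (Finset V)} {Z : Set V} (hF : Lam F) (hH : Hyp m c G F Z) (hJ : HypJ (J + 1) κ G F Z)
    (hstar : ¬ Star G F Z 1 τ) (v0 : V) (hv0 : v0 ∈ Z) :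
    Col G (comp G Z v0) (2 * (max (max 1 c) Fl)) := by
  classical
  have hK := comp_subset (G := G) hv0
  refine col_layers _ (lev G Z v0) _ ?_ ?_
  · intro u hu v hv huv
    exact lev_adj hu (hK hv) huv
  intro n
  match n with
  | 0 =>
    refine ((col_singleton v0).mono ?_).mono_right ((le_max_left 1 c).trans (le_max_left _ _))
    rintro v ⟨hv, h⟩
    exact lev_zero hv h
  | 1 =>
    refine ((hH.nb v0 hv0).mono ?_).mono_right ((le_max_right 1 c).trans (le_max_left _ _))
    rintro v ⟨hv, h⟩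
    obtain ⟨u, hu, hlu, huv⟩ := lev_succ hv h
    rw [lev_zero hu hlu] at huv
    exact ⟨hK hv, huv⟩
  | i + 2 =>
    refine Col.mono_right ?_ (le_max_right _ _)
    set L : Set V := {v | v ∈ comp G Z v0 ∧ lev G Z v0 v = i + 2} with hL
    have hLZ : L ⊆ Z := fun v hv => hK hv.1
    refine level_col hFl hF (hH.mono hLZ) v0 ?_
    -- heavy cuts on the far side meet the level `i`
    have hmeet : ∀ A ∈ F, v0 ∉ A → ¬ Col G {v | v ∈ L ∧ v ∈ A} (m * c + m * τ) →
        ∃ w ∈ comp G Z v0, w ∈ A ∧ lev G Z v0 w = i := by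
      intro A hA hv0A hheavy
      by_contra hno
      push Not at hno
      apply hheavy
      obtain ⟨S', hS', hcard, hdom⟩ := dominate (hH.im A hA)
        (Finset.univ.filter fun w => w ∈ comp G Z v0 ∧ lev G Z v0 w = i)
        {y | y ∈ Z ∧ y ∈ A}
        (by
          intro s hs
          simp only [Finset.mem_filter, Finset.mem_univ, true_and] at hs
          exact ⟨hK hs.1, fun h => hno s hs.1 h hs.2⟩)
        (by intro t ht; exact ht)
      have h1 := col_biUnion (G := G) S'
        (fun x => {v | v ∈ Z ∧ v ∈ A ∧ ∃ y, y ∈ Z ∧ y ∈ A ∧ G.Adj x y ∧ G.Adj v y}) τ (by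
        intro x hx
        by_contra hcol
        have hx' := hS' hx
        simp only [Finset.mem_filter, Finset.mem_univ, true_and] at hx'
        refine hstar ⟨x, hK hx'.1, A, hA, fun h => hno x hx'.1 h hx'.2, _,
          fun v hv => ⟨hv.1, hv.2.1⟩, hcol, ?_⟩
        rintro v ⟨_, _, y, hyZ, hyA, hxy, hvy⟩
        refine ⟨fun _ => y, ?_, fun _ => ⟨hyZ, hyA, hxy, hvy⟩⟩
        intro a b hab
        exact absurd (Subsingleton.elim a b) hab)
      have h2 := (boundary_col (hH.im A hA) hH.nb).union h1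
      refine (h2.mono ?_).mono_right (by
        have := Nat.mul_le_mul_right τ hcard
        omega)
      rintro v ⟨⟨hvK, hvl⟩, hvA⟩
      obtain ⟨y, hyK, hyl, hyv⟩ := lev_succ hvK hvl
      by_cases hyA : y ∈ A
      · right
        obtain ⟨w, hwK, hwl, hwy⟩ := lev_succ hyK hyl
        obtain ⟨s, hs, hsy⟩ := hdom y ⟨hK hyK, hyA⟩ ⟨w, by simp [hwK, hwl], hwy⟩
        simp only [Set.mem_iUnion, exists_prop]
        exact ⟨s, hs, hK hvK, hvA, y, hK hyK, hyA, hsy, hyv.symm⟩
      · left
        exact ⟨hK hvK, hvA, y, hK hyK, hyA, hyv⟩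
    intro B hB hv0B
    refine hSJ V G F _ hF (hH.mono (fun v hv => hLZ hv.1)) ?_
    intro A hA hheavy hIM
    by_cases hv0A : v0 ∈ A
    · rcases hF.laminar A hA B hB with h | h | h
      · exact hv0B (h hv0A)
      · exact not_IM_of_subset (fun v hv => h hv.2) hIM
      · exact not_IM_of_disjoint (fun v hv hvA => Finset.disjoint_left.mp h hvA hv.2) hIM
    · have hheavy1 : ¬ Col G {v | v ∈ L ∧ v ∈ A} (m * c + m * τ) := by
        intro h
        exact hheavy ((h.mono fun v hv => ⟨hv.1.1, hv.2⟩).mono_right (le_max_right _ _))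
      have hheavy2 : ¬ Col G {v | v ∈ Z ∧ v ∈ A} κ := by
        intro h
        exact hheavy ((h.mono fun v hv => ⟨hLZ hv.1.1, hv.2⟩).mono_right (le_max_left _ _))
      obtain ⟨w, hwK, hwA, hwl⟩ := hmeet A hA hv0A hheavy1
      obtain ⟨a, haK, b, hbK, haA, hbA, hab, hal, hbl⟩ :=
        crossing_edge (A := (A : Set V)) hv0A i w hwK hwA hwl
      refine hJ A hA hheavy2 (IM.cons hIM (fun v hv => hLZ hv.1) (hK haK) haA (hK hbK) hbA hab
        ?_ ?_)
      · rintro v ⟨⟨hvK, hvl⟩, _⟩ _ hav
        have := lev_adj haK (hK hvK) hav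
        omega
      · rintro v ⟨⟨hvK, hvl⟩, _⟩ _ hvb
        have := lev_adj hbK (hK hvK) hvb.symm
        omega

theorem star_base {m c J : ℕ} (hSJ : SJ m c J) : UJ m c (J + 1) 1 := by
  intro κ τ
  obtain ⟨D, hD⟩ := hSJ (max κ (m * c + m * τ))
  obtain ⟨Fl, hFl⟩ := linear_bound c (max 1 D) m
  refine ⟨2 * (max (max 1 c) Fl), ?_⟩
  intro V _ _ G F Z hF
  have key : ∀ n : ℕ, ∀ Z : Set V, Z.ncard = n → Hyp m c G F Z → HypJ (J + 1) κ G F Z →
      ¬ Star G F Z 1 τ → Col G Z (2 * (max (max 1 c) Fl)) := by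
    intro n
    induction n using Nat.strong_induction_on with
    | _ n ih =>
      intro Z hn hH hJ hstar
      by_cases hne : Z.Nonempty
      · obtain ⟨v0, hv0⟩ := hne
        have h1 := comp_col hD hFl hF hH hJ hstar v0 hv0
        have hlt : (Z \ comp G Z v0).ncard < n := by
          rw [← hn]
          refine Set.ncard_lt_ncard ?_ (Set.toFinite _)
          refine Set.ssubset_iff_subset_ne.mpr ⟨Set.diff_subset, ?_⟩
          intro h
          have : v0 ∈ Z \ comp G Z v0 := by rw [h]; exact hv0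
          exact this.2 mem_comp_self
        have h2 := ih _ hlt (Z \ comp G Z v0) rfl (hH.mono Set.diff_subset)
          (hJ.mono Set.diff_subset) (fun h => hstar (h.mono Set.diff_subset))
        refine (h1.union_disj h2 ?_).mono ?_
        · intro u hu v hv huv
          exact hv.2 (comp_closed hu hv.1 huv)
        · intro v hv
          by_cases h : v ∈ comp G Z v0
          · exact Or.inl h
          · exact Or.inr ⟨hv, h⟩
      · rw [Set.not_nonempty_iff_eq_empty] at hne
        rw [hne]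
        exact col_empty _
  intro hH hJ hcol
  by_contra hstar
  exact hcol (key _ Z rfl hH hJ hstar)

end Pool.Agent.Helper28.SW
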